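import Pool.Agent.Lib.MP_7946c7_pr.N.SwapB

/-!
# N/SwapC. Swap inequality for paths (N1) and for containment (N2)

PROOFS. `saw_not_reach`: `e = s(γ i, γ (i+1))` is a bridge of the tree
(`SimpleGraph.isAcyclic_iff_forall_edge_isBridge`, `SimpleGraph.isBridge_iff`), so `γ i` and `γ (i+1)`
are not joined in `T.deleteEdges {e}`; the pieces `γ 0, …, γ i` and `γ (i+1), …, γ ℓ` use other edges
(the vertices are distinct), so `γ 0` reaches `γ i` and `γ ℓ` reaches `γ (i+1)` there.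
`swap_path`: `swap_gen` with `B = univ` (`PT_le_one`, and the sum is nonnegative): if all pairs
`ρ i, ρ (i+1)`, `i < k`, were joined in `T.deleteEdges {e}` then `ρ 0 = γ 0` and `ρ k = γ ℓ` would be
joined. `e ∈ T.edgeSet` since `T.Adj (γ i) (γ (i+1))`.
`swap_contain`: `swap_gen` with `A = {T | S ⊆ T.edgeSet ∧ e ∈ T.edgeSet}`, `B = {T | S ⊆ T.edgeSet}`.
`S ⊆ (T.deleteEdges {e}).edgeSet` as `e ∉ S`; `x` and `y` are not joined in `T.deleteEdges {e}`
(bridge), they are joined in the graph of `S ∪ {f i}`; so some `f i` has its endpoints not joined.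
`swp` contains `S`.
-/

open Finset
open scoped Classical

namespace RST.N

variable {V : Type} [Fintype V]

omit [Fintype V] in
private theorem swapC_reach_of (G H : SimpleGraph V) (h : ∀ u v, G.Adj u v → H.Reachable u v)
    {x y : V} (hr : G.Reachable x y) : H.Reachable x y := by
  obtain ⟨w⟩ := hr
  induction w with
  | nil => exact SimpleGraph.Reachable.refl _
  | cons hadj p ih => exact (h _ _ hadj).trans ih

omit [Fintype V] in
private theorem swapC_chain (H : SimpleGraph V) (ρ : ℕ → V) (a b : ℕ) (hab : a ≤ b)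
    (h : ∀ i, a ≤ i → i < b → H.Reachable (ρ i) (ρ (i + 1))) : H.Reachable (ρ a) (ρ b) := by
  induction b, hab using Nat.le_induction with
  | base => exact SimpleGraph.Reachable.refl _
  | succ b hab ih =>
    exact (ih fun i h1 h2 => h i h1 (by omega)).trans (h b hab (by omega))

omit [Fintype V] in
private theorem swapC_bridge (T : SimpleGraph V) (hT : T.IsTree) (x y : V) (h : T.Adj x y) :
    ¬ (T.deleteEdges {s(x, y)}).Reachable x y := by
  have h1 := SimpleGraph.isAcyclic_iff_forall_edge_isBridge.1 hT.isAcyclic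
    (SimpleGraph.mem_edgeSet T |>.2 h)
  rw [SimpleGraph.isBridge_iff] at h1
  first
    | exact h1.2
    | exact h1

theorem saw_not_reach (T : SimpleGraph V) (hT : T.IsTree) (γ : ℕ → V) (ℓ : ℕ)
    (h : IsSAW T.Adj γ ℓ) (i : ℕ) (hi : i < ℓ) :
    ¬ (T.deleteEdges {s(γ i, γ (i + 1))}).Reachable (γ 0) (γ ℓ) := by
  intro hr
  have hadj : ∀ j, j < ℓ → j ≠ i →
      (T.deleteEdges {s(γ i, γ (i + 1))}).Reachable (γ j) (γ (j + 1)) := by
    intro j hj hji
    apply SimpleGraph.Adj.reachable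
    rw [SimpleGraph.deleteEdges_adj]
    refine ⟨h.1 j hj, ?_⟩
    rw [Set.mem_singleton_iff]
    intro heq
    rcases Sym2.eq_iff.1 heq with ⟨h1, _⟩ | ⟨h1, h2⟩
    · exact hji (h.2 j (by omega) i (by omega) h1)
    · have e1 := h.2 j (by omega) (i + 1) (by omega) h1
      have e2 := h.2 (j + 1) (by omega) i (by omega) h2
      omega
  have r1 := swapC_chain _ γ 0 i (by omega) (fun j _ h2 => hadj j (by omega) (by omega))
  have r2 := swapC_chain _ γ (i + 1) ℓ (by omega) (fun j h1 h2 => hadj j (by omega) (by omega))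
  exact swapC_bridge T hT (γ i) (γ (i + 1)) (h.1 i hi) ((r1.symm.trans hr).trans r2.symm)

theorem swap_path (c : Sym2 V → ℝ) (hc : ∀ e, 0 < c e) (ρ : ℕ → V) (k : ℕ) (e : Sym2 V) :
    PT c {T | ∃ γ ℓ, IsSAW T.Adj γ ℓ ∧ γ 0 = ρ 0 ∧ γ ℓ = ρ k ∧ ∃ i < ℓ, s(γ i, γ (i + 1)) = e} ≤
      ∑ i ∈ range k, c e / c s(ρ i, ρ (i + 1)) := by
  have h1 := swap_gen c hc {T | ∃ γ ℓ, IsSAW T.Adj γ ℓ ∧ γ 0 = ρ 0 ∧ γ ℓ = ρ k ∧
    ∃ i < ℓ, s(γ i, γ (i + 1)) = e} Set.univ e ρ k (by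
      rintro T ⟨γ, ℓ, hsaw, h0, hk, i, hi, rfl⟩ hT
      refine ⟨(SimpleGraph.mem_edgeSet T).2 (hsaw.1 i hi), ?_⟩
      by_contra hcon
      push Not at hcon
      have hr : (T.deleteEdges {s(γ i, γ (i + 1))}).Reachable (ρ 0) (ρ k) := by
        apply swapC_chain _ ρ 0 k (by omega)
        intro j _ hj
        by_contra hnr
        exact hcon j hj hnr (Set.mem_univ _)
      rw [← h0, ← hk] at hr
      exact saw_not_reach T hT γ ℓ hsaw i hi hr)
  have h2 : 0 ≤ ∑ i ∈ range k, c e / c s(ρ i, ρ (i + 1)) :=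
    Finset.sum_nonneg fun i _ => div_nonneg (hc _).le (hc _).le
  calc _ ≤ (∑ i ∈ range k, c e / c s(ρ i, ρ (i + 1))) * PT c Set.univ := h1
    _ ≤ (∑ i ∈ range k, c e / c s(ρ i, ρ (i + 1))) * 1 :=
        mul_le_mul_of_nonneg_left (PT_le_one c hc _) h2
    _ = _ := mul_one _

theorem swap_contain (c : Sym2 V → ℝ) (hc : ∀ e, 0 < c e) (S : Set (Sym2 V)) (x y : V)
    (hS : s(x, y) ∉ S) (ρ : ℕ → V) (k : ℕ)
    (hconn : (SimpleGraph.fromEdgeSet (S ∪ {f | ∃ i < k, f = s(ρ i, ρ (i + 1))})).Reachable x y) :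
    PT c {T | S ⊆ T.edgeSet ∧ s(x, y) ∈ T.edgeSet} ≤
      (∑ i ∈ range k, c s(x, y) / c s(ρ i, ρ (i + 1))) * PT c {T | S ⊆ T.edgeSet} := by
  refine swap_gen c hc {T | S ⊆ T.edgeSet ∧ s(x, y) ∈ T.edgeSet} {T | S ⊆ T.edgeSet} s(x, y) ρ k ?_
  rintro T ⟨hST, hxy⟩ hT
  refine ⟨hxy, ?_⟩
  by_contra hcon
  push Not at hcon
  have hswp : ∀ f : Sym2 V, S ⊆ (swp T s(x, y) f).edgeSet := by
    intro f g hg
    unfold swp
    rw [SimpleGraph.edgeSet_sup]
    left
    rw [SimpleGraph.edgeSet_deleteEdges]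
    refine ⟨hST hg, ?_⟩
    intro h
    rw [Set.mem_singleton_iff] at h
    exact hS (h ▸ hg)
  have hr : (T.deleteEdges {s(x, y)}).Reachable x y := by
    refine swapC_reach_of _ _ ?_ hconn
    intro u v huv
    rw [SimpleGraph.fromEdgeSet_adj] at huv
    obtain ⟨h1 | ⟨i, hi, h1⟩, hne⟩ := huv
    · apply SimpleGraph.Adj.reachable
      rw [SimpleGraph.deleteEdges_adj]
      refine ⟨(SimpleGraph.mem_edgeSet T).1 (hST h1), ?_⟩
      intro h
      rw [Set.mem_singleton_iff] at h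
      exact hS (h ▸ h1)
    · have h2 : (T.deleteEdges {s(x, y)}).Reachable (ρ i) (ρ (i + 1)) := by
        by_contra hnr
        exact hcon i hi hnr (hswp _)
      rcases Sym2.eq_iff.1 h1 with ⟨rfl, rfl⟩ | ⟨rfl, rfl⟩
      · exact h2
      · exact h2.symm
  exact swapC_bridge T hT x y ((SimpleGraph.mem_edgeSet T).1 hxy) hr

end RST.N
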