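import Pool.Agent.Lib.MP_7946c7_pr.IfT
import Pool.Agent.Lib.MP_7946c7_pr.N.SwapC

/-!
# N/Lab. Labels of the tree paths (H3)

PROOF. `c e = exp (-κ * lab e)`, `n = card V`. Let `B` be the finite set of the triples `(u, v, e)`,
`u v : V`, `e : Sym2 V`, for which there is a real `x` with `Rch (gr lab x) univ u v` and
`x + 6 log n / κ < lab e`. If `T` is in the set of the statement then for some `(u, v, e) ∈ B` the path
of `T` from `u` to `v` contains `e`: `PT_biUnion`. For `(u, v, e) ∈ B` choose `x`, and by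
`RST.rch_saw` (file IfT) a self-avoiding walk `ρ` from `u` to `v` of length `k` with labels `≤ x`;
`k < n` since its `k + 1` vertices are distinct. By `swap_path` the probability is at most
`∑_{i<k} exp (-κ (lab e - lab (ρ i ρ (i+1)))) ≤ k exp (-6 log n) ≤ n * n^(-6) = n^(-5)`.
The number of triples is at most `n * n * (n (n+1) / 2) ≤ n^4` (`Sym2.card`, or the surjection
`V × V → Sym2 V` gives `Fintype.card (Sym2 V) ≤ n^2`). Total `≤ 1 / n`.
-/

open Finset
open scoped Classical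

namespace RST.N

variable {V : Type} [Fintype V]

theorem tree_labels (lab : Sym2 V → ℝ) (κ : ℝ) (hκ : 0 < κ) (hn : 2 ≤ Fintype.card V) :
    PT (fun e => Real.exp (-κ * lab e)) {T | ¬ ∀ (x : ℝ) (γ : ℕ → V) (ℓ : ℕ), IsSAW T.Adj γ ℓ →
      Rch (gr lab x) univ (γ 0) (γ ℓ) →
      ∀ i < ℓ, lab s(γ i, γ (i + 1)) ≤ x + 6 * Real.log (Fintype.card V) / κ} ≤
      1 / (Fintype.card V : ℝ) := by
  have hn0 : (0 : ℝ) < Fintype.card V := by
    have : 0 < Fintype.card V := by omega
    exact_mod_cast this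
  have hc : ∀ e, 0 < Real.exp (-κ * lab e) := fun e => Real.exp_pos _
  have h1 := PT_biUnion (fun e => Real.exp (-κ * lab e)) hc
    ((univ : Finset (V × V × Sym2 V)).filter fun p =>
      ∃ x : ℝ, Rch (gr lab x) univ p.1 p.2.1 ∧ x + 6 * Real.log (Fintype.card V) / κ < lab p.2.2)
    {T | ¬ ∀ (x : ℝ) (γ : ℕ → V) (ℓ : ℕ), IsSAW T.Adj γ ℓ →
      Rch (gr lab x) univ (γ 0) (γ ℓ) →
      ∀ i < ℓ, lab s(γ i, γ (i + 1)) ≤ x + 6 * Real.log (Fintype.card V) / κ}
    (fun p => {T | ∃ γ ℓ, IsSAW T.Adj γ ℓ ∧ γ 0 = p.1 ∧ γ ℓ = p.2.1 ∧ ∃ i < ℓ, s(γ i, γ (i + 1)) = p.2.2})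
    (by
      intro T hT _
      rw [Set.mem_ofPred_eq] at hT
      push Not at hT
      obtain ⟨x, γ, ℓ, hS, hR, i, hi, hlt⟩ := hT
      refine ⟨(γ 0, γ ℓ, s(γ i, γ (i + 1))), ?_, ?_⟩
      · rw [mem_filter]
        exact ⟨mem_univ _, x, hR, hlt⟩
      · exact ⟨γ, ℓ, hS, rfl, rfl, i, hi, rfl⟩)
  refine h1.trans ?_
  have h2 : ∀ p ∈ (univ : Finset (V × V × Sym2 V)).filter (fun p =>
      ∃ x : ℝ, Rch (gr lab x) univ p.1 p.2.1 ∧ x + 6 * Real.log (Fintype.card V) / κ < lab p.2.2),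
      PT (fun e => Real.exp (-κ * lab e)) {T | ∃ γ ℓ, IsSAW T.Adj γ ℓ ∧ γ 0 = p.1 ∧ γ ℓ = p.2.1 ∧
        ∃ i < ℓ, s(γ i, γ (i + 1)) = p.2.2} ≤ 1 / (Fintype.card V : ℝ) ^ 5 := by
    rintro ⟨u, v, e⟩ hp
    rw [mem_filter] at hp
    obtain ⟨_, x, hR, hx⟩ := hp
    simp only at hR hx ⊢
    obtain ⟨ρ, k, h0, hk, hρ, _⟩ := rch_saw (gr lab x) univ u v (mem_univ u) hR
    subst h0
    subst hk
    refine (swap_path (fun e => Real.exp (-κ * lab e)) hc ρ k e).trans ?_
    have hkn : k + 1 ≤ Fintype.card V := by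
      have h3 : Function.Injective (fun i : Fin (k + 1) => ρ i) := by
        intro i j hij
        apply Fin.ext
        exact hρ.2 i (Nat.lt_succ_iff.1 i.2) j (Nat.lt_succ_iff.1 j.2) hij
      have := Fintype.card_le_of_injective _ h3
      rwa [Fintype.card_fin] at this
    have hterm : ∀ i ∈ range k, Real.exp (-κ * lab e) / Real.exp (-κ * lab s(ρ i, ρ (i + 1))) ≤
        1 / (Fintype.card V : ℝ) ^ 6 := by
      intro i hi
      have h4 : lab s(ρ i, ρ (i + 1)) ≤ x := (hρ.1 i (mem_range.1 hi)).2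
      rw [← Real.exp_sub]
      have h5 : 1 / (Fintype.card V : ℝ) ^ 6 = Real.exp (-(6 * Real.log (Fintype.card V))) := by
        rw [Real.exp_neg, one_div]
        congr 1
        have h6 : (6 : ℝ) * Real.log (Fintype.card V) = ((6 : ℕ) : ℝ) * Real.log (Fintype.card V) := by norm_num
        rw [h6, Real.exp_nat_mul, Real.exp_log hn0]
      rw [h5]
      apply Real.exp_le_exp.2
      have h7 : κ * (6 * Real.log (Fintype.card V) / κ) = 6 * Real.log (Fintype.card V) := by
        field_simp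
      have h8 : κ * (x + 6 * Real.log (Fintype.card V) / κ) ≤ κ * lab e :=
        mul_le_mul_of_nonneg_left hx.le hκ.le
      have h9 : κ * lab s(ρ i, ρ (i + 1)) ≤ κ * x := mul_le_mul_of_nonneg_left h4 hκ.le
      rw [mul_add, h7] at h8
      linarith
    refine (sum_le_card_nsmul _ _ _ hterm).trans ?_
    rw [card_range, nsmul_eq_mul]
    have hkn' : (k : ℝ) ≤ Fintype.card V := by
      have : k ≤ Fintype.card V := by omega
      exact_mod_cast this
    rw [mul_one_div, div_le_div_iff₀ (by positivity) (by positivity)]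
    have h10 : (k : ℝ) * (Fintype.card V : ℝ) ^ 5 ≤ (Fintype.card V : ℝ) * (Fintype.card V : ℝ) ^ 5 :=
      mul_le_mul_of_nonneg_right hkn' (by positivity)
    calc (k : ℝ) * (Fintype.card V : ℝ) ^ 5 ≤ (Fintype.card V : ℝ) * (Fintype.card V : ℝ) ^ 5 := h10
      _ = 1 * (Fintype.card V : ℝ) ^ 6 := by ring
  refine (sum_le_card_nsmul _ _ _ h2).trans ?_
  rw [nsmul_eq_mul]
  have hsym : Fintype.card (Sym2 V) ≤ Fintype.card V * Fintype.card V := by
    have h3 : Function.Surjective (fun p : V × V => s(p.1, p.2)) := by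
      intro e
      induction e using Sym2.inductionOn with
      | hf a b => exact ⟨(a, b), rfl⟩
    have := Fintype.card_le_of_surjective _ h3
    rwa [Fintype.card_prod] at this
  have hcard : (((univ : Finset (V × V × Sym2 V)).filter (fun p =>
      ∃ x : ℝ, Rch (gr lab x) univ p.1 p.2.1 ∧ x + 6 * Real.log (Fintype.card V) / κ < lab p.2.2)).card : ℝ) ≤
      (Fintype.card V : ℝ) ^ 4 := by
    have h3 : ((univ : Finset (V × V × Sym2 V)).filter (fun p =>
      ∃ x : ℝ, Rch (gr lab x) univ p.1 p.2.1 ∧ x + 6 * Real.log (Fintype.card V) / κ < lab p.2.2)).card ≤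
        Fintype.card V ^ 4 := by
      refine (card_filter_le _ _).trans ?_
      rw [card_univ, Fintype.card_prod, Fintype.card_prod]
      calc Fintype.card V * (Fintype.card V * Fintype.card (Sym2 V)) ≤
          Fintype.card V * (Fintype.card V * (Fintype.card V * Fintype.card V)) :=
            Nat.mul_le_mul_left _ (Nat.mul_le_mul_left _ hsym)
        _ = Fintype.card V ^ 4 := by ring
    exact_mod_cast h3
  refine (mul_le_mul_of_nonneg_right hcard (by positivity)).trans (le_of_eq ?_)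
  field_simp

end RST.N
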