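import Pool.Agent.Lib.MP_7946c7_pr.N.Defs

/-!
# N/Pb. The transition matrix

PROOFS. `exists_netOK`: `Λ` a natural number at least `1`, `lam` and all `2 * cv c x / m x`.
`Pm_symm`: `m x * P x y = c s(x,y) / Λ` for `x ≠ y` (`Sym2.eq_swap`). `Pm_row`: `∑_{y ≠ x} c s(x,y) /
(Λ m x) = cv c x / (Λ m x)`. `Pm_stat`: `Pm_symm` and `Pm_row`. `Pm_diag`: `two_cv`.
`ip_Pm`: `ip f f - ip f (P f) = ∑_x m x f x (∑_{y ≠ x} P x y (f x - f y)) =
(1/Λ) ∑_{x ≠ y} c s(x,y) f x (f x - f y) = (1/(2Λ)) ∑_{(x, y), x ≠ y} c s(x,y) (f x - f y)^2 = Dir c f / Λ`;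
each non diagonal edge of `Sym2 V` comes from two ordered pairs, the diagonal ones have `sqd = 0`
(sum over `V × V` fibred over `Sym2 V`: `Finset.sum_fiberwise` or `Sym2` lemma `dir_sum` below, whose proof
is: the fibre of `e = s(x, y)`, `x ≠ y`, under `p ↦ s(p.1, p.2)` is `{(x, y), (y, x)}`).
`ip_Pm_nonneg`: `Dir c f ≤ 2 ∑ cv c x (f x)^2 ≤ Λ ∑ m x (f x)^2` by `(a - b)^2 ≤ 2 a^2 + 2 b^2`, `dir_sum`.
`ip_adj`: exchange the sums.
-/

open Finset
open scoped Classical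

namespace RST.N

variable {V : Type} [Fintype V]

theorem exists_netOK (c : Sym2 V → ℝ) (m : V → ℝ) (hc : ∀ e, 0 < c e) (hm : ∀ x, 0 < m x)
    (lam : ℝ) : ∃ Λ : ℕ, NetOK c m Λ ∧ lam ≤ Λ := by
  obtain ⟨Λ, hΛ⟩ := exists_nat_ge (1 + |lam| + ∑ x, |2 * cv c x / m x|)
  have h0 : 0 ≤ ∑ x, |2 * cv c x / m x| := Finset.sum_nonneg fun x _ => abs_nonneg _
  have h1 := abs_nonneg lam
  refine ⟨Λ, ⟨hc, hm, ?_, ?_⟩, ?_⟩
  · have h2 : (1 : ℝ) ≤ (Λ : ℝ) := by linarith
    exact_mod_cast h2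
  · intro x
    have h2 : |2 * cv c x / m x| ≤ ∑ x, |2 * cv c x / m x| :=
      Finset.single_le_sum (f := fun x => |2 * cv c x / m x|) (fun x _ => abs_nonneg _)
        (Finset.mem_univ x)
    have h3 : 2 * cv c x / m x ≤ (Λ : ℝ) := by
      have h4 := le_abs_self (2 * cv c x / m x)
      linarith
    exact (div_le_iff₀ (hm x)).1 h3
  · have h2 := le_abs_self lam
    linarith

/-- Sum over ordered pairs versus sum over edges. -/
theorem dir_sum (g : Sym2 V → ℝ) :
    ∑ x, ∑ y ∈ univ.erase x, g s(x, y) = 2 * ∑ e ∈ univ.filter (fun e : Sym2 V => ¬ e.IsDiag), g e := by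
  have h1 : ∑ x, ∑ y ∈ univ.erase x, g s(x, y) =
      ∑ p ∈ univ.filter (fun p : V × V => p.1 ≠ p.2), g s(p.1, p.2) := by
    rw [Finset.sum_filter, Fintype.sum_prod_type]
    apply Finset.sum_congr rfl
    intro x _
    rw [← Finset.sum_filter]
    apply Finset.sum_congr _ (fun _ _ => rfl)
    ext y
    simp only [Finset.mem_erase, Finset.mem_univ, and_true, Finset.mem_filter, true_and, ne_eq]
    exact not_congr eq_comm
  have hmaps : ∀ p ∈ univ.filter (fun p : V × V => p.1 ≠ p.2),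
      s(p.1, p.2) ∈ univ.filter (fun e : Sym2 V => ¬ e.IsDiag) := by
    intro p hp
    rw [Finset.mem_filter] at hp
    rw [Finset.mem_filter, Sym2.mk_isDiag_iff]
    exact ⟨Finset.mem_univ _, hp.2⟩
  rw [h1, ← Finset.sum_fiberwise_of_maps_to hmaps, Finset.mul_sum]
  apply Finset.sum_congr rfl
  intro e he
  induction e using Sym2.ind with
  | _ a b =>
    rw [Finset.mem_filter, Sym2.mk_isDiag_iff] at he
    have h2 : (univ.filter (fun p : V × V => p.1 ≠ p.2)).filter (fun p => s(p.1, p.2) = s(a, b)) =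
        {(a, b), (b, a)} := by
      ext ⟨x, y⟩
      simp only [Finset.mem_filter, Finset.mem_univ, true_and, Finset.mem_insert,
        Finset.mem_singleton, Prod.mk.injEq, Sym2.eq_iff]
      constructor
      · rintro ⟨_, h⟩
        exact h
      · rintro (⟨rfl, rfl⟩ | ⟨rfl, rfl⟩)
        · exact ⟨he.2, Or.inl ⟨rfl, rfl⟩⟩
        · exact ⟨fun h => he.2 h.symm, Or.inr ⟨rfl, rfl⟩⟩
    rw [h2, Finset.sum_pair (fun h => he.2 (Prod.mk.inj h).1)]
    show g s(a, b) + g s(b, a) = 2 * g s(a, b)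
    rw [Sym2.eq_swap (a := b) (b := a)]
    ring

theorem tm_pos [Nonempty V] (m : V → ℝ) (hm : ∀ x, 0 < m x) : 0 < tm m :=
  Finset.sum_pos (fun x _ => hm x) Finset.univ_nonempty

private theorem Pb_diag_eq (c : Sym2 V → ℝ) (m : V → ℝ) (Λ : ℕ) (x : V) :
    Pm c m Λ x x = 1 - cv c x / (Λ * m x) := by
  unfold Pm
  rw [Matrix.of_apply, if_pos rfl]

private theorem Pb_off_eq (c : Sym2 V → ℝ) (m : V → ℝ) (Λ : ℕ) (x y : V) (h : x ≠ y) :
    Pm c m Λ x y = c s(x, y) / (Λ * m x) := by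
  unfold Pm
  rw [Matrix.of_apply, if_neg h]

private theorem Pb_L (c : Sym2 V → ℝ) (m : V → ℝ) (Λ : ℕ) (hN : NetOK c m Λ) : (0 : ℝ) < Λ := by
  have h := hN.one_le
  exact_mod_cast (by omega : 0 < Λ)

theorem Pm_symm (c : Sym2 V → ℝ) (m : V → ℝ) (Λ : ℕ) (hN : NetOK c m Λ) (x y : V) :
    m x * Pm c m Λ x y = m y * Pm c m Λ y x := by
  by_cases h : x = y
  · rw [h]
  · have hL := Pb_L c m Λ hN
    have hx := hN.m_pos x
    have hy := hN.m_pos y
    rw [Pb_off_eq c m Λ x y h, Pb_off_eq c m Λ y x (Ne.symm h), Sym2.eq_swap (a := y) (b := x)]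
    field_simp

theorem Pm_diag (c : Sym2 V → ℝ) (m : V → ℝ) (Λ : ℕ) (hN : NetOK c m Λ) (x : V) :
    1 / 2 ≤ Pm c m Λ x x := by
  have hL := Pb_L c m Λ hN
  have hx := hN.m_pos x
  have h := hN.two_cv x
  rw [Pb_diag_eq]
  have h1 : cv c x / (Λ * m x) ≤ 1 / 2 := by
    rw [div_le_iff₀ (mul_pos hL hx)]
    linarith
  linarith

theorem Pm_nonneg (c : Sym2 V → ℝ) (m : V → ℝ) (Λ : ℕ) (hN : NetOK c m Λ) (x y : V) :
    0 ≤ Pm c m Λ x y := by
  by_cases h : x = y
  · rw [← h]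
    have h1 := Pm_diag c m Λ hN x
    linarith
  · rw [Pb_off_eq c m Λ x y h]
    exact div_nonneg (hN.c_pos _).le (mul_nonneg (Nat.cast_nonneg _) (hN.m_pos x).le)

theorem Pm_row (c : Sym2 V → ℝ) (m : V → ℝ) (Λ : ℕ) (hN : NetOK c m Λ) (x : V) :
    ∑ y, Pm c m Λ x y = 1 := by
  rw [← Finset.add_sum_erase univ _ (Finset.mem_univ x), Pb_diag_eq]
  have h : ∑ y ∈ univ.erase x, Pm c m Λ x y = cv c x / (Λ * m x) := by
    unfold cv
    rw [Finset.sum_div]
    apply Finset.sum_congr rfl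
    intro y hy
    rw [Finset.mem_erase] at hy
    exact Pb_off_eq c m Λ x y (Ne.symm hy.1)
  rw [h]
  ring

theorem Pm_stat (c : Sym2 V → ℝ) (m : V → ℝ) (Λ : ℕ) (hN : NetOK c m Λ) (y : V) :
    ∑ x, m x * Pm c m Λ x y = m y := by
  calc ∑ x, m x * Pm c m Λ x y = ∑ x, m y * Pm c m Λ y x :=
        Finset.sum_congr rfl fun x _ => Pm_symm c m Λ hN x y
    _ = m y := by rw [← Finset.mul_sum, Pm_row c m Λ hN, mul_one]

private theorem Pb_ip (m : V → ℝ) (A : Matrix V V ℝ) (f g : V → ℝ) :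
    ip m f (A.mulVec g) = ∑ x, ∑ y, m x * A x y * (f x * g y) := by
  unfold ip
  apply Finset.sum_congr rfl
  intro x _
  rw [Matrix.mulVec, dotProduct, Finset.mul_sum, Finset.mul_sum]
  apply Finset.sum_congr rfl
  intro y _
  ring

theorem ip_adj (m : V → ℝ) (A : Matrix V V ℝ) (hA : ∀ x y, m x * A x y = m y * A y x)
    (f g : V → ℝ) : ip m f (A.mulVec g) = ip m (A.mulVec f) g := by
  have h1 : ip m (A.mulVec f) g = ip m g (A.mulVec f) := by
    unfold ip
    apply Finset.sum_congr rfl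
    intro x _
    ring
  rw [h1, Pb_ip, Pb_ip, Finset.sum_comm]
  apply Finset.sum_congr rfl
  intro x _
  apply Finset.sum_congr rfl
  intro y _
  rw [hA y x]
  ring

private theorem Pb_self (c : Sym2 V → ℝ) (m : V → ℝ) (Λ : ℕ) (hN : NetOK c m Λ) (f : V → ℝ) :
    ip m f f = ∑ x, ∑ y, m x * Pm c m Λ x y * (f x * f x) := by
  unfold ip
  apply Finset.sum_congr rfl
  intro x _
  calc m x * (f x * f x) = m x * (f x * f x) * ∑ y, Pm c m Λ x y := by
        rw [Pm_row c m Λ hN, mul_one]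
    _ = ∑ y, m x * Pm c m Λ x y * (f x * f x) := by
        rw [Finset.mul_sum]
        apply Finset.sum_congr rfl
        intro y _
        ring

private theorem Pb_self' (c : Sym2 V → ℝ) (m : V → ℝ) (Λ : ℕ) (hN : NetOK c m Λ) (f : V → ℝ) :
    ip m f f = ∑ x, ∑ y, m x * Pm c m Λ x y * (f y * f y) := by
  rw [Pb_self c m Λ hN, Finset.sum_comm]
  apply Finset.sum_congr rfl
  intro x _
  apply Finset.sum_congr rfl
  intro y _
  rw [Pm_symm c m Λ hN y x]

private theorem Pb_sqd (f : V → ℝ) (x y : V) : sqd f s(x, y) = (f x - f y) ^ 2 := rfl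

theorem ip_Pm (c : Sym2 V → ℝ) (m : V → ℝ) (Λ : ℕ) (hN : NetOK c m Λ) (f : V → ℝ) :
    ip m f f - ip m f ((Pm c m Λ).mulVec f) = Dir c f / Λ := by
  have hL := Pb_L c m Λ hN
  have h1 : 2 * (ip m f f - ip m f ((Pm c m Λ).mulVec f)) =
      ∑ x, ∑ y, m x * Pm c m Λ x y * (f x - f y) ^ 2 := by
    have h2 : 2 * (ip m f f - ip m f ((Pm c m Λ).mulVec f)) =
        ip m f f + ip m f f - 2 * ip m f ((Pm c m Λ).mulVec f) := by ring
    rw [h2]
    conv_lhs =>
      rw [Pb_ip]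
      enter [1, 1]
      rw [Pb_self c m Λ hN]
    rw [Pb_self' c m Λ hN, Finset.mul_sum, ← Finset.sum_add_distrib, ← Finset.sum_sub_distrib]
    apply Finset.sum_congr rfl
    intro x _
    rw [Finset.mul_sum, ← Finset.sum_add_distrib, ← Finset.sum_sub_distrib]
    apply Finset.sum_congr rfl
    intro y _
    ring
  have h3 : ∑ x, ∑ y, m x * Pm c m Λ x y * (f x - f y) ^ 2 =
      ∑ x, ∑ y ∈ univ.erase x, (fun e => c e * sqd f e / Λ) s(x, y) := by
    apply Finset.sum_congr rfl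
    intro x _
    rw [← Finset.add_sum_erase univ _ (Finset.mem_univ x), sub_self, zero_pow two_ne_zero,
      mul_zero, zero_add]
    apply Finset.sum_congr rfl
    intro y hy
    rw [Finset.mem_erase] at hy
    have hx := hN.m_pos x
    rw [Pb_off_eq c m Λ x y (Ne.symm hy.1)]
    show m x * (c s(x, y) / (Λ * m x)) * (f x - f y) ^ 2 = c s(x, y) * sqd f s(x, y) / Λ
    rw [Pb_sqd]
    field_simp
  have h4 : Dir c f = ∑ e ∈ univ.filter (fun e : Sym2 V => ¬ e.IsDiag), c e * sqd f e := by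
    unfold Dir
    rw [Finset.sum_filter]
    apply Finset.sum_congr rfl
    intro e _
    by_cases he : e.IsDiag
    · rw [if_neg (not_not.2 he)]
      induction e using Sym2.ind with
      | _ a b =>
        rw [Sym2.mk_isDiag_iff] at he
        rw [Pb_sqd, he]
        ring
    · rw [if_pos he]
  rw [dir_sum (fun e => c e * sqd f e / Λ)] at h3
  have h5 : ∑ e ∈ univ.filter (fun e : Sym2 V => ¬ e.IsDiag), c e * sqd f e / Λ = Dir c f / Λ := by
    rw [h4, Finset.sum_div]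
  rw [h3] at h1
  have h6 : ∑ e ∈ univ.filter (fun e : Sym2 V => ¬ e.IsDiag), (fun e => c e * sqd f e / Λ) e =
      Dir c f / Λ := h5
  rw [h6] at h1
  linarith

theorem ip_Pm_nonneg (c : Sym2 V → ℝ) (m : V → ℝ) (Λ : ℕ) (hN : NetOK c m Λ) (f : V → ℝ) :
    0 ≤ ip m f ((Pm c m Λ).mulVec f) := by
  have h1 : 2 * ip m f f + 2 * ip m f ((Pm c m Λ).mulVec f) =
      ∑ x, ∑ y, m x * Pm c m Λ x y * (f x + f y) ^ 2 := by
    have h2 : 2 * ip m f f + 2 * ip m f ((Pm c m Λ).mulVec f) =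
        ip m f f + ip m f f + 2 * ip m f ((Pm c m Λ).mulVec f) := by ring
    rw [h2]
    conv_lhs =>
      rw [Pb_ip]
      enter [1, 1]
      rw [Pb_self c m Λ hN]
    rw [Pb_self' c m Λ hN, Finset.mul_sum, ← Finset.sum_add_distrib, ← Finset.sum_add_distrib]
    apply Finset.sum_congr rfl
    intro x _
    rw [Finset.mul_sum, ← Finset.sum_add_distrib, ← Finset.sum_add_distrib]
    apply Finset.sum_congr rfl
    intro y _
    ring
  have h3 : 2 * ip m f f ≤ ∑ x, ∑ y, m x * Pm c m Λ x y * (f x + f y) ^ 2 := by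
    unfold ip
    rw [Finset.mul_sum]
    apply Finset.sum_le_sum
    intro x _
    have h4 : m x * Pm c m Λ x x * (f x + f x) ^ 2 ≤
        ∑ y, m x * Pm c m Λ x y * (f x + f y) ^ 2 :=
      Finset.single_le_sum (f := fun y => m x * Pm c m Λ x y * (f x + f y) ^ 2)
        (fun y _ => mul_nonneg (mul_nonneg (hN.m_pos x).le (Pm_nonneg c m Λ hN x y))
          (sq_nonneg _)) (Finset.mem_univ x)
    have h5 := Pm_diag c m Λ hN x
    have h6 : 0 ≤ m x * (f x * f x) := mul_nonneg (hN.m_pos x).le (mul_self_nonneg _)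
    have h7 : 1 / 2 * (m x * (f x * f x)) ≤ Pm c m Λ x x * (m x * (f x * f x)) :=
      mul_le_mul_of_nonneg_right h5 h6
    calc 2 * (m x * (f x * f x)) ≤ 4 * (Pm c m Λ x x * (m x * (f x * f x))) := by linarith
      _ = m x * Pm c m Λ x x * (f x + f x) ^ 2 := by ring
      _ ≤ _ := h4
  linarith

/-- A power of an `m`-symmetric matrix is `m`-symmetric. -/
theorem pow_symm (m : V → ℝ) (A : Matrix V V ℝ) (hA : ∀ x y, m x * A x y = m y * A y x) (k : ℕ)
    (x y : V) : m x * (A ^ k) x y = m y * (A ^ k) y x := by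
  induction k generalizing x y with
  | zero =>
    rw [pow_zero, Matrix.one_apply, Matrix.one_apply]
    by_cases h : x = y
    · rw [h]
    · rw [if_neg h, if_neg (Ne.symm h), mul_zero, mul_zero]
  | succ k ih =>
    have h1 : (A ^ (k + 1)) x y = ∑ z, (A ^ k) x z * A z y := by
      rw [pow_succ, Matrix.mul_apply]
    have h2 : (A ^ (k + 1)) y x = ∑ z, A y z * (A ^ k) z x := by
      rw [pow_succ', Matrix.mul_apply]
    rw [h1, h2, Finset.mul_sum, Finset.mul_sum]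
    apply Finset.sum_congr rfl
    intro z _
    calc m x * ((A ^ k) x z * A z y) = (m x * (A ^ k) x z) * A z y := by ring
      _ = (m z * (A ^ k) z x) * A z y := by rw [ih x z]
      _ = (m z * A z y) * (A ^ k) z x := by ring
      _ = (m y * A y z) * (A ^ k) z x := by rw [hA z y]
      _ = m y * (A y z * (A ^ k) z x) := by ring

/-- A power of a matrix with rows of sum 1. -/
theorem pow_one_vec (A : Matrix V V ℝ) (hA : ∀ x, ∑ y, A x y = 1) (k : ℕ) :
    (A ^ k).mulVec (fun _ => 1) = fun _ => 1 := by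
  have h1 : A.mulVec (fun _ => 1) = fun _ => 1 := by
    funext x
    rw [Matrix.mulVec, dotProduct]
    simp only [mul_one]
    exact hA x
  induction k with
  | zero => rw [pow_zero, Matrix.one_mulVec]
  | succ k ih => rw [pow_succ, ← Matrix.mulVec_mulVec, h1, ih]

end RST.N
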