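import Pool.Agent.Lib.MP_7946c7_pr.N.Defs

/-!
# N/RTa. Rooted trees as maps: from maps to trees

PROOFS. `orbit_saw`: let `ℓ` be minimal with `π^[ℓ] x = r` (`Nat.find`). For `i < ℓ`,
`π^[i] x ≠ π^[i+1] x`, and more generally the `π^[i] x`, `i ≤ ℓ`, are distinct: if
`π^[i] x = π^[j] x`, `i < j ≤ ℓ`, then `r = π^[ℓ] x = π^[ℓ - j] (π^[j] x) = π^[ℓ - j + i] x` with
`ℓ - j + i < ℓ`, contradiction to minimality. `gof` adjacency: `SimpleGraph.fromRel_adj`.
`IsRT.ne`: if `π x = x` the orbit is constant. 
`gof_isTree`: connected because every vertex is joined to `r` by its orbit. The map `x ↦ s(x, π x)` from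
`univ.erase r` is onto the edge set (an edge is `s(x, y)`, `x ≠ y`, `π x = y` or `π y = x`, and `r` is
fixed), so the edge set has at most `n - 1` elements; a connected graph has at least `n - 1`
(`SimpleGraph.Connected.card_vert_le_card_edgeSet_add_one`), so it has exactly `n - 1`:
`SimpleGraph.isTree_iff_connected_and_card`; and the map is injective on `univ.erase r` (equal cardinals).
`gof_wt`: by this bijection, `wtT c (gof π) = ∏ over the edge set = wR c r π`.
-/

open Finset
open scoped Classical

namespace RST.N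

variable {V : Type} [Fintype V]

set_option linter.unusedSectionVars false

private lemma rta_adj {π : V → V} {a b : V} :
    (gof π).Adj a b ↔ a ≠ b ∧ (π a = b ∨ π b = a) := by
  unfold gof
  rw [SimpleGraph.fromRel_adj]

private lemma rta_fix {r : V} {π : V → V} (h : π r = r) (j : ℕ) : π^[j] r = r :=
  Function.iterate_fixed h j

private lemma rta_stay {r : V} {π : V → V} (h : π r = r) {x : V} {k : ℕ} (hk : π^[k] x = r)
    {i : ℕ} (hi : k ≤ i) : π^[i] x = r := by
  obtain ⟨d, rfl⟩ := Nat.exists_eq_add_of_le' hi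
  rw [Function.iterate_add_apply, hk, rta_fix h]

private lemma rta_inj {r : V} {π : V → V} {x : V} {ℓ : ℕ} (hℓ : π^[ℓ] x = r)
    (hmin : ∀ i < ℓ, π^[i] x ≠ r) {i j : ℕ} (hij : i < j) (hj : j ≤ ℓ) :
    π^[i] x ≠ π^[j] x := by
  intro he
  apply hmin (ℓ - j + i) (by omega)
  rw [Function.iterate_add_apply, he, ← Function.iterate_add_apply]
  have : ℓ - j + j = ℓ := by omega
  rw [this, hℓ]

theorem IsRT.orbit_saw {r : V} {π : V → V} (h : IsRT r π) (x : V) :
    ∃ ℓ, IsSAW (gof π).Adj (fun i => π^[i] x) ℓ ∧ π^[ℓ] x = r := by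
  have hf := Nat.find_spec (h.2 x)
  have hmin : ∀ i < Nat.find (h.2 x), π^[i] x ≠ r := fun i hi => Nat.find_min (h.2 x) hi
  refine ⟨Nat.find (h.2 x), ⟨?_, ?_⟩, hf⟩
  · intro i hi
    rw [rta_adj]
    refine ⟨rta_inj hf hmin (Nat.lt_succ_self i) (by omega), Or.inl ?_⟩
    show π (π^[i] x) = π^[i + 1] x
    rw [Function.iterate_succ_apply']
  · intro i hi j hj he
    rcases lt_trichotomy i j with hlt | heq | hgt
    · exact absurd he (rta_inj hf hmin hlt hj)
    · exact heq
    · exact absurd he.symm (rta_inj hf hmin hgt hi)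

/-- The orbit of `x ≠ r` does not come back to `x`. -/
theorem IsRT.no_return {r : V} {π : V → V} (h : IsRT r π) (x : V) (hx : x ≠ r) (j : ℕ) :
    π^[j + 1] x ≠ x := by
  intro he
  obtain ⟨k, hk⟩ := h.2 x
  have hper : π^[(j + 1) * k] x = x := by
    rw [Function.iterate_mul]
    exact Function.iterate_fixed he k
  have hr : π^[(j + 1) * k] x = r := rta_stay h.1 hk (Nat.le_mul_of_pos_left k (by omega))
  exact hx (hper.symm.trans hr)

theorem IsRT.ne {r : V} {π : V → V} (h : IsRT r π) (x : V) (hx : x ≠ r) : π x ≠ x :=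
  h.no_return x hx 0

private lemma rta_reach {π : V → V} (x : V) (k : ℕ) : (gof π).Reachable x (π^[k] x) := by
  induction k with
  | zero => exact SimpleGraph.Reachable.refl x
  | succ k ih =>
      refine ih.trans ?_
      rw [Function.iterate_succ_apply']
      by_cases hh : π (π^[k] x) = π^[k] x
      · rw [hh]
      · apply SimpleGraph.Adj.reachable
        rw [rta_adj]
        exact ⟨fun e => hh e.symm, Or.inl rfl⟩

private lemma rta_conn {r : V} {π : V → V} (h : IsRT r π) : (gof π).Connected := by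
  have hr : ∀ x, (gof π).Reachable x r := by
    intro x
    obtain ⟨k, hk⟩ := h.2 x
    rw [← hk]
    exact rta_reach x k
  rw [SimpleGraph.connected_iff]
  exact ⟨fun x y => (hr x).trans (hr y).symm, ⟨r⟩⟩

theorem gof_inj {r : V} {π : V → V} (h : IsRT r π) :
    Set.InjOn (fun x => s(x, π x)) {x | x ≠ r} := by
  intro x hx y hy he
  have he' : s(x, π x) = s(y, π y) := he
  rw [Sym2.eq_iff] at he'
  rcases he' with ⟨h1, _⟩ | ⟨h1, h2⟩
  · exact h1
  · exfalso
    apply h.no_return x hx 1
    show π (π x) = x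
    rw [h2, ← h1]

private lemma rta_edge {r : V} {π : V → V} (h : IsRT r π) (e : Sym2 V) :
    e ∈ (gof π).edgeSet ↔ e ∈ (univ.erase r).image (fun x => s(x, π x)) := by
  induction e using Sym2.ind with
  | _ a b =>
    rw [SimpleGraph.mem_edgeSet, rta_adj, mem_image]
    constructor
    · rintro ⟨hab, h1 | h1⟩
      · refine ⟨a, ?_, by rw [h1]⟩
        rw [mem_erase]
        refine ⟨?_, mem_univ _⟩
        rintro rfl
        exact hab (h.1.symm.trans h1)
      · refine ⟨b, ?_, by rw [h1, Sym2.eq_swap]⟩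
        rw [mem_erase]
        refine ⟨?_, mem_univ _⟩
        rintro rfl
        exact hab (h1.symm.trans h.1)
    · rintro ⟨x, hx, he⟩
      rw [mem_erase] at hx
      rw [Sym2.eq_iff] at he
      have hne := h.ne x hx.1
      rcases he with ⟨h1, h2⟩ | ⟨h1, h2⟩
      · subst h1
        refine ⟨?_, Or.inl h2⟩
        intro hh
        exact hne (h2.trans hh.symm)
      · subst h1
        refine ⟨?_, Or.inr h2⟩
        intro hh
        exact hne (h2.trans hh)

theorem gof_isTree {r : V} {π : V → V} (h : IsRT r π) : (gof π).IsTree := by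
  rw [SimpleGraph.isTree_iff_connected_and_card]
  refine ⟨rta_conn h, ?_⟩
  have h1 : (gof π).edgeSet = ((univ.erase r).image (fun x => s(x, π x)) : Finset (Sym2 V)) := by
    ext e
    rw [rta_edge h e]
    simp
  rw [h1, Nat.card_coe_set_eq, Set.ncard_coe_finset, Nat.card_eq_fintype_card,
    Finset.card_image_of_injOn, Finset.card_erase_of_mem (mem_univ r), Finset.card_univ]
  · have : 0 < Fintype.card V := Fintype.card_pos_iff.mpr ⟨r⟩
    omega
  · intro x hx y hy he
    apply gof_inj h _ _ he
    · simpa using hx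
    · simpa using hy

theorem gof_wt (c : Sym2 V → ℝ) {r : V} {π : V → V} (h : IsRT r π) :
    wtT c (gof π) = wR c r π := by
  unfold wtT wR
  rw [← Finset.prod_filter]
  have h1 : (univ.filter fun e => e ∈ (gof π).edgeSet) =
      (univ.erase r).image (fun x => s(x, π x)) := by
    ext e
    rw [mem_filter, rta_edge h e]
    simp
  rw [h1, Finset.prod_image]
  intro x hx y hy he
  apply gof_inj h _ _ he
  · simpa using hx
  · simpa using hy

end RST.N
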