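import Pool.Agent.Lib.MP_7946c7_pr.IfT
import Pool.Agent.Lib.MP_7946c7_pr.N.RTa

/-!
# N/RTb. Rooted trees as maps: from trees to maps; sums

PROOFS. `exists_rt`: by `RST.saw_exists` (IfT) choose for every `x` a path `γ x` of length `ℓ x` from
`x` to `r`; `π x := if x = r then r else γ x 1` (`ℓ x ≥ 1` if `x ≠ r`). The path shifted by one is a path
from `π x` to `r` of length `ℓ x - 1`, so `ℓ (π x) = ℓ x - 1` by `RST.saw_unique`; `ℓ r = 0`. So the
orbit of `x` reaches `r` in `ℓ x` steps (induction on `ℓ x`). `gof π ≤ T`, both are trees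
(`gof_isTree`), so they have the same number of edges (`SimpleGraph.IsTree.card_edgeFinset`), hence equal
(or: an acyclic graph has no proper connected spanning subgraph).
`rt_unique`: for `x ≠ r` the orbits of `x` under `π` and `π'` are both paths of `T = gof π = gof π'` from
`x` to `r` (`orbit_saw`), of length `≥ 1`, hence equal (`RST.saw_unique`), so `π x = π' x`. `π r = r = π' r`.
`sum_rt`: `Finset.sum_filter` and the bijection `π ↦ gof π` from the `π` with `IsRT r π` onto the trees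
(`Finset.sum_bij`, `gof_isTree`, `exists_rt`, `rt_unique`, `gof_wt`).
-/

open Finset
open scoped Classical

namespace RST.N

variable {V : Type} [Fintype V]

theorem exists_rt (T : SimpleGraph V) (hT : T.IsTree) (r : V) : ∃ π, IsRT r π ∧ gof π = T := by
  choose γ ℓ hγ hγ0 hγ1 using fun x : V => RST.saw_exists T hT x r
  obtain ⟨π, hπ⟩ : ∃ π : V → V, π = fun x => if x = r then r else γ x 1 := ⟨_, rfl⟩
  have hπr : π r = r := by
    rw [hπ]
    simp
  have hπx : ∀ x, x ≠ r → π x = γ x 1 := by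
    intro x hx
    rw [hπ]
    simp [hx]
  have hℓr : ℓ r = 0 := by
    have h0 : IsSAW T.Adj (fun _ : ℕ => r) 0 :=
      ⟨fun i hi => absurd hi (Nat.not_lt_zero i), fun i hi j hj _ => by omega⟩
    exact (RST.saw_unique T hT (γ r) (fun _ => r) (ℓ r) 0 (hγ r) h0 (hγ0 r) (hγ1 r)).1
  have hℓ0 : ∀ x, ℓ x = 0 → x = r := by
    intro x hx
    have h := hγ1 x
    rw [hx, hγ0] at h
    exact h
  have hstep : ∀ x, x ≠ r → ℓ (π x) = ℓ x - 1 := by
    intro x hx
    have hpos : 1 ≤ ℓ x := Nat.one_le_iff_ne_zero.2 fun h => hx (hℓ0 x h)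
    have hsh : IsSAW T.Adj (fun i => γ x (i + 1)) (ℓ x - 1) := by
      refine ⟨fun i hi => (hγ x).1 (i + 1) (by omega), fun i hi j hj hij => ?_⟩
      have := (hγ x).2 (i + 1) (by omega) (j + 1) (by omega) hij
      omega
    refine (RST.saw_unique T hT (γ (π x)) (fun i => γ x (i + 1)) (ℓ (π x)) (ℓ x - 1) (hγ (π x)) hsh ?_ ?_).1
    · rw [hγ0, hπx x hx]
    · show γ (π x) (ℓ (π x)) = γ x (ℓ x - 1 + 1)
      rw [hγ1, Nat.sub_add_cancel hpos, hγ1]
  have horb : ∀ n x, ℓ x = n → π^[n] x = r := by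
    intro n
    induction n with
    | zero => intro x hx; exact hℓ0 x hx
    | succ n ih =>
      intro x hx
      have hxr : x ≠ r := by
        rintro rfl
        omega
      rw [Function.iterate_succ_apply]
      refine ih _ ?_
      rw [hstep x hxr, hx]
      rfl
  have hRT : IsRT r π := ⟨hπr, fun x => ⟨ℓ x, horb _ x rfl⟩⟩
  have hadj : ∀ x, x ≠ r → T.Adj x (π x) := by
    intro x hx
    have hpos : 1 ≤ ℓ x := Nat.one_le_iff_ne_zero.2 fun h => hx (hℓ0 x h)
    have h := (hγ x).1 0 (by omega)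
    rw [hγ0] at h
    rw [hπx x hx]
    exact h
  have hle : gof π ≤ T := by
    intro x y hxy
    rw [gof, SimpleGraph.fromRel_adj] at hxy
    obtain ⟨hne, h | h⟩ := hxy
    · have hxr : x ≠ r := by
        intro hx
        rw [hx, hπr] at h
        exact hne (hx.trans h)
      rw [← h]
      exact hadj x hxr
    · have hyr : y ≠ r := by
        intro hy
        rw [hy, hπr] at h
        exact hne (h.symm.trans hy.symm)
      rw [← h]
      exact (hadj y hyr).symm
  refine ⟨π, hRT, le_antisymm hle ?_⟩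
  exact (SimpleGraph.isTree_iff_minimal_connected.1 hT).2 (gof_isTree hRT).connected hle

theorem rt_unique (r : V) (π π' : V → V) (h : IsRT r π) (h' : IsRT r π') (hg : gof π = gof π') :
    π = π' := by
  funext x
  by_cases hx : x = r
  · rw [hx, h.1, h'.1]
  · obtain ⟨ℓ, h1, h2⟩ := h.orbit_saw x
    obtain ⟨ℓ', h1', h2'⟩ := h'.orbit_saw x
    rw [← hg] at h1'
    obtain ⟨-, h3⟩ := RST.saw_unique (gof π) (gof_isTree h) (fun i => π^[i] x) (fun i => π'^[i] x) ℓ ℓ'
      h1 h1' rfl (h2.trans h2'.symm)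
    have hpos : 1 ≤ ℓ := by
      rw [Nat.one_le_iff_ne_zero]
      rintro rfl
      exact hx h2
    exact h3 1 hpos

theorem sum_rt (c : Sym2 V → ℝ) (r : V) (F : SimpleGraph V → ℝ) :
    ∑ π : V → V, (if IsRT r π then wR c r π * F (gof π) else 0) = ET c F := by
  unfold ET
  rw [← Finset.sum_filter, ← Finset.sum_filter]
  refine Finset.sum_bij (fun π _ => gof π) ?_ ?_ ?_ ?_
  · intro π hπ
    rw [Finset.mem_filter] at hπ ⊢
    exact ⟨Finset.mem_univ _, gof_isTree hπ.2⟩
  · intro π hπ π' hπ' hg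
    exact rt_unique r π π' (Finset.mem_filter.1 hπ).2 (Finset.mem_filter.1 hπ').2 hg
  · intro T hT
    obtain ⟨π, h1, h2⟩ := exists_rt T (Finset.mem_filter.1 hT).2 r
    exact ⟨π, Finset.mem_filter.2 ⟨Finset.mem_univ _, h1⟩, h2⟩
  · intro π hπ
    show wR c r π * F (gof π) = wtT c (gof π) * F (gof π)
    rw [gof_wt c (Finset.mem_filter.1 hπ).2]

end RST.N
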