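import Pool.Agent.Lib.MP_7946c7_pr.N.StatA

/-!
# N/StatB. Stationarity of the chain on rooted trees

PROOFS. `stat_pred`: `m r * wR c r π * Pm r y = wR c r π * c s(r, y) / Λ` for `r ≠ y` (`m r > 0`). By
StatA the pairs `(r, π)`, `r ≠ y`, `IsRT r π`, `mv r π y = π'` are in bijection with the `z ≠ y` through
`z = π y` (inverse: `r` from `pred_exists`, `π = update (update π' y z) r r`; at `y` the value is `z` as
`r ≠ y`), and the summand is `wR c y π' * c s(y, z) / Λ` (`pred_wt`). Sum over `z`: `wR c y π' * cv c y / Λ`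
(`Finset.sum_bij'` or `sum_nbij` on the filtered finset of pairs). If `π'` is not a rooted tree at `y`
there are no such pairs by `mv_isRT` (not needed in `stat_pred`, used in `stationary`).
`stationary`: write the left side as `∑ y, ∑ π', F y π' * (∑ r, ∑ π, if IsRT r π ∧ mv r π y = π' then
m r * wR c r π * Pm r y else 0)`. The inner sum is `0` unless `IsRT y π'`. Split `r = y` (then
`mv y π y = π`, contribution `m y * wR c y π' * Pm y y = m y * wR c y π' - wR c y π' * cv c y / Λ`) and
`r ≠ y` (`stat_pred`): total `m y * wR c y π'`.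
-/

open Finset
open scoped Classical

namespace RST.N

variable {V : Type} [Fintype V]

private lemma sb_upd {y r : V} (hr : r ≠ y) (π' : V → V) (z : V) :
    Function.update (Function.update π' y z) r r y = z := by
  rw [Function.update_of_ne (fun e => hr e.symm), Function.update_self]

theorem stat_pred (c : Sym2 V → ℝ) (m : V → ℝ) (Λ : ℕ) (hN : NetOK c m Λ) (y : V) (π' : V → V)
    (h : IsRT y π') :
    ∑ r ∈ univ.erase y, ∑ π : V → V,
      (if IsRT r π ∧ mv r π y = π' then m r * wR c r π * Pm c m Λ r y else 0) =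
      wR c y π' * cv c y / Λ := by
  have hΛ : (Λ : ℝ) ≠ 0 := by
    have := hN.one_le
    positivity
  rw [← Finset.sum_product', ← Finset.sum_filter]
  unfold cv
  rw [Finset.mul_sum, Finset.sum_div]
  apply Finset.sum_bij (fun (p : V × (V → V)) _ => p.2 y)
  · rintro ⟨r, π⟩ hp
    simp only [mem_filter, mem_product, mem_erase, mem_univ, and_true] at hp
    simp only [mem_erase, mem_univ, and_true]
    exact (pred_of hp.2.1 hp.1 hp.2.2).1
  · rintro ⟨r, π⟩ hp ⟨r', π₂⟩ hp' he
    simp only [mem_filter, mem_product, mem_erase, mem_univ, and_true] at hp hp'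
    simp only at he
    obtain ⟨_, a2, a3, a4⟩ := pred_of hp.2.1 hp.1 hp.2.2
    obtain ⟨_, b2, b3, b4⟩ := pred_of hp'.2.1 hp'.1 hp'.2.2
    have hrr : r = r' := by
      apply pred_unique_root h (π y) r r' hp.1 a2 a3 hp'.1 b2
      rw [he]
      exact b3
    rw [Prod.mk.injEq]
    refine ⟨hrr, ?_⟩
    rw [a4, b4, he, hrr]
  · intro z hz
    simp only [mem_erase, mem_univ, and_true] at hz
    obtain ⟨r, hr, h1, h2⟩ := pred_exists h z hz
    obtain ⟨h3, h4⟩ := pred_isRT h z r hz hr h1 h2
    refine ⟨(r, Function.update (Function.update π' y z) r r), ?_, ?_⟩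
    · simp only [mem_filter, mem_product, mem_erase, mem_univ, and_true]
      exact ⟨hr, h3, h4⟩
    · exact sb_upd hr π' z
  · rintro ⟨r, π⟩ hp
    simp only [mem_filter, mem_product, mem_erase, mem_univ, and_true] at hp
    obtain ⟨_, a2, _, a4⟩ := pred_of hp.2.1 hp.1 hp.2.2
    have hw := pred_wt c (π y) r hp.1 a2
    rw [← a4] at hw
    have hPm : Pm c m Λ r y = c s(r, y) / (Λ * m r) := by
      unfold Pm
      rw [Matrix.of_apply, if_neg hp.1]
    have hm : m r ≠ 0 := (hN.m_pos r).ne'
    simp only
    rw [hPm, ← hw]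
    field_simp

private lemma sb_inner (c : Sym2 V → ℝ) (m : V → ℝ) (Λ : ℕ) (hN : NetOK c m Λ) (y : V)
    (π' : V → V) :
    ∑ r, ∑ π : V → V,
      (if IsRT r π ∧ mv r π y = π' then m r * wR c r π * Pm c m Λ r y else 0) =
      if IsRT y π' then m y * wR c y π' else 0 := by
  split_ifs with h
  · rw [← Finset.add_sum_erase univ _ (mem_univ y), stat_pred c m Λ hN y π' h]
    have hmv : ∀ π : V → V, mv y π y = π := fun π => by
      unfold mv
      rw [if_pos rfl]
    have h1 : ∑ π : V → V,
        (if IsRT y π ∧ mv y π y = π' then m y * wR c y π * Pm c m Λ y y else 0) =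
        m y * wR c y π' * Pm c m Λ y y := by
      rw [Finset.sum_eq_single π']
      · rw [if_pos ⟨h, hmv π'⟩]
      · intro π _ hne
        rw [if_neg]
        rintro ⟨_, h2⟩
        rw [hmv] at h2
        exact hne h2
      · intro hn
        exact absurd (mem_univ _) hn
    have hPm : Pm c m Λ y y = 1 - cv c y / (Λ * m y) := by
      unfold Pm
      rw [Matrix.of_apply, if_pos rfl]
    have hm : m y ≠ 0 := (hN.m_pos y).ne'
    have hΛ : (Λ : ℝ) ≠ 0 := by
      have := hN.one_le
      positivity
    rw [h1, hPm]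
    field_simp
    ring
  · apply Finset.sum_eq_zero
    intro r _
    apply Finset.sum_eq_zero
    intro π _
    rw [if_neg]
    rintro ⟨h1, h2⟩
    apply h
    rw [← h2]
    exact mv_isRT h1 y

theorem stationary (c : Sym2 V → ℝ) (m : V → ℝ) (Λ : ℕ) (hN : NetOK c m Λ)
    (F : V → (V → V) → ℝ) :
    ∑ r, ∑ π : V → V, (if IsRT r π then
      m r * wR c r π * ∑ y, Pm c m Λ r y * F y (mv r π y) else 0) =
      ∑ r, ∑ π : V → V, (if IsRT r π then m r * wR c r π * F r π else 0) := by
  have h1 : ∀ (r : V) (π : V → V), (if IsRT r π then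
      m r * wR c r π * ∑ y, Pm c m Λ r y * F y (mv r π y) else 0) =
      ∑ q : V × (V → V), F q.1 q.2 *
        (if IsRT r π ∧ mv r π q.1 = q.2 then m r * wR c r π * Pm c m Λ r q.1 else 0) := by
    intro r π
    rw [Fintype.sum_prod_type]
    split_ifs with h
    · rw [Finset.mul_sum]
      apply Finset.sum_congr rfl
      intro y _
      simp only [h, true_and]
      rw [Finset.sum_eq_single (mv r π y)]
      · rw [if_pos rfl]
        ring
      · intro π' _ hne
        rw [if_neg (fun e => hne e.symm), mul_zero]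
      · intro hn
        exact absurd (mem_univ _) hn
    · simp [h]
  simp_rw [h1]
  rw [← Fintype.sum_prod_type' (f := fun (r : V) (π : V → V) => ∑ q : V × (V → V), F q.1 q.2 *
        (if IsRT r π ∧ mv r π q.1 = q.2 then m r * wR c r π * Pm c m Λ r q.1 else 0)),
    Finset.sum_comm, Fintype.sum_prod_type]
  apply Finset.sum_congr rfl
  intro y _
  apply Finset.sum_congr rfl
  intro π' _
  simp only
  rw [← Finset.mul_sum, Fintype.sum_prod_type, sb_inner c m Λ hN y π']
  split_ifs with h
  · ring
  · rw [mul_zero]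

end RST.N
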