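import Pool.Agent.Lib.MP_7946c7_pr.N.RTa

/-!
# N/StatA. The move of the root and its predecessors (deterministic)

PROOFS. `mv_isRT`: trivial if `y = r`. Otherwise `π' = update (update π r y) y y`. `π' y = y`. For any
`x` let `j` be minimal with `π^[j] x ∈ {r, y}`; `π'` and `π` agree on the earlier points of the orbit, so
`π'^[j] x = π^[j] x`, which is `y`, or it is `r` and `π' r = y`.
`pred_exists`: for `z ≠ y` let `j` be minimal with `π'^[j] z = y`; `j ≥ 1`, `r := π'^[j-1] z`.
`pred_unique_root`: if `π'^[j] z = r ≠ y` and `π' r = y` then `π'^[j+1] z = y`, all later points are `y`,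
and all earlier ones are `≠ y`, so `j + 1` is the minimal index.
`pred_isRT`: `π = update (update π' y z) r r`. `π r = r`. Any `x`: if its `π'`-orbit hits `r`, `π` and `π'`
agree before the first hit unless it passes through `y`, which is fixed by `π'` (so it never hits
`r` afterwards): thus the `π`-orbit hits `r`. Otherwise its `π'`-orbit hits `y` first, so does the
`π`-orbit, then `π y = z` and the `π'`-orbit of `z` hits `r` before `y`, so the `π`-orbit too.
`mv r π y = π'`: function extensionality (`π' r = y`, `π' y = y`).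
`pred_of`: if `IsRT r π`, `r ≠ y`, `mv r π y = π'`, `z := π y`: `z ≠ y` (`IsRT.ne`, `y ≠ r`); the
`π`-orbit of `y` never comes back to `y` before `r` (`IsRT.no_return`), so the `π`-orbit of `z` reaches
`r` without `y`, and `π'` agrees with `π` on it before `r`; `π' r = y`; `π = update (update π' y z) r r`
by function extensionality.
`pred_wt`: both products contain the factors at `x ∉ {r, y}`, where the maps agree; the extra factor is
`c s(y, z)` (at `y`, for `wR c r π`) and `c s(r, y)` (at `r`, for `wR c y π'`).
-/

open Finset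
open scoped Classical

namespace RST.N

variable {V : Type} [Fintype V]

set_option linter.unusedSectionVars false

private lemma sa_agree {f g : V → V} {x : V} {j : ℕ}
    (h : ∀ i < j, f (g^[i] x) = g (g^[i] x)) : ∀ i ≤ j, f^[i] x = g^[i] x := by
  intro i
  induction i with
  | zero => intro _; rfl
  | succ i ih =>
      intro hi
      rw [Function.iterate_succ_apply', ih (by omega), h i (by omega),
        ← Function.iterate_succ_apply' g]

private lemma sa_stay {r : V} {π : V → V} (h : π r = r) {x : V} {k : ℕ} (hk : π^[k] x = r)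
    {i : ℕ} (hi : k ≤ i) : π^[i] x = r := by
  obtain ⟨d, rfl⟩ := Nat.exists_eq_add_of_le' hi
  rw [Function.iterate_add_apply, hk]
  exact Function.iterate_fixed h d

theorem mv_isRT {r : V} {π : V → V} (h : IsRT r π) (y : V) : IsRT y (mv r π y) := by
  unfold mv
  split_ifs with hy
  · rw [hy]; exact h
  · have hπy : Function.update (Function.update π r y) y y y = y := by simp
    have hπr : Function.update (Function.update π r y) y y r = y := by
      rw [Function.update_of_ne (fun e => hy e.symm), Function.update_self]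
    have hπ : ∀ x, x ≠ r → x ≠ y → Function.update (Function.update π r y) y y x = π x := by
      intro x h1 h2
      rw [Function.update_of_ne h2, Function.update_of_ne h1]
    refine ⟨hπy, fun x => ?_⟩
    have hex : ∃ k, π^[k] x = r ∨ π^[k] x = y := by
      obtain ⟨k, hk⟩ := h.2 x
      exact ⟨k, Or.inl hk⟩
    have hmin : ∀ i < Nat.find hex, ¬ (π^[i] x = r ∨ π^[i] x = y) :=
      fun i hi => Nat.find_min hex hi
    have hag := sa_agree (f := Function.update (Function.update π r y) y y) (g := π) (x := x)
      (j := Nat.find hex) (fun i hi => hπ _ (fun e => hmin i hi (Or.inl e))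
        (fun e => hmin i hi (Or.inr e))) (Nat.find hex) le_rfl
    rcases Nat.find_spec hex with h1 | h1
    · refine ⟨Nat.find hex + 1, ?_⟩
      rw [Function.iterate_succ_apply', hag, h1, hπr]
    · exact ⟨Nat.find hex, hag.trans h1⟩

theorem pred_exists {y : V} {π' : V → V} (h : IsRT y π') (z : V) (hz : z ≠ y) :
    ∃ r, r ≠ y ∧ π' r = y ∧ ∃ j, π'^[j] z = r := by
  have hspec := Nat.find_spec (h.2 z)
  have hmin : ∀ i < Nat.find (h.2 z), π'^[i] z ≠ y := fun i hi => Nat.find_min (h.2 z) hi
  obtain ⟨k, hk⟩ : ∃ k, Nat.find (h.2 z) = k + 1 := by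
    apply Nat.exists_eq_succ_of_ne_zero
    intro h0
    rw [h0] at hspec
    exact hz hspec
  refine ⟨π'^[k] z, hmin k (by omega), ?_, k, rfl⟩
  rw [hk, Function.iterate_succ_apply'] at hspec
  exact hspec

private lemma sa_uniq {y : V} {π' : V → V} (h : IsRT y π') (z r r' : V)
    (h1 : π' r = y) {j j' : ℕ} (h2 : π'^[j] z = r) (hr' : r' ≠ y)
    (h2' : π'^[j'] z = r') (hjj : j ≤ j') : r = r' := by
  rcases hjj.lt_or_eq with hlt | heq
  · exfalso
    apply hr'
    rw [← h2']
    apply sa_stay h.1 (k := j + 1) _ hlt
    rw [Function.iterate_succ_apply', h2, h1]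
  · rw [← h2, ← h2', heq]

theorem pred_unique_root {y : V} {π' : V → V} (h : IsRT y π') (z r r' : V) (hr : r ≠ y)
    (h1 : π' r = y) (h2 : ∃ j, π'^[j] z = r) (hr' : r' ≠ y) (h1' : π' r' = y)
    (h2' : ∃ j, π'^[j] z = r') : r = r' := by
  obtain ⟨j, hj⟩ := h2
  obtain ⟨j', hj'⟩ := h2'
  rcases le_total j j' with hle | hle
  · exact sa_uniq h z r r' h1 hj hr' hj' hle
  · exact (sa_uniq h z r' r h1' hj' hr hj hle).symm

private lemma sa_upd {y r : V} (hr : r ≠ y) (π' : V → V) (z : V) :
    Function.update (Function.update π' y z) r r r = r ∧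
      Function.update (Function.update π' y z) r r y = z ∧
      ∀ x, x ≠ r → x ≠ y → Function.update (Function.update π' y z) r r x = π' x := by
  refine ⟨by simp, ?_, ?_⟩
  · rw [Function.update_of_ne (fun e => hr e.symm), Function.update_self]
  · intro x h1 h2
    rw [Function.update_of_ne h1, Function.update_of_ne h2]

theorem pred_isRT {y : V} {π' : V → V} (h : IsRT y π') (z r : V) (hz : z ≠ y) (hr : r ≠ y)
    (h1 : π' r = y) (h2 : ∃ j, π'^[j] z = r) :
    IsRT r (Function.update (Function.update π' y z) r r) ∧
      mv r (Function.update (Function.update π' y z) r r) y = π' := by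
  obtain ⟨ur, uy, ux⟩ := sa_upd hr π' z
  set π := Function.update (Function.update π' y z) r r with hπdef
  have hzr : ∃ j, π^[j] z = r := by
    have hmin : ∀ i < Nat.find h2, π'^[i] z ≠ r := fun i hi => Nat.find_min h2 hi
    have hspec := Nat.find_spec h2
    refine ⟨Nat.find h2, ?_⟩
    rw [sa_agree (f := π) (g := π') (x := z) (j := Nat.find h2) _ (Nat.find h2) le_rfl]
    · exact hspec
    · intro i hi
      apply ux _ (hmin i hi)
      intro hy
      apply hr
      rw [← hspec]
      exact sa_stay h.1 hy hi.le
  refine ⟨⟨ur, fun x => ?_⟩, ?_⟩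
  · have hex : ∃ k, π'^[k] x = r ∨ π'^[k] x = y := by
      obtain ⟨k, hk⟩ := h.2 x
      exact ⟨k, Or.inr hk⟩
    have hmin : ∀ i < Nat.find hex, ¬ (π'^[i] x = r ∨ π'^[i] x = y) :=
      fun i hi => Nat.find_min hex hi
    have hag := sa_agree (f := π) (g := π') (x := x)
      (j := Nat.find hex) (fun i hi => ux _ (fun e => hmin i hi (Or.inl e))
        (fun e => hmin i hi (Or.inr e))) (Nat.find hex) le_rfl
    rcases Nat.find_spec hex with h3 | h3
    · exact ⟨Nat.find hex, hag.trans h3⟩
    · obtain ⟨j, hj⟩ := hzr
      refine ⟨j + (Nat.find hex + 1), ?_⟩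
      rw [Function.iterate_add_apply, Function.iterate_succ_apply', hag, h3, uy, hj]
  · unfold mv
    rw [if_neg (fun e => hr e.symm)]
    funext x
    by_cases hxy : x = y
    · rw [hxy, Function.update_self]
      exact h.1.symm
    · rw [Function.update_of_ne hxy]
      by_cases hxr : x = r
      · rw [hxr, Function.update_self, h1]
      · rw [Function.update_of_ne hxr, ux x hxr hxy]

theorem pred_of {y r : V} {π π' : V → V} (h : IsRT r π) (hr : r ≠ y) (hm : mv r π y = π') :
    π y ≠ y ∧ π' r = y ∧ (∃ j, π'^[j] (π y) = r) ∧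
      π = Function.update (Function.update π' y (π y)) r r := by
  have hm' : Function.update (Function.update π r y) y y = π' := by
    unfold mv at hm
    rwa [if_neg (fun e => hr e.symm)] at hm
  have hy' : π' y = y := by rw [← hm', Function.update_self]
  have hr' : π' r = y := by rw [← hm', Function.update_of_ne hr, Function.update_self]
  have hx' : ∀ x, x ≠ r → x ≠ y → π' x = π x := by
    intro x h1 h2
    rw [← hm', Function.update_of_ne h2, Function.update_of_ne h1]
  refine ⟨h.ne y (fun e => hr e.symm), hr', ?_, ?_⟩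
  · have hex := h.2 (π y)
    have hmin : ∀ i < Nat.find hex, π^[i] (π y) ≠ r := fun i hi => Nat.find_min hex hi
    refine ⟨Nat.find hex, ?_⟩
    rw [sa_agree (f := π') (g := π) (x := π y) (j := Nat.find hex) _ (Nat.find hex) le_rfl]
    · exact Nat.find_spec hex
    · intro i hi
      apply hx' _ (hmin i hi)
      rw [← Function.iterate_succ_apply]
      exact h.no_return y (fun e => hr e.symm) i
  · funext x
    obtain ⟨ur, uy, ux⟩ := sa_upd hr π' (π y)
    by_cases hxr : x = r
    · rw [hxr, ur, h.1]
    · by_cases hxy : x = y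
      · rw [hxy, uy]
      · rw [ux x hxr hxy, hx' x hxr hxy]

theorem pred_wt (c : Sym2 V → ℝ) {y : V} {π' : V → V} (z r : V) (hr : r ≠ y)
    (h1 : π' r = y) :
    wR c r (Function.update (Function.update π' y z) r r) * c s(r, y) =
      wR c y π' * c s(y, z) := by
  obtain ⟨ur, uy, ux⟩ := sa_upd hr π' z
  set π := Function.update (Function.update π' y z) r r with hπdef
  unfold wR
  have hy : y ∈ univ.erase r := by
    rw [mem_erase]
    exact ⟨fun e => hr e.symm, mem_univ _⟩
  have hr2 : r ∈ univ.erase y := by
    rw [mem_erase]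
    exact ⟨hr, mem_univ _⟩
  rw [← Finset.mul_prod_erase _ _ hy, ← Finset.mul_prod_erase _ _ hr2, uy, h1,
    Finset.erase_right_comm]
  have hp : ∏ x ∈ (univ.erase y).erase r, c s(x, π x) =
      ∏ x ∈ (univ.erase y).erase r, c s(x, π' x) := by
    apply Finset.prod_congr rfl
    intro x hx
    rw [mem_erase, mem_erase] at hx
    rw [ux x hx.1 hx.2.1]
  rw [hp]
  ring

end RST.N
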