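import Pool.Agent.Lib.MP_7946c7_pr.IfT
import Pool.Agent.Lib.MP_7946c7_pr.N.StatA

/-!
# N/Str. Structure of the tree after the moves (deterministic)

PROOFS. `piN_isRT`: induction, `mv_isRT`. `piN_unvis`: induction; `mv` changes the map only at `X k` and
`X (k+1)`. `piN_vis`: induction on `k`; `k = 0` impossible. Step: if `X (k+1) = X k` the map does not change
and `u ≠ X k`: induction hypothesis. Otherwise `u ≠ X (k+1)`, and if `u = X k` take `i = k`
(`piN X π (k+1) u = X (k+1)`); if `u ≠ X k` then `u` was visited at a time `≤ k` and the map at `u` does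
not change.
`struct`: put `π' = piN X π k`. The path `γ` of the tree `gof π'` from `γ 0` to `X k` is the `π'`-orbit:
by `IsRT.orbit_saw` (for `π'`) and `RST.saw_unique` (IfT), `γ i = π'^[i] (γ 0)` for `i ≤ ℓ`. Let `j` be
minimal with `γ j` visited (`γ ℓ = X k` is). For `i < j`: `γ (i+1) = π' (γ i) = π (γ i)` (`piN_unvis`), so
`γ i = π^[i] (γ 0)` for `i ≤ j`. For `j ≤ i < ℓ`: `γ i` is visited (induction: if `γ i` is visited and
`i < ℓ` then `γ i ≠ X k = γ ℓ` and `piN_vis` shows that `γ (i+1)` is visited and the edge crossed).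
-/

open Finset
open scoped Classical

namespace RST.N

variable {V : Type} [Fintype V]

theorem piN_isRT (X : ℕ → V) (π : V → V) (h : IsRT (X 0) π) (k : ℕ) :
    IsRT (X k) (piN X π k) := by
  induction k with
  | zero => exact h
  | succ k ih => exact mv_isRT ih (X (k + 1))

theorem Str_mv_ne (r : V) (π : V → V) (y u : V) (h1 : u ≠ r) (h2 : u ≠ y) :
    mv r π y u = π u := by
  unfold mv
  split_ifs with h
  · rfl
  · rw [Function.update_of_ne h2, Function.update_of_ne h1]

theorem Str_mv_root (r : V) (π : V → V) (y : V) (h : y ≠ r) :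
    mv r π y r = y := by
  unfold mv
  rw [if_neg h, Function.update_of_ne (Ne.symm h), Function.update_self]

theorem piN_unvis (X : ℕ → V) (π : V → V) (k : ℕ) (u : V) (hu : ∀ i ≤ k, X i ≠ u) :
    piN X π k u = π u := by
  induction k with
  | zero => rfl
  | succ k ih =>
    have h1 : piN X π (k + 1) u = piN X π k u :=
      Str_mv_ne (X k) (piN X π k) (X (k + 1)) u (fun h => hu k (Nat.le_succ k) h.symm)
        (fun h => hu (k + 1) le_rfl h.symm)
    rw [h1]
    exact ih fun i hi => hu i (Nat.le_succ_of_le hi)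

theorem piN_vis (X : ℕ → V) (π : V → V) (k : ℕ) (u : V) (hu : ∃ i ≤ k, X i = u)
    (hk : u ≠ X k) : ∃ i < k, X i = u ∧ X (i + 1) = piN X π k u ∧ X i ≠ X (i + 1) := by
  induction k with
  | zero =>
    obtain ⟨i, hi, hX⟩ := hu
    have : i = 0 := by omega
    subst this
    exact absurd hX.symm hk
  | succ k ih =>
    obtain ⟨i, hi, hX⟩ := hu
    have hi' : i ≤ k := by
      rcases Nat.lt_or_ge i (k + 1) with h | h
      · omega
      · have : i = k + 1 := by omega
        subst this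
        exact absurd hX.symm hk
    by_cases hXk : X (k + 1) = X k
    · have hmv : piN X π (k + 1) = piN X π k := by
        change mv (X k) (piN X π k) (X (k + 1)) = piN X π k
        unfold mv
        rw [if_pos hXk]
      obtain ⟨i', h1, h2, h3, h4⟩ := ih ⟨i, hi', hX⟩ (by rw [← hXk]; exact hk)
      exact ⟨i', by omega, h2, by rw [hmv]; exact h3, h4⟩
    · by_cases hu' : u = X k
      · refine ⟨k, by omega, hu'.symm, ?_, fun h => hXk h.symm⟩
        rw [hu']
        exact (Str_mv_root (X k) (piN X π k) (X (k + 1)) hXk).symm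
      · obtain ⟨i', h1, h2, h3, h4⟩ := ih ⟨i, hi', hX⟩ hu'
        refine ⟨i', by omega, h2, ?_, h4⟩
        rw [h3]
        exact (Str_mv_ne (X k) (piN X π k) (X (k + 1)) u hu' hk).symm

theorem struct (X : ℕ → V) (π : V → V) (h : IsRT (X 0) π) (k : ℕ) (γ : ℕ → V) (ℓ : ℕ)
    (hγ : IsSAW (gof (piN X π k)).Adj γ ℓ) (he : γ ℓ = X k) :
    ∃ j ≤ ℓ, (∀ i < j, ∀ t ≤ k, X t ≠ γ i) ∧ (∃ t ≤ k, X t = γ j) ∧
      (∀ i ≤ j, γ i = π^[i] (γ 0)) ∧
      ∀ i, j ≤ i → i < ℓ → ∃ t < k, X t ≠ X (t + 1) ∧ s(X t, X (t + 1)) = s(γ i, γ (i + 1)) := by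
  have hRT := piN_isRT X π h k
  obtain ⟨ℓ', hsaw, hend⟩ := hRT.orbit_saw (γ 0)
  obtain ⟨hℓ, horb⟩ := saw_unique (gof (piN X π k)) (gof_isTree hRT) γ
    (fun i => (piN X π k)^[i] (γ 0)) ℓ ℓ' hγ hsaw rfl (by
      change γ ℓ = (piN X π k)^[ℓ'] (γ 0)
      rw [he, hend])
  have hstep : ∀ i < ℓ, γ (i + 1) = piN X π k (γ i) := by
    intro i hi
    rw [horb i hi.le, horb (i + 1) hi]
    exact Function.iterate_succ_apply' _ _ _
  have hex : ∃ j, ∃ t ≤ k, X t = γ j := ⟨ℓ, k, le_rfl, he.symm⟩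
  have hjℓ : Nat.find hex ≤ ℓ := Nat.find_min' hex ⟨k, le_rfl, he.symm⟩
  have hjv : ∃ t ≤ k, X t = γ (Nat.find hex) := Nat.find_spec hex
  have hmin : ∀ i < Nat.find hex, ∀ t ≤ k, X t ≠ γ i := fun i hi t ht hX =>
    Nat.find_min hex hi ⟨t, ht, hX⟩
  refine ⟨Nat.find hex, hjℓ, hmin, hjv, ?_, ?_⟩
  · intro i
    induction i with
    | zero => intro _; rfl
    | succ i ih =>
      intro hi
      rw [hstep i (by omega), piN_unvis X π k (γ i) (hmin i (by omega)), ih (by omega)]
      exact (Function.iterate_succ_apply' _ _ _).symm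
  · have hvis : ∀ i, Nat.find hex ≤ i → i < ℓ → (∃ t ≤ k, X t = γ i) →
        ∃ t < k, X t = γ i ∧ X (t + 1) = γ (i + 1) ∧ X t ≠ X (t + 1) := by
      intro i hi hiℓ hv
      have hne : γ i ≠ X k := by
        intro hc
        have := hγ.2 i hiℓ.le ℓ le_rfl (by rw [hc, he])
        omega
      obtain ⟨t, h1, h2, h3, h4⟩ := piN_vis X π k (γ i) hv hne
      exact ⟨t, h1, h2, by rw [h3, hstep i hiℓ], h4⟩
    have hall : ∀ i, Nat.find hex ≤ i → i ≤ ℓ → ∃ t ≤ k, X t = γ i := by
      intro i hi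
      induction i, hi using Nat.le_induction with
      | base => intro _; exact hjv
      | succ i hi ih =>
        intro hiℓ
        obtain ⟨t, h1, _, h3, _⟩ := hvis i hi (by omega) (ih (by omega))
        exact ⟨t + 1, h1, h3⟩
    intro i hi hiℓ
    obtain ⟨t, h1, h2, h3, h4⟩ := hvis i hi hiℓ (hall i hi hiℓ.le)
    exact ⟨t, h1, h4, by rw [h2, h3]⟩

/-- Only the values `X 0, …, X k` matter. -/
theorem piN_congr (X X' : ℕ → V) (π : V → V) (k : ℕ) (h : ∀ i ≤ k, X i = X' i) :
    piN X π k = piN X' π k := by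
  induction k with
  | zero => rfl
  | succ k ih =>
    change mv (X k) (piN X π k) (X (k + 1)) = mv (X' k) (piN X' π k) (X' (k + 1))
    rw [ih fun i hi => h i (Nat.le_succ_of_le hi), h k (Nat.le_succ k), h (k + 1) le_rfl]

end RST.N
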