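import Pool.Agent.Lib.MP_7946c7_pr.N.Defs

/-!
# N/Tr. Sums over trajectories and products of matrices

PROOFS. `sum_snoc`: the equivalence `Fin.snocEquiv` (or `Fin.snocEquiv`/`Fin.consEquiv` variants,
`Fin.init`, `Fin.last`). `tw_snoc`: `Fin.prod_univ_castSucc`. `ext_snoc`: definition of `ext` and
`Fin.snoc`. `mp_add`, `mp_const`: induction. `mp_snoc`: from `mp_add`.
`traj_prod`: induction on `k` with `sum_snoc`: `∑ ω, u (ω 0) * (∏ i : Fin (k+1), …) * v (ω last)
= ∑ ω', u (ω' 0) * (∏ i : Fin k, …) * ∑ y, M k (ω' last) y * v y`, and `mp M 0 (k+1) = mp M 0 k * M k`.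
-/

open Finset
open scoped Classical

namespace RST.N

variable {V : Type} [Fintype V]

theorem sum_snoc {k : ℕ} (G : (Fin (k + 2) → V) → ℝ) :
    ∑ ω : Fin (k + 2) → V, G ω =
      ∑ ω : Fin (k + 1) → V, ∑ y : V, G (Fin.snoc (α := fun _ => V) ω y) := by
  rw [← (Fin.snocEquiv (fun _ : Fin (k + 2) => V)).sum_comp, Fintype.sum_prod_type, Finset.sum_comm]
  rfl

theorem tw_snoc (P : Matrix V V ℝ) {k : ℕ} (ω : Fin (k + 1) → V) (y : V) :
    tw P (k := k + 1) (Fin.snoc (α := fun _ => V) ω y) = tw P ω * P (ω (Fin.last k)) y := by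
  unfold tw
  rw [Fin.prod_univ_castSucc]
  congr 1
  · refine Finset.prod_congr rfl fun i _ => ?_
    rw [Fin.snoc_castSucc, Fin.succ_castSucc, Fin.snoc_castSucc]
  · rw [Fin.snoc_castSucc, Fin.succ_last, Fin.snoc_last]

theorem ext_snoc {k : ℕ} (ω : Fin (k + 1) → V) (y : V) :
    (∀ i ≤ k, ext (k := k + 1) (Fin.snoc (α := fun _ => V) ω y) i = ext ω i) ∧
      ext (k := k + 1) (Fin.snoc (α := fun _ => V) ω y) (k + 1) = y ∧
      (Fin.snoc (α := fun _ => V) ω y : Fin (k + 2) → V) 0 = ω 0 := by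
  refine ⟨?_, ?_, ?_⟩
  · intro i hi
    have h1 : (⟨min i (k + 1), Nat.lt_succ_of_le (Nat.min_le_right i (k + 1))⟩ : Fin (k + 2)) =
        Fin.castSucc (⟨min i k, Nat.lt_succ_of_le (Nat.min_le_right i k)⟩ : Fin (k + 1)) := by
      apply Fin.ext
      simp only [Fin.val_castSucc]
      omega
    unfold ext
    rw [h1, Fin.snoc_castSucc]
  · have h1 : (⟨min (k + 1) (k + 1), Nat.lt_succ_of_le (Nat.min_le_right (k + 1) (k + 1))⟩ :
        Fin (k + 2)) = Fin.last (k + 1) := by
      apply Fin.ext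
      simp
    unfold ext
    rw [h1, Fin.snoc_last]
  · have h1 : (0 : Fin (k + 2)) = Fin.castSucc (0 : Fin (k + 1)) := rfl
    rw [h1, Fin.snoc_castSucc]

theorem ext_zero {k : ℕ} (ω : Fin (k + 1) → V) : ext ω 0 = ω 0 := by
  unfold ext
  congr 1

theorem ext_last {k : ℕ} (ω : Fin (k + 1) → V) : ext ω k = ω (Fin.last k) := by
  unfold ext
  congr 1
  apply Fin.ext
  simp

theorem ext_castSucc {k : ℕ} (ω : Fin (k + 1) → V) (i : Fin k) :
    ω i.castSucc = ext ω i ∧ ω i.succ = ext ω (i + 1) := by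
  have hi := i.2
  unfold ext
  constructor
  · congr 1
    apply Fin.ext
    simp only [Fin.val_castSucc]
    omega
  · congr 1
    apply Fin.ext
    simp only [Fin.val_succ]
    omega

theorem mp_add (M : ℕ → Matrix V V ℝ) (a n n' : ℕ) :
    mp M a (n + n') = mp M a n * mp M (a + n) n' := by
  induction n generalizing a with
  | zero =>
    rw [Nat.zero_add, Nat.add_zero]
    exact (Matrix.one_mul _).symm
  | succ n ih =>
    have h1 : n + 1 + n' = (n + n') + 1 := by omega
    rw [h1]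
    change M a * mp M (a + 1) (n + n') = (M a * mp M (a + 1) n) * mp M (a + (n + 1)) n'
    rw [ih (a + 1), Matrix.mul_assoc]
    have h2 : a + 1 + n = a + (n + 1) := by omega
    rw [h2]

theorem mp_const (M : ℕ → Matrix V V ℝ) (A : Matrix V V ℝ) (a n : ℕ)
    (h : ∀ i, a ≤ i → i < a + n → M i = A) : mp M a n = A ^ n := by
  induction n generalizing a with
  | zero => rw [pow_zero]; rfl
  | succ n ih =>
    change M a * mp M (a + 1) n = A ^ (n + 1)
    rw [ih (a + 1) fun i h1 h2 => h i (by omega) (by omega), h a le_rfl (by omega), pow_succ']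

theorem Tr_mp_succ (M : ℕ → Matrix V V ℝ) (n : ℕ) :
    mp M 0 (n + 1) = mp M 0 n * M n := by
  rw [mp_add, Nat.zero_add]
  congr 1
  change M n * 1 = M n
  exact Matrix.mul_one _

theorem traj_prod (M : ℕ → Matrix V V ℝ) (u v : V → ℝ) (k : ℕ) :
    ∑ ω : Fin (k + 1) → V, u (ω 0) * (∏ i : Fin k, M i (ω i.castSucc) (ω i.succ)) *
      v (ω (Fin.last k)) = ∑ x, u x * ((mp M 0 k).mulVec v) x := by
  induction k generalizing v with
  | zero =>
    rw [← (Equiv.funUnique (Fin 1) V).symm.sum_comp]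
    refine Finset.sum_congr rfl fun x _ => ?_
    have h1 : mp M 0 0 = 1 := rfl
    rw [h1, Matrix.one_mulVec]
    simp
  | succ k ih =>
    rw [sum_snoc]
    have h1 : ∀ ω : Fin (k + 1) → V, ∑ y : V,
        u ((Fin.snoc (α := fun _ => V) ω y : Fin (k + 2) → V) 0) *
          (∏ i : Fin (k + 1), M i ((Fin.snoc (α := fun _ => V) ω y : Fin (k + 2) → V) i.castSucc)
            ((Fin.snoc (α := fun _ => V) ω y : Fin (k + 2) → V) i.succ)) *
          v ((Fin.snoc (α := fun _ => V) ω y : Fin (k + 2) → V) (Fin.last (k + 1))) =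
        u (ω 0) * (∏ i : Fin k, M i (ω i.castSucc) (ω i.succ)) *
          ((M k).mulVec v) (ω (Fin.last k)) := by
      intro ω
      unfold Matrix.mulVec dotProduct
      rw [Finset.mul_sum]
      refine Finset.sum_congr rfl fun y _ => ?_
      rw [Fin.prod_univ_castSucc, Fin.snoc_last, (ext_snoc ω y).2.2]
      have h2 : ∏ i : Fin k, M (i.castSucc : Fin (k + 1))
          ((Fin.snoc (α := fun _ => V) ω y : Fin (k + 2) → V) i.castSucc.castSucc)
          ((Fin.snoc (α := fun _ => V) ω y : Fin (k + 2) → V) i.castSucc.succ) =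
          ∏ i : Fin k, M i (ω i.castSucc) (ω i.succ) := by
        refine Finset.prod_congr rfl fun i _ => ?_
        rw [Fin.snoc_castSucc, Fin.succ_castSucc, Fin.snoc_castSucc, Fin.val_castSucc]
      rw [h2, Fin.snoc_castSucc, Fin.succ_last, Fin.snoc_last, Fin.val_last]
      ring
    rw [Finset.sum_congr rfl fun ω _ => h1 ω, ih, Tr_mp_succ]
    refine Finset.sum_congr rfl fun x _ => ?_
    rw [Matrix.mulVec_mulVec]

end RST.N
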