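import Pool.Agent.Lib.MP_7946c7_pr.N.PTb
import Pool.Agent.Lib.MP_7946c7_pr.N.Pb
import Pool.Agent.Lib.MP_7946c7_pr.N.RTb
import Pool.Agent.Lib.MP_7946c7_pr.N.StatB
import Pool.Agent.Lib.MP_7946c7_pr.N.Str
import Pool.Agent.Lib.MP_7946c7_pr.N.Tr

/-!
# N/JEe. Law of the tree at the end of the chain

PROOFS. `end_gen`: induction on `k` for all `F`. `k = 0`: trajectories are single points
(`Fin 1 → V`, `tw = 1`, `ext ω 0 = ω 0`, `piN _ _ 0 = π`). Step: `sum_snoc`, `tw_snoc`, `ext_snoc`; with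
`ω = snoc ω' y`: `piN (ext ω) π (k+1) = mv (ω' last) (piN (ext ω') π k) y` (`piN_congr`, `ext_last`), so the sum
is the induction hypothesis for `F' r π = ∑ y, P r y * F y (mv r π y)`, then `stationary`.
`JP_end`: `end_gen` with `F r π = if gof π ∈ A then 1 else 0` (divide by `tm m * sumT univ`), then
`∑_r m r * ∑_π [IsRT r π] wR * 1_A (gof π) = tm m * sumT c A` (`sum_rt`, `ET_indicator`).
-/

open Finset
open scoped Classical

namespace RST.N

variable {V : Type} [Fintype V]

theorem end_gen (c : Sym2 V → ℝ) (m : V → ℝ) (Λ : ℕ) (hN : NetOK c m Λ) (k : ℕ)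
    (F : V → (V → V) → ℝ) :
    ∑ ω : Fin (k + 1) → V, ∑ π : V → V, (if IsRT (ω 0) π then
      m (ω 0) * tw (Pm c m Λ) ω * wR c (ω 0) π * F (ext ω k) (piN (ext ω) π k) else 0) =
      ∑ r, ∑ π : V → V, (if IsRT r π then m r * wR c r π * F r π else 0) := by
  induction k generalizing F with
  | zero =>
    refine Fintype.sum_equiv (Equiv.funUnique (Fin 1) V) _ _ fun ω => ?_
    refine Finset.sum_congr rfl fun π _ => ?_
    have h0 : (Equiv.funUnique (Fin 1) V) ω = ω 0 := rfl
    have h1 : tw (Pm c m Λ) ω = 1 := by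
      unfold tw
      exact Finset.prod_eq_one fun i _ => i.elim0
    have h2 : ext ω 0 = ω 0 := ext_zero ω
    have h3 : piN (ext ω) π 0 = π := rfl
    rw [h0, h1, h2, h3, mul_one]
  | succ k ih =>
    rw [sum_snoc, ← stationary c m Λ hN F, ← ih fun r π => ∑ y, Pm c m Λ r y * F y (mv r π y)]
    refine Finset.sum_congr rfl fun ω _ => ?_
    rw [Finset.sum_comm]
    refine Finset.sum_congr rfl fun π _ => ?_
    have h1 : ∀ y : V, (Fin.snoc (α := fun _ => V) ω y : Fin (k + 2) → V) 0 = ω 0 := fun y =>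
      (ext_snoc ω y).2.2
    have h2 : ∀ y : V, ext (k := k + 1) (Fin.snoc (α := fun _ => V) ω y) (k + 1) = y := fun y =>
      (ext_snoc ω y).2.1
    have h3 : ∀ y : V, piN (ext (k := k + 1) (Fin.snoc (α := fun _ => V) ω y)) π (k + 1) =
        mv (ext ω k) (piN (ext ω) π k) y := by
      intro y
      have e1 : ext (k := k + 1) (Fin.snoc (α := fun _ => V) ω y) k = ext ω k :=
        (ext_snoc ω y).1 k le_rfl
      have e2 := piN_congr (ext (k := k + 1) (Fin.snoc (α := fun _ => V) ω y)) (ext ω) π k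
        (ext_snoc ω y).1
      show mv (ext (k := k + 1) (Fin.snoc (α := fun _ => V) ω y) k)
        (piN (ext (k := k + 1) (Fin.snoc (α := fun _ => V) ω y)) π k)
        (ext (k := k + 1) (Fin.snoc (α := fun _ => V) ω y) (k + 1)) = _
      rw [e1, e2, h2]
    simp only [h1, h2, h3, tw_snoc]
    by_cases hR : IsRT (ω 0) π
    · simp only [if_pos hR]
      rw [Finset.mul_sum]
      refine Finset.sum_congr rfl fun y _ => ?_
      rw [ext_last]
      ring
    · simp only [if_neg hR, Finset.sum_const_zero]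

theorem JP_end [Nonempty V] (c : Sym2 V → ℝ) (m : V → ℝ) (Λ k : ℕ) (hN : NetOK c m Λ)
    (A : Set (SimpleGraph V)) : JP c m Λ k (fun π X => gof (piN X π k) ∈ A) = PT c A := by
  have htm : tm m ≠ 0 := (tm_pos m hN.m_pos).ne'
  have hZ : sumT c Set.univ ≠ 0 := (sumT_univ_pos c hN.c_pos).ne'
  have key := end_gen c m Λ hN k (fun _ π => if gof π ∈ A then 1 else 0)
  have h1 : ∑ r, ∑ π : V → V, (if IsRT r π then m r * wR c r π *
      (if gof π ∈ A then (1 : ℝ) else 0) else 0) = tm m * sumT c A := by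
    unfold tm
    rw [Finset.sum_mul]
    refine Finset.sum_congr rfl fun r _ => ?_
    rw [← ET_indicator, ← sum_rt c r, Finset.mul_sum]
    refine Finset.sum_congr rfl fun π _ => ?_
    split_ifs <;> ring
  rw [h1] at key
  have h2 : JP c m Λ k (fun π X => gof (piN X π k) ∈ A) =
      (tm m * sumT c Set.univ)⁻¹ * ∑ ω : Fin (k + 1) → V, ∑ π : V → V, (if IsRT (ω 0) π then
      m (ω 0) * tw (Pm c m Λ) ω * wR c (ω 0) π *
      (if gof (piN (ext ω) π k) ∈ A then (1 : ℝ) else 0) else 0) := by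
    unfold JP JE
    rw [Finset.mul_sum]
    refine Finset.sum_congr rfl fun ω _ => ?_
    rw [Finset.mul_sum]
    refine Finset.sum_congr rfl fun π _ => ?_
    by_cases hR : IsRT (ω 0) π
    · rw [if_pos hR, if_pos hR]
      field_simp
    · rw [if_neg hR, if_neg hR, mul_zero]
  rw [h2, key]
  unfold PT
  field_simp

end RST.N
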