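import Pool.Agent.Lib.MP_7946c7_pr.N.Str

/-!
# N/LowDet. Deterministic part of the lower bound

PROOFS. `path_crossed`: `struct` with `γ 0 = X 0`: `γ 0` is visited, so `j = 0`, and every edge of `γ` is crossed
at some time `t < k = s Λ`, hence in the window `w = t / Λ < s` (`Λ ≥ 1`).
`low_det`: choose for each `j ≤ q` a window `w j < s` where `s(γ (g j), γ (g j + 1))` is crossed. Suppose none of
the three alternatives holds. Then `w 0 < τ` (first alternative with `p = (γ 0, f 0)`), `w q + τ + 1 > s`, i.e.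
`s ≤ w q + τ`, and `|w (j+1) - w j| < τ` for `j < q`, so `w q ≤ w 0 + q (τ - 1)` and
`s ≤ w q + τ ≤ (τ - 1) + q (τ - 1) + τ < (q+1) τ + 2 τ + 2`, contradiction.
-/

open Finset
open scoped Classical

namespace RST.N

variable {V : Type} [Fintype V]

theorem path_crossed (X : ℕ → V) (π : V → V) (h : IsRT (X 0) π) (s Λ : ℕ) (hΛ : 1 ≤ Λ)
    (γ : ℕ → V) (ℓ : ℕ) (hγ : IsSAW (gof (piN X π (s * Λ))).Adj γ ℓ) (h0 : γ 0 = X 0)
    (h1 : γ ℓ = X (s * Λ)) (i : ℕ) (hi : i < ℓ) :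
    ∃ w < s, X ∈ Xw Λ w s(γ i, γ (i + 1)) := by
  obtain ⟨j, hj, hun, _, _, hcr⟩ := struct X π h (s * Λ) γ ℓ hγ h1
  have hj0 : j = 0 := by
    by_contra hne
    exact hun 0 (Nat.pos_of_ne_zero hne) 0 (Nat.zero_le _) h0.symm
  subst hj0
  obtain ⟨t, ht, hne, he⟩ := hcr i (Nat.zero_le _) hi
  have hmod := Nat.mod_lt t hΛ
  have hdiv := Nat.div_add_mod t Λ
  refine ⟨t / Λ, ?_, t, ?_, ?_, hne, he⟩
  · exact Nat.div_lt_of_lt_mul (by rw [Nat.mul_comm]; exact ht)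
  · exact Nat.div_mul_le_self t Λ
  · have h2 : (t / Λ + 1) * Λ = Λ * (t / Λ) + Λ := by ring
    rw [h2]
    omega

theorem low_det (Λ s τ : ℕ) (hτ : 1 ≤ τ) (X : ℕ → V) (ℓ : ℕ) (γ : ℕ → V)
    (hcr : ∀ i < ℓ, ∃ w < s, X ∈ Xw Λ w s(γ i, γ (i + 1)))
    (P : Finset (Sym2 V × Sym2 V)) (Q : Finset (V × Sym2 V)) (q : ℕ) (g : ℕ → ℕ)
    (hg : ∀ j ≤ q, g j < ℓ) (hs : (q + 1) * τ + 2 * τ + 2 ≤ s)
    (hQ0 : (γ 0, s(γ (g 0), γ (g 0 + 1))) ∈ Q) (hQ1 : (γ ℓ, s(γ (g q), γ (g q + 1))) ∈ Q)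
    (hP : ∀ j < q, (s(γ (g j), γ (g j + 1)), s(γ (g (j + 1)), γ (g (j + 1) + 1))) ∈ P ∨
      (s(γ (g (j + 1)), γ (g (j + 1) + 1)), s(γ (g j), γ (g j + 1))) ∈ P) :
    (∃ p ∈ Q, p.1 = γ 0 ∧ ∃ w < s, τ ≤ w ∧ X ∈ Xw Λ w p.2) ∨
    (∃ p ∈ Q, p.1 = γ ℓ ∧ ∃ w < s, w + τ + 1 ≤ s ∧ X ∈ Xw Λ w p.2) ∨
    ∃ p ∈ P, ∃ a < s, ∃ b < s, (a + τ ≤ b ∨ b + τ ≤ a) ∧ X ∈ Xw Λ a p.1 ∧ X ∈ Xw Λ b p.2 := by
  by_contra hcon
  rw [not_or, not_or] at hcon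
  obtain ⟨hA, hB, hC⟩ := hcon
  choose! w hw using fun j (hj : j ≤ q) => hcr (g j) (hg j hj)
  have h0 : w 0 < τ := by
    by_contra hlt
    exact hA ⟨_, hQ0, rfl, w 0, (hw 0 (Nat.zero_le _)).1, not_lt.1 hlt, (hw 0 (Nat.zero_le _)).2⟩
  have hq : s ≤ w q + τ := by
    by_contra hlt
    exact hB ⟨_, hQ1, rfl, w q, (hw q le_rfl).1, by omega, (hw q le_rfl).2⟩
  have hstep : ∀ j < q, w (j + 1) < w j + τ := by
    intro j hj
    by_contra hlt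
    have hle : w j + τ ≤ w (j + 1) := not_lt.1 hlt
    obtain ⟨a1, a2⟩ := hw j hj.le
    obtain ⟨b1, b2⟩ := hw (j + 1) hj
    rcases hP j hj with hp | hp
    · exact hC ⟨_, hp, w j, a1, w (j + 1), b1, Or.inl hle, a2, b2⟩
    · exact hC ⟨_, hp, w (j + 1), b1, w j, a1, Or.inr hle, b2, a2⟩
  have hind : ∀ j ≤ q, w j < (j + 1) * τ := by
    intro j
    induction j with
    | zero => intro _; rw [Nat.zero_add, Nat.one_mul]; exact h0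
    | succ j ih =>
      intro hj
      have h1 := ih (by omega)
      have h2 := hstep j hj
      have h3 : (j + 1 + 1) * τ = (j + 1) * τ + τ := by ring
      omega
  have hfin := hind q le_rfl
  omega

end RST.N
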