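import Pool.Agent.Lib.MP_7946c7_pr.N.Pb

/-!
# N/WinA. The crossing matrix `Cm e = P ^ Λ - (P - P_e) ^ Λ`

PROOFS. `P - Pe` has entries `P x y` or `0` (at `x ≠ y`, `s(x,y) = e`), so it is nonnegative, at most `P`
entrywise; powers by induction: `0 ≤ (P - Pe)^k x y ≤ P^k x y`. Symmetry: `Pe` is `m`-symmetric, `P - Pe`
too, `pow_symm`. `Cm_one`: rows of `P^Λ` sum to `1` (`pow_one_vec`), those of `(P - Pe)^Λ` are between `0` and
`1`. `Cm_mass`: claim by induction on `k`: `∑_x m x ((P^k - (P - Pe)^k) 1) x ≤ k * (2 c e / Λ)`, because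
`P^(k+1) - N^(k+1) = P (P^k - N^k) + (P - N) N^k`, `∑_x m x (P g) x = ∑_x m x g x` (`Pm_stat`),
`P - N = Pe`, `N^k 1 ≤ 1`, `∑_x m x (Pe 1) x = ∑_{x ≠ y, s(x,y) = e} c e / Λ ≤ 2 c e / Λ` (there are at most
two such ordered pairs). Take `k = Λ`.
-/

open Finset
open scoped Classical

namespace RST.N

variable {V : Type} [Fintype V]

theorem sub_entry (c : Sym2 V → ℝ) (m : V → ℝ) (Λ : ℕ) (hN : NetOK c m Λ) (e : Sym2 V) (x y : V) :
    (Pm c m Λ - Pe c m Λ e) x y = Pm c m Λ x y * (if x ≠ y ∧ s(x, y) = e then 0 else 1) := by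
  have _ := hN
  rw [Matrix.sub_apply]
  unfold Pm Pe
  rw [Matrix.of_apply, Matrix.of_apply]
  by_cases h : x ≠ y ∧ s(x, y) = e
  · rw [if_pos h, if_pos h, if_neg h.1]
    ring
  · rw [if_neg h, if_neg h]
    ring

private theorem WinA_pow (A B : Matrix V V ℝ) (h : ∀ x y, 0 ≤ A x y ∧ A x y ≤ B x y) (k : ℕ) :
    ∀ x y, 0 ≤ (A ^ k) x y ∧ (A ^ k) x y ≤ (B ^ k) x y := by
  induction k with
  | zero =>
    intro x y
    rw [pow_zero, pow_zero]
    refine ⟨?_, le_refl _⟩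
    rw [Matrix.one_apply]
    split_ifs <;> norm_num
  | succ k ih =>
    intro x y
    rw [pow_succ, pow_succ, Matrix.mul_apply, Matrix.mul_apply]
    constructor
    · exact Finset.sum_nonneg fun z _ => mul_nonneg (ih x z).1 (h z y).1
    · apply Finset.sum_le_sum
      intro z _
      exact mul_le_mul (ih x z).2 (h z y).2 (h z y).1 ((ih x z).1.trans (ih x z).2)

private theorem WinA_sub (c : Sym2 V → ℝ) (m : V → ℝ) (Λ : ℕ) (hN : NetOK c m Λ) (e : Sym2 V)
    (x y : V) : 0 ≤ (Pm c m Λ - Pe c m Λ e) x y ∧ (Pm c m Λ - Pe c m Λ e) x y ≤ Pm c m Λ x y := by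
  have h0 := Pm_nonneg c m Λ hN x y
  rw [sub_entry c m Λ hN e x y]
  split_ifs
  · rw [mul_zero]
    exact ⟨le_refl _, h0⟩
  · rw [mul_one]
    exact ⟨h0, le_refl _⟩

theorem sub_pow (c : Sym2 V → ℝ) (m : V → ℝ) (Λ : ℕ) (hN : NetOK c m Λ) (e : Sym2 V) (k : ℕ)
    (x y : V) : 0 ≤ ((Pm c m Λ - Pe c m Λ e) ^ k) x y ∧
      ((Pm c m Λ - Pe c m Λ e) ^ k) x y ≤ (Pm c m Λ ^ k) x y :=
  WinA_pow _ _ (WinA_sub c m Λ hN e) k x y

private theorem WinA_sub_symm (c : Sym2 V → ℝ) (m : V → ℝ) (Λ : ℕ) (hN : NetOK c m Λ) (e : Sym2 V)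
    (x y : V) : m x * (Pm c m Λ - Pe c m Λ e) x y = m y * (Pm c m Λ - Pe c m Λ e) y x := by
  rw [sub_entry c m Λ hN e x y, sub_entry c m Λ hN e y x, ← mul_assoc, ← mul_assoc,
    Pm_symm c m Λ hN x y]
  congr 1
  have h : (x ≠ y ∧ s(x, y) = e) ↔ (y ≠ x ∧ s(y, x) = e) := by
    rw [Sym2.eq_swap, ne_comm]
  by_cases h1 : x ≠ y ∧ s(x, y) = e
  · rw [if_pos h1, if_pos (h.mp h1)]
  · rw [if_neg h1, if_neg (fun h2 => h1 (h.mpr h2))]

theorem Cm_symm (c : Sym2 V → ℝ) (m : V → ℝ) (Λ : ℕ) (hN : NetOK c m Λ) (e : Sym2 V) (x y : V) :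
    m x * Cm c m Λ e x y = m y * Cm c m Λ e y x := by
  unfold Cm
  rw [Matrix.sub_apply, Matrix.sub_apply, mul_sub, mul_sub,
    pow_symm m _ (Pm_symm c m Λ hN) Λ x y, pow_symm m _ (WinA_sub_symm c m Λ hN e) Λ x y]

theorem Cm_nonneg (c : Sym2 V → ℝ) (m : V → ℝ) (Λ : ℕ) (hN : NetOK c m Λ) (e : Sym2 V)
    (x y : V) : 0 ≤ Cm c m Λ e x y := by
  unfold Cm
  rw [Matrix.sub_apply]
  have := (sub_pow c m Λ hN e Λ x y).2
  linarith

private theorem WinA_row (c : Sym2 V → ℝ) (m : V → ℝ) (Λ : ℕ) (hN : NetOK c m Λ) (k : ℕ) (x : V) :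
    ∑ y, (Pm c m Λ ^ k) x y = 1 := by
  have h := congrFun (pow_one_vec (Pm c m Λ) (Pm_row c m Λ hN) k) x
  have e : ((Pm c m Λ ^ k).mulVec (fun _ => 1)) x = ∑ y, (Pm c m Λ ^ k) x y * 1 := rfl
  rw [e] at h
  simpa using h

theorem Cm_one (c : Sym2 V → ℝ) (m : V → ℝ) (Λ : ℕ) (hN : NetOK c m Λ) (e : Sym2 V) (x : V) :
    0 ≤ (Cm c m Λ e).mulVec (fun _ => 1) x ∧ (Cm c m Λ e).mulVec (fun _ => 1) x ≤ 1 := by
  have e0 : (Cm c m Λ e).mulVec (fun _ => 1) x = ∑ y, Cm c m Λ e x y := by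
    have : (Cm c m Λ e).mulVec (fun _ => 1) x = ∑ y, Cm c m Λ e x y * 1 := rfl
    rw [this]
    simp
  rw [e0]
  constructor
  · exact Finset.sum_nonneg fun y _ => Cm_nonneg c m Λ hN e x y
  · rw [← WinA_row c m Λ hN Λ x]
    apply Finset.sum_le_sum
    intro y _
    unfold Cm
    rw [Matrix.sub_apply]
    have := (sub_pow c m Λ hN e Λ x y).1
    linarith

private theorem WinA_stat (c : Sym2 V → ℝ) (m : V → ℝ) (Λ : ℕ) (hN : NetOK c m Λ) (g : V → ℝ) :
    ∑ x, m x * ((Pm c m Λ).mulVec g) x = ∑ x, m x * g x := by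
  have : ∀ x, m x * ((Pm c m Λ).mulVec g) x = ∑ y, m x * Pm c m Λ x y * g y := by
    intro x
    have e : ((Pm c m Λ).mulVec g) x = ∑ y, Pm c m Λ x y * g y := rfl
    rw [e, Finset.mul_sum]
    apply Finset.sum_congr rfl
    intro y _
    ring
  rw [Finset.sum_congr rfl (fun x _ => this x), Finset.sum_comm]
  apply Finset.sum_congr rfl
  intro y _
  rw [← Finset.sum_mul, Pm_stat c m Λ hN y]

private theorem WinA_Pe_mass (c : Sym2 V → ℝ) (m : V → ℝ) (Λ : ℕ) (hN : NetOK c m Λ) (e : Sym2 V)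
    (g : V → ℝ) (hg : ∀ x, g x ≤ 1) :
    ∑ x, m x * ((Pe c m Λ e).mulVec g) x ≤ 2 * (c e / Λ) := by
  have hΛ : (0 : ℝ) < Λ := by
    have := hN.one_le
    exact_mod_cast this
  have hce : 0 < c e / Λ := div_pos (hN.c_pos e) hΛ
  have h1 : ∀ x, m x * ((Pe c m Λ e).mulVec g) x ≤
      ∑ y ∈ univ.erase x, (fun e' : Sym2 V => if e' = e then c e / Λ else 0) s(x, y) := by
    intro x
    have e0 : ((Pe c m Λ e).mulVec g) x = ∑ y, Pe c m Λ e x y * g y := rfl
    rw [e0, Finset.mul_sum, ← Finset.add_sum_erase univ _ (Finset.mem_univ x)]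
    have e1 : m x * (Pe c m Λ e x x * g x) = 0 := by
      unfold Pe
      rw [Matrix.of_apply, if_neg (fun h => h.1 rfl)]
      ring
    rw [e1, zero_add]
    apply Finset.sum_le_sum
    intro y hy
    have hxy : x ≠ y := (Finset.ne_of_mem_erase hy).symm
    unfold Pe
    rw [Matrix.of_apply]
    by_cases h2 : s(x, y) = e
    · rw [if_pos ⟨hxy, h2⟩]
      simp only [h2, if_true]
      have hm := hN.m_pos x
      have e2 : m x * (c e / (Λ * m x) * g y) = (c e / Λ) * g y := by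
        field_simp
      rw [e2]
      have := mul_le_mul_of_nonneg_left (hg y) hce.le
      linarith
    · rw [if_neg (fun h => h2 h.2)]
      simp only [h2, if_false]
      rw [zero_mul, mul_zero]
  refine (Finset.sum_le_sum fun x _ => h1 x).trans ?_
  have h3 := dir_sum (fun e' : Sym2 V => if e' = e then c e / Λ else 0)
  refine h3.le.trans ?_
  apply mul_le_mul_of_nonneg_left _ (by norm_num : (0 : ℝ) ≤ 2)
  calc ∑ e' ∈ univ.filter (fun e : Sym2 V => ¬ e.IsDiag), (if e' = e then c e / Λ else 0) ≤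
        ∑ e' : Sym2 V, (if e' = e then c e / Λ else 0) := by
        apply Finset.sum_le_sum_of_subset_of_nonneg (Finset.filter_subset _ _)
        intro e' _ _
        split_ifs
        · exact hce.le
        · exact le_refl _
    _ = c e / Λ := by
        rw [Finset.sum_ite_eq']
        simp

theorem Cm_mass (c : Sym2 V → ℝ) (m : V → ℝ) (Λ : ℕ) (hN : NetOK c m Λ) (e : Sym2 V) :
    ∑ x, m x * (Cm c m Λ e).mulVec (fun _ => 1) x ≤ 2 * c e := by
  have hΛ : (0 : ℝ) < Λ := by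
    have := hN.one_le
    exact_mod_cast this
  have key : ∀ k : ℕ, ∑ x, m x *
      ((Pm c m Λ ^ k - (Pm c m Λ - Pe c m Λ e) ^ k).mulVec (fun _ => 1)) x ≤
        k * (2 * (c e / Λ)) := by
    intro k
    induction k with
    | zero => simp
    | succ k ih =>
      have e1 : Pm c m Λ ^ (k + 1) - (Pm c m Λ - Pe c m Λ e) ^ (k + 1) =
          Pm c m Λ * (Pm c m Λ ^ k - (Pm c m Λ - Pe c m Λ e) ^ k) +
            Pe c m Λ e * (Pm c m Λ - Pe c m Λ e) ^ k := by
        rw [pow_succ' (Pm c m Λ), pow_succ' (Pm c m Λ - Pe c m Λ e), mul_sub, sub_mul]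
        abel
      rw [e1, Matrix.add_mulVec, ← Matrix.mulVec_mulVec, ← Matrix.mulVec_mulVec]
      have e2 : ∀ a b : V → ℝ, ∑ x, m x * (a + b) x = ∑ x, m x * a x + ∑ x, m x * b x := by
        intro a b
        rw [← Finset.sum_add_distrib]
        apply Finset.sum_congr rfl
        intro x _
        rw [Pi.add_apply]
        ring
      rw [e2, WinA_stat c m Λ hN]
      have h2 := WinA_Pe_mass c m Λ hN e
        (((Pm c m Λ - Pe c m Λ e) ^ k).mulVec (fun _ => 1)) (by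
          intro x
          have e3 : (((Pm c m Λ - Pe c m Λ e) ^ k).mulVec (fun _ => 1)) x =
              ∑ y, ((Pm c m Λ - Pe c m Λ e) ^ k) x y * 1 := rfl
          rw [e3]
          calc ∑ y, ((Pm c m Λ - Pe c m Λ e) ^ k) x y * 1 ≤ ∑ y, (Pm c m Λ ^ k) x y := by
                apply Finset.sum_le_sum
                intro y _
                rw [mul_one]
                exact (sub_pow c m Λ hN e k x y).2
            _ = 1 := WinA_row c m Λ hN k x)
      push_cast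
      linarith
  have h := key Λ
  unfold Cm
  refine h.trans (le_of_eq ?_)
  field_simp

end RST.N
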