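import Pool.Agent.Lib.MP_7946c7_pr.N.CEb
import Pool.Agent.Lib.MP_7946c7_pr.N.WinA

/-!
# N/WinB. Probabilities of crossings in windows as products of matrices

PROOFS. `no_win`: `traj_prod` with `M i = P` (`ext_zero`, `ext_last`), `mp_const`.
`one_win`: the indicator of `X ∉ Xw Λ w e` is the product over the steps `i` of the window `w` of the
indicators of `¬ (X i ≠ X (i+1) ∧ s(X i, X (i+1)) = e)`; by `sub_entry` its product with `tw P ω` is
`∏ i, M i (ω i.castSucc) (ω i.succ)`, `M i = P - Pe e` if `w Λ ≤ i < (w+1) Λ` and `P` otherwise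
(`ext_castSucc`). `traj_prod`, `mp_add` twice and `mp_const` give
`E[f (X 0) 1_{not crossed} g (X k)] = ip f (P^(wΛ) (P - Pe)^Λ P^((s-1-w)Λ) g) / tm`; subtract this from
`no_win` (`P^(sΛ) = P^(wΛ) P^Λ P^((s-1-w)Λ)`).
`two_win`: same with two windows `a < b`: `1_{both crossed} = 1 - n_a - n_b + n_a n_b`, `n_a n_b` corresponds
to `M i = P - Pe e` on the window `a`, `P - Pe e'` on the window `b`. The four products of matrices combine to
`P^(aΛ) * Cm e * P^((b-a-1)Λ) * Cm e' * P^((s-1-b)Λ)` (use `mul_sub`, `sub_mul`, `pow_add`).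
-/

open Finset
open scoped Classical

namespace RST.N

variable {V : Type} [Fintype V]

private theorem WinB_gen (c : Sym2 V → ℝ) (m : V → ℝ) (Λ : ℕ) (k : ℕ) (f g : V → ℝ)
    (A : ℕ → V → V → Prop) (M : ℕ → Matrix V V ℝ)
    (hM : ∀ i < k, ∀ x y, M i x y = Pm c m Λ x y * (if A i x y then 0 else 1)) :
    CE c m Λ k (fun X => f (X 0) * (if ∃ i < k, A i (X i) (X (i + 1)) then 0 else 1) * g (X k)) =
      ip m f ((mp M 0 k).mulVec g) / tm m := by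
  unfold CE
  have h1 : ∀ ω : Fin (k + 1) → V, m (ω 0) / tm m * tw (Pm c m Λ) ω *
      (f (ext ω 0) * (if ∃ i < k, A i (ext ω i) (ext ω (i + 1)) then 0 else 1) * g (ext ω k)) =
      (m (ω 0) / tm m * f (ω 0)) * (∏ i : Fin k, M i (ω i.castSucc) (ω i.succ)) *
        g (ω (Fin.last k)) := by
    intro ω
    rw [ext_zero, ext_last]
    have h2 : ∏ i : Fin k, M i (ω i.castSucc) (ω i.succ) =
        tw (Pm c m Λ) ω * (if ∃ i < k, A i (ext ω i) (ext ω (i + 1)) then 0 else 1) := by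
      rw [Finset.prod_congr rfl (fun (i : Fin k) _ => hM i i.2 (ω i.castSucc) (ω i.succ)),
        Finset.prod_mul_distrib]
      unfold tw
      congr 1
      by_cases h : ∃ i < k, A i (ext ω i) (ext ω (i + 1))
      · rw [if_pos h]
        obtain ⟨i, hi, hA⟩ := h
        apply Finset.prod_eq_zero (Finset.mem_univ (⟨i, hi⟩ : Fin k))
        rw [if_pos]
        rw [(ext_castSucc ω ⟨i, hi⟩).1, (ext_castSucc ω ⟨i, hi⟩).2]
        exact hA
      · rw [if_neg h]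
        apply Finset.prod_eq_one
        intro i _
        rw [if_neg]
        intro hA
        apply h
        rw [(ext_castSucc ω i).1, (ext_castSucc ω i).2] at hA
        exact ⟨i, i.2, hA⟩
    rw [h2]
    ring
  rw [Finset.sum_congr rfl (fun ω _ => h1 ω), traj_prod M (fun x => m x / tm m * f x) g k]
  unfold ip
  rw [Finset.sum_div]
  refine Finset.sum_congr rfl (fun x _ => ?_)
  ring

private theorem WinB_ip_sub (m : V → ℝ) (f : V → ℝ) (A B : Matrix V V ℝ) (g : V → ℝ) :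
    ip m f ((A - B).mulVec g) = ip m f (A.mulVec g) - ip m f (B.mulVec g) := by
  rw [Matrix.sub_mulVec]
  unfold ip
  rw [← Finset.sum_sub_distrib]
  refine Finset.sum_congr rfl (fun x _ => ?_)
  rw [Pi.sub_apply]
  ring

private theorem WinB_ip_add (m : V → ℝ) (f : V → ℝ) (A B : Matrix V V ℝ) (g : V → ℝ) :
    ip m f ((A + B).mulVec g) = ip m f (A.mulVec g) + ip m f (B.mulVec g) := by
  rw [Matrix.add_mulVec]
  unfold ip
  rw [← Finset.sum_add_distrib]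
  refine Finset.sum_congr rfl (fun x _ => ?_)
  rw [Pi.add_apply]
  ring

/-- The expectation with the indicator of not crossing in the window `w`. -/
private theorem WinB_not (c : Sym2 V → ℝ) (m : V → ℝ) (Λ : ℕ) (hN : NetOK c m Λ) (w t : ℕ)
    (e : Sym2 V) (f g : V → ℝ) :
    CE c m Λ ((w + 1 + t) * Λ) (fun X => f (X 0) * (if X ∈ Xw Λ w e then 0 else 1) *
      g (X ((w + 1 + t) * Λ))) =
      ip m f ((Pm c m Λ ^ (w * Λ) * (Pm c m Λ - Pe c m Λ e) ^ Λ * Pm c m Λ ^ (t * Λ)).mulVec g) /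
        tm m := by
  have h1 := WinB_gen c m Λ ((w + 1 + t) * Λ) f g
    (fun i x y => (w * Λ ≤ i ∧ i < (w + 1) * Λ) ∧ x ≠ y ∧ s(x, y) = e)
    (fun i => if w * Λ ≤ i ∧ i < (w + 1) * Λ then Pm c m Λ - Pe c m Λ e else Pm c m Λ) ?_
  · have h2 : mp (fun i => if w * Λ ≤ i ∧ i < (w + 1) * Λ then Pm c m Λ - Pe c m Λ e
        else Pm c m Λ) 0 ((w + 1 + t) * Λ) =
        Pm c m Λ ^ (w * Λ) * (Pm c m Λ - Pe c m Λ e) ^ Λ * Pm c m Λ ^ (t * Λ) := by
      have e1 : (w + 1 + t) * Λ = w * Λ + Λ + t * Λ := by ring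
      rw [e1, mp_add, mp_add]
      rw [mp_const _ (Pm c m Λ) 0 (w * Λ), mp_const _ (Pm c m Λ - Pe c m Λ e) (0 + w * Λ) Λ,
        mp_const _ (Pm c m Λ) (0 + (w * Λ + Λ)) (t * Λ)]
      · intro i h3 h4
        rw [if_neg]
        rintro ⟨h5, h6⟩
        have e2 : (w + 1) * Λ = w * Λ + Λ := by ring
        omega
      · intro i h3 h4
        rw [if_pos]
        have e2 : (w + 1) * Λ = w * Λ + Λ := by ring
        omega
      · intro i h3 h4
        rw [if_neg]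
        rintro ⟨h5, h6⟩
        omega
    rw [h2] at h1
    rw [← h1]
    congr 1
    funext X
    congr 2
    have h5 : X ∈ Xw Λ w e ↔ ∃ i < (w + 1 + t) * Λ, (w * Λ ≤ i ∧ i < (w + 1) * Λ) ∧
        X i ≠ X (i + 1) ∧ s(X i, X (i + 1)) = e := by
      constructor
      · rintro ⟨i, h6, h7, h8⟩
        refine ⟨i, lt_of_lt_of_le h7 (Nat.mul_le_mul_right Λ (by omega)), ⟨h6, h7⟩, h8⟩
      · rintro ⟨i, _, ⟨h6, h7⟩, h8⟩
        exact ⟨i, h6, h7, h8⟩
    by_cases h6 : X ∈ Xw Λ w e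
    · rw [if_pos h6, if_pos (h5.1 h6)]
    · rw [if_neg h6, if_neg (fun h7 => h6 (h5.2 h7))]
  · intro i _ x y
    by_cases h3 : w * Λ ≤ i ∧ i < (w + 1) * Λ
    · simp only [if_pos h3]
      rw [sub_entry c m Λ hN e x y]
      congr 1
      by_cases h4 : x ≠ y ∧ s(x, y) = e
      · rw [if_pos h4, if_pos ⟨h3, h4⟩]
      · rw [if_neg h4, if_neg (fun h5 => h4 h5.2)]
    · simp only [if_neg h3]
      rw [if_neg (fun h5 => h3 h5.1), mul_one]

/-- The expectation with the indicator of not crossing in two windows. -/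
private theorem WinB_nott (c : Sym2 V → ℝ) (m : V → ℝ) (Λ : ℕ) (hN : NetOK c m Λ) (a d t : ℕ)
    (e e' : Sym2 V) (f g : V → ℝ) :
    CE c m Λ ((a + 1 + d + 1 + t) * Λ) (fun X => f (X 0) *
      ((if X ∈ Xw Λ a e then 0 else 1) * (if X ∈ Xw Λ (a + 1 + d) e' then 0 else 1)) *
      g (X ((a + 1 + d + 1 + t) * Λ))) =
      ip m f ((Pm c m Λ ^ (a * Λ) * (Pm c m Λ - Pe c m Λ e) ^ Λ * Pm c m Λ ^ (d * Λ) *
        (Pm c m Λ - Pe c m Λ e') ^ Λ * Pm c m Λ ^ (t * Λ)).mulVec g) / tm m := by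
  have e0 : (a + 1) * Λ = a * Λ + Λ := by ring
  have e0' : (a + 1 + d) * Λ = a * Λ + Λ + d * Λ := by ring
  have e0'' : (a + 1 + d + 1) * Λ = a * Λ + Λ + d * Λ + Λ := by ring
  have h1 := WinB_gen c m Λ ((a + 1 + d + 1 + t) * Λ) f g
    (fun i x y => ((a * Λ ≤ i ∧ i < (a + 1) * Λ) ∧ x ≠ y ∧ s(x, y) = e) ∨
      (((a + 1 + d) * Λ ≤ i ∧ i < (a + 1 + d + 1) * Λ) ∧ x ≠ y ∧ s(x, y) = e'))
    (fun i => if a * Λ ≤ i ∧ i < (a + 1) * Λ then Pm c m Λ - Pe c m Λ e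
      else if (a + 1 + d) * Λ ≤ i ∧ i < (a + 1 + d + 1) * Λ then Pm c m Λ - Pe c m Λ e'
      else Pm c m Λ) ?_
  · have h2 : mp (fun i => if a * Λ ≤ i ∧ i < (a + 1) * Λ then Pm c m Λ - Pe c m Λ e
      else if (a + 1 + d) * Λ ≤ i ∧ i < (a + 1 + d + 1) * Λ then Pm c m Λ - Pe c m Λ e'
      else Pm c m Λ) 0 ((a + 1 + d + 1 + t) * Λ) =
        Pm c m Λ ^ (a * Λ) * (Pm c m Λ - Pe c m Λ e) ^ Λ * Pm c m Λ ^ (d * Λ) *
        (Pm c m Λ - Pe c m Λ e') ^ Λ * Pm c m Λ ^ (t * Λ) := by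
      have e1 : (a + 1 + d + 1 + t) * Λ = a * Λ + Λ + d * Λ + Λ + t * Λ := by ring
      rw [e1, mp_add, mp_add, mp_add, mp_add]
      rw [mp_const _ (Pm c m Λ) 0 (a * Λ), mp_const _ (Pm c m Λ - Pe c m Λ e) (0 + a * Λ) Λ,
        mp_const _ (Pm c m Λ) (0 + (a * Λ + Λ)) (d * Λ),
        mp_const _ (Pm c m Λ - Pe c m Λ e') (0 + (a * Λ + Λ + d * Λ)) Λ,
        mp_const _ (Pm c m Λ) (0 + (a * Λ + Λ + d * Λ + Λ)) (t * Λ)]
      · intro i h3 h4
        rw [if_neg, if_neg]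
        · rintro ⟨h5, h6⟩
          omega
        · rintro ⟨h5, h6⟩
          omega
      · intro i h3 h4
        rw [if_neg, if_pos]
        · constructor <;> omega
        · rintro ⟨h5, h6⟩
          omega
      · intro i h3 h4
        rw [if_neg, if_neg]
        · rintro ⟨h5, h6⟩
          omega
        · rintro ⟨h5, h6⟩
          omega
      · intro i h3 h4
        rw [if_pos]
        constructor <;> omega
      · intro i h3 h4
        rw [if_neg, if_neg]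
        · rintro ⟨h5, h6⟩
          omega
        · rintro ⟨h5, h6⟩
          omega
    rw [h2] at h1
    rw [← h1]
    congr 1
    funext X
    congr 2
    have h5 : (X ∈ Xw Λ a e ∨ X ∈ Xw Λ (a + 1 + d) e') ↔ ∃ i < (a + 1 + d + 1 + t) * Λ,
        ((a * Λ ≤ i ∧ i < (a + 1) * Λ) ∧ X i ≠ X (i + 1) ∧ s(X i, X (i + 1)) = e) ∨
        (((a + 1 + d) * Λ ≤ i ∧ i < (a + 1 + d + 1) * Λ) ∧ X i ≠ X (i + 1) ∧
          s(X i, X (i + 1)) = e') := by
      constructor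
      · rintro (⟨i, h6, h7, h8⟩ | ⟨i, h6, h7, h8⟩)
        · exact ⟨i, lt_of_lt_of_le h7 (Nat.mul_le_mul_right Λ (by omega)),
            Or.inl ⟨⟨h6, h7⟩, h8⟩⟩
        · exact ⟨i, lt_of_lt_of_le h7 (Nat.mul_le_mul_right Λ (by omega)),
            Or.inr ⟨⟨h6, h7⟩, h8⟩⟩
      · rintro ⟨i, _, ⟨⟨h6, h7⟩, h8⟩ | ⟨⟨h6, h7⟩, h8⟩⟩
        · exact Or.inl ⟨i, h6, h7, h8⟩
        · exact Or.inr ⟨i, h6, h7, h8⟩
    by_cases h6 : X ∈ Xw Λ a e
    · rw [if_pos h6, if_pos (h5.1 (Or.inl h6)), zero_mul]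
    · by_cases h7 : X ∈ Xw Λ (a + 1 + d) e'
      · rw [if_neg h6, if_pos h7, if_pos (h5.1 (Or.inr h7)), mul_zero]
      · rw [if_neg h6, if_neg h7, if_neg, one_mul]
        intro h8
        rcases h5.2 h8 with h9 | h9
        · exact h6 h9
        · exact h7 h9
  · intro i _ x y
    by_cases h3 : a * Λ ≤ i ∧ i < (a + 1) * Λ
    · have h3' : ¬ ((a + 1 + d) * Λ ≤ i ∧ i < (a + 1 + d + 1) * Λ) := by
        rintro ⟨h5, h6⟩
        omega
      simp only [if_pos h3]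
      rw [sub_entry c m Λ hN e x y]
      congr 1
      by_cases h4 : x ≠ y ∧ s(x, y) = e
      · rw [if_pos h4, if_pos (Or.inl ⟨h3, h4⟩)]
      · rw [if_neg h4, if_neg]
        rintro (h5 | h5)
        · exact h4 h5.2
        · exact h3' h5.1
    · by_cases h3' : (a + 1 + d) * Λ ≤ i ∧ i < (a + 1 + d + 1) * Λ
      · simp only [if_neg h3, if_pos h3']
        rw [sub_entry c m Λ hN e' x y]
        congr 1
        by_cases h4 : x ≠ y ∧ s(x, y) = e'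
        · rw [if_pos h4, if_pos (Or.inr ⟨h3', h4⟩)]
        · rw [if_neg h4, if_neg]
          rintro (h5 | h5)
          · exact h3 h5.1
          · exact h4 h5.2
      · simp only [if_neg h3, if_neg h3']
        rw [if_neg, mul_one]
        rintro (h5 | h5)
        · exact h3 h5.1
        · exact h3' h5.1

theorem no_win (c : Sym2 V → ℝ) (m : V → ℝ) (Λ : ℕ) (k : ℕ) (f g : V → ℝ) :
    CE c m Λ k (fun X => f (X 0) * g (X k)) = ip m f ((Pm c m Λ ^ k).mulVec g) / tm m := by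
  have h1 := WinB_gen c m Λ k f g (fun _ _ _ => False) (fun _ => Pm c m Λ) (by
    intro i _ x y
    rw [if_neg not_false, mul_one])
  rw [mp_const _ (Pm c m Λ) 0 k (fun i _ _ => rfl)] at h1
  rw [← h1]
  congr 1
  funext X
  rw [if_neg, mul_one]
  rintro ⟨i, _, h⟩
  exact h

theorem one_win (c : Sym2 V → ℝ) (m : V → ℝ) (Λ : ℕ) (hN : NetOK c m Λ) (s w : ℕ) (hw : w < s)
    (e : Sym2 V) (f g : V → ℝ) :
    CE c m Λ (s * Λ) (fun X => f (X 0) * (if X ∈ Xw Λ w e then 1 else 0) * g (X (s * Λ))) =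
      ip m f ((Pm c m Λ ^ (w * Λ) * Cm c m Λ e * Pm c m Λ ^ ((s - 1 - w) * Λ)).mulVec g) /
        tm m := by
  obtain ⟨t, rfl⟩ : ∃ t, s = w + 1 + t := ⟨s - w - 1, by omega⟩
  have e1 : w + 1 + t - 1 - w = t := by omega
  rw [e1]
  have h1 := WinB_not c m Λ hN w t e f g
  have h2 := no_win c m Λ ((w + 1 + t) * Λ) f g
  have h3 : (fun X : ℕ → V => f (X 0) * (if X ∈ Xw Λ w e then (1 : ℝ) else 0) *
      g (X ((w + 1 + t) * Λ))) = fun X => f (X 0) * g (X ((w + 1 + t) * Λ)) +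
      (-1) * (f (X 0) * (if X ∈ Xw Λ w e then (0 : ℝ) else 1) * g (X ((w + 1 + t) * Λ))) := by
    funext X
    by_cases h : X ∈ Xw Λ w e
    · rw [if_pos h, if_pos h]
      ring
    · rw [if_neg h, if_neg h]
      ring
  rw [h3, CE_add c m Λ ((w + 1 + t) * Λ) (fun X => f (X 0) * g (X ((w + 1 + t) * Λ)))
    (fun X => (-1) * (f (X 0) * (if X ∈ Xw Λ w e then (0 : ℝ) else 1) *
      g (X ((w + 1 + t) * Λ)))), CE_smul c m Λ ((w + 1 + t) * Λ) (-1)
    (fun X => f (X 0) * (if X ∈ Xw Λ w e then (0 : ℝ) else 1) * g (X ((w + 1 + t) * Λ))), h1, h2]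
  have h4 : Pm c m Λ ^ (w * Λ) * Cm c m Λ e * Pm c m Λ ^ (t * Λ) =
      Pm c m Λ ^ ((w + 1 + t) * Λ) -
        Pm c m Λ ^ (w * Λ) * (Pm c m Λ - Pe c m Λ e) ^ Λ * Pm c m Λ ^ (t * Λ) := by
    have e2 : (w + 1 + t) * Λ = w * Λ + Λ + t * Λ := by ring
    rw [e2, pow_add, pow_add]
    unfold Cm
    rw [mul_sub, sub_mul]
  rw [h4, WinB_ip_sub]
  ring

theorem two_win (c : Sym2 V → ℝ) (m : V → ℝ) (Λ : ℕ) (hN : NetOK c m Λ) (s a b : ℕ) (hab : a < b)
    (hb : b < s) (e e' : Sym2 V) :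
    CP c m Λ (s * Λ) (Xw Λ a e ∩ Xw Λ b e') =
      ip m (fun _ => 1) ((Pm c m Λ ^ (a * Λ) * Cm c m Λ e * Pm c m Λ ^ ((b - a - 1) * Λ) *
        Cm c m Λ e' * Pm c m Λ ^ ((s - 1 - b) * Λ)).mulVec fun _ => 1) / tm m := by
  obtain ⟨d, rfl⟩ : ∃ d, b = a + 1 + d := ⟨b - a - 1, by omega⟩
  obtain ⟨t, rfl⟩ : ∃ t, s = a + 1 + d + 1 + t := ⟨s - (a + 1 + d) - 1, by omega⟩
  have e1 : a + 1 + d + 1 + t - 1 - (a + 1 + d) = t := by omega
  have e2 : a + 1 + d - a - 1 = d := by omega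
  rw [e1, e2]
  set k : ℕ := (a + 1 + d + 1 + t) * Λ with hk
  have h0 := no_win c m Λ k (fun _ => 1) (fun _ => 1)
  have ha : CE c m Λ k (fun X => (fun _ => (1 : ℝ)) (X 0) * (if X ∈ Xw Λ a e then 0 else 1) *
      (fun _ => (1 : ℝ)) (X k)) = ip m (fun _ => 1) ((Pm c m Λ ^ (a * Λ) *
        (Pm c m Λ - Pe c m Λ e) ^ Λ * Pm c m Λ ^ ((d + 1 + t) * Λ)).mulVec (fun _ => 1)) /
        tm m := by
    have h := WinB_not c m Λ hN a (d + 1 + t) e (fun _ => 1) (fun _ => 1)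
    have e3 : a + 1 + (d + 1 + t) = a + 1 + d + 1 + t := by ring
    rw [e3, ← hk] at h
    exact h
  have hb' := WinB_not c m Λ hN (a + 1 + d) t e' (fun _ => 1) (fun _ => 1)
  have hab' := WinB_nott c m Λ hN a d t e e' (fun _ => 1) (fun _ => 1)
  rw [← hk] at hb' hab'
  have h3 : CP c m Λ k (Xw Λ a e ∩ Xw Λ (a + 1 + d) e') = CE c m Λ k (fun X =>
      ((fun _ => (1 : ℝ)) (X 0) * (fun _ => (1 : ℝ)) (X k) +
        (-1) * ((fun _ => (1 : ℝ)) (X 0) * (if X ∈ Xw Λ a e then 0 else 1) *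
          (fun _ => (1 : ℝ)) (X k))) +
        ((-1) * ((fun _ => (1 : ℝ)) (X 0) * (if X ∈ Xw Λ (a + 1 + d) e' then 0 else 1) *
          (fun _ => (1 : ℝ)) (X k)) +
        (fun _ => (1 : ℝ)) (X 0) * ((if X ∈ Xw Λ a e then 0 else 1) *
          (if X ∈ Xw Λ (a + 1 + d) e' then 0 else 1)) * (fun _ => (1 : ℝ)) (X k))) := by
    unfold CP
    congr 1
    funext X
    by_cases h : X ∈ Xw Λ a e
    · by_cases h' : X ∈ Xw Λ (a + 1 + d) e'
      · rw [if_pos (show X ∈ Xw Λ a e ∩ Xw Λ (a + 1 + d) e' from ⟨h, h'⟩), if_pos h, if_pos h']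
        norm_num
      · rw [if_neg (show X ∉ Xw Λ a e ∩ Xw Λ (a + 1 + d) e' from fun h'' => h' h''.2), if_pos h,
          if_neg h']
        norm_num
    · by_cases h' : X ∈ Xw Λ (a + 1 + d) e'
      · rw [if_neg (show X ∉ Xw Λ a e ∩ Xw Λ (a + 1 + d) e' from fun h'' => h h''.1), if_neg h,
          if_pos h']
        norm_num
      · rw [if_neg (show X ∉ Xw Λ a e ∩ Xw Λ (a + 1 + d) e' from fun h'' => h h''.1), if_neg h,
          if_neg h']
        norm_num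
  rw [h3]
  rw [CE_add c m Λ k (fun X => (fun _ => (1 : ℝ)) (X 0) * (fun _ => (1 : ℝ)) (X k) +
        (-1) * ((fun _ => (1 : ℝ)) (X 0) * (if X ∈ Xw Λ a e then 0 else 1) *
          (fun _ => (1 : ℝ)) (X k)))
    (fun X => (-1) * ((fun _ => (1 : ℝ)) (X 0) * (if X ∈ Xw Λ (a + 1 + d) e' then 0 else 1) *
          (fun _ => (1 : ℝ)) (X k)) +
        (fun _ => (1 : ℝ)) (X 0) * ((if X ∈ Xw Λ a e then 0 else 1) *
          (if X ∈ Xw Λ (a + 1 + d) e' then 0 else 1)) * (fun _ => (1 : ℝ)) (X k)),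
    CE_add c m Λ k (fun X => (fun _ => (1 : ℝ)) (X 0) * (fun _ => (1 : ℝ)) (X k))
      (fun X => (-1) * ((fun _ => (1 : ℝ)) (X 0) * (if X ∈ Xw Λ a e then 0 else 1) *
          (fun _ => (1 : ℝ)) (X k))),
    CE_add c m Λ k (fun X => (-1) * ((fun _ => (1 : ℝ)) (X 0) *
        (if X ∈ Xw Λ (a + 1 + d) e' then 0 else 1) * (fun _ => (1 : ℝ)) (X k)))
      (fun X => (fun _ => (1 : ℝ)) (X 0) * ((if X ∈ Xw Λ a e then 0 else 1) *
          (if X ∈ Xw Λ (a + 1 + d) e' then 0 else 1)) * (fun _ => (1 : ℝ)) (X k)),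
    CE_smul c m Λ k (-1) (fun X => (fun _ => (1 : ℝ)) (X 0) * (if X ∈ Xw Λ a e then 0 else 1) *
          (fun _ => (1 : ℝ)) (X k)),
    CE_smul c m Λ k (-1) (fun X => (fun _ => (1 : ℝ)) (X 0) *
        (if X ∈ Xw Λ (a + 1 + d) e' then 0 else 1) * (fun _ => (1 : ℝ)) (X k)),
    h0, ha, hb', hab']
  have h4 : Pm c m Λ ^ (a * Λ) * Cm c m Λ e * Pm c m Λ ^ (d * Λ) * Cm c m Λ e' *
      Pm c m Λ ^ (t * Λ) =
      ((Pm c m Λ ^ k - Pm c m Λ ^ (a * Λ) * (Pm c m Λ - Pe c m Λ e) ^ Λ *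
        Pm c m Λ ^ ((d + 1 + t) * Λ)) - Pm c m Λ ^ ((a + 1 + d) * Λ) *
        (Pm c m Λ - Pe c m Λ e') ^ Λ * Pm c m Λ ^ (t * Λ)) +
      Pm c m Λ ^ (a * Λ) * (Pm c m Λ - Pe c m Λ e) ^ Λ * Pm c m Λ ^ (d * Λ) *
        (Pm c m Λ - Pe c m Λ e') ^ Λ * Pm c m Λ ^ (t * Λ) := by
    have e3 : k = a * Λ + Λ + d * Λ + Λ + t * Λ := by
      rw [hk]
      ring
    have e4 : (d + 1 + t) * Λ = d * Λ + Λ + t * Λ := by ring
    have e5 : (a + 1 + d) * Λ = a * Λ + Λ + d * Λ := by ring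
    rw [e3, e4, e5]
    simp only [pow_add]
    unfold Cm
    generalize Pm c m Λ ^ (a * Λ) = X
    generalize Pm c m Λ ^ (d * Λ) = Y
    generalize Pm c m Λ ^ (t * Λ) = Z
    generalize (Pm c m Λ - Pe c m Λ e) ^ Λ = Q
    generalize (Pm c m Λ - Pe c m Λ e') ^ Λ = Q'
    generalize Pm c m Λ ^ Λ = L
    noncomm_ring
  rw [h4, WinB_ip_add, WinB_ip_sub, WinB_ip_sub]
  ring

end RST.N
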