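import Pool.Agent.Lib.MP_7946c7_pr.N.SpecC
import Pool.Agent.Lib.MP_7946c7_pr.N.WinB

/-!
# N/WinC. Bounds for the crossings in windows

Write `M = tm m > 0`, `ρ = 1 - lam / Λ`, `K e = Cm e 1` (values in `[0, 1]`, `∑ m K e ≤ 2 c e`, so
`ip (K e) (K e) ≤ M`).
PROOFS. `win_start`: `one_win` with `f = 1_r`, `g = 1`: `P^(..) 1 = 1` (`pow_one_vec`), so the value is
`ip 1_r (P^(wΛ) (K e)) / M ≤ (m r * 2 c e / M + ρ^(wΛ) sqrt (m r) sqrt M) / M` (`pow_mean`) and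
`m r ≤ M`, `ρ^(wΛ) ≤ exp (-lam w) ≤ exp (-lam τ)` (`rho_pow`).
`win_end`: `one_win` with `f = 1`, `g = 1_r`; by `ip_adj` (`Pm_symm`, `pow_symm`, `Cm_symm`) and `P^(wΛ) 1 = 1`
the value is `ip (P^(jΛ) (K e)) 1_r / M = ip 1_r (P^(jΛ) (K e)) / M`, `j = s - 1 - w ≥ τ`. As before.
`win_pair`: `two_win`; by `P^.. 1 = 1` and the symmetries the value is
`ip (K e) (P^((b-a-1)Λ) (K e')) / M ≤ (2 c e * 2 c e' / M + ρ^((b-a-1)Λ) M) / M`, `b - a - 1 ≥ τ - 1`.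
`win_any`: the indicator is at most the number of steps `i < sΛ` with `X i ≠ X (i+1)`,
`s(X i, X (i+1)) ∈ E₀`; `cross_exp` with `k = s Λ`.
`ret_prob`: `P (X 0 = X k) = ∑_x CE (1_x (X 0) 1_x (X k)) = ∑_x ip 1_x (P^k 1_x) / M` (`no_win`) `≤
∑_x (m x ^ 2 / M + ρ^(sΛ) m x) / M`.
-/

open Finset
open scoped Classical

namespace RST.N

variable {V : Type} [Fintype V]

private noncomputable def WinC_one (r : V) : V → ℝ := fun x => if x = r then 1 else 0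

private theorem WinC_sum (m : V → ℝ) (r : V) : ∑ x, m x * WinC_one r x = m r := by
  unfold WinC_one
  simp

private theorem WinC_ip (m : V → ℝ) (r : V) : ip m (WinC_one r) (WinC_one r) = m r := by
  unfold ip WinC_one
  simp

private theorem WinC_m_le (m : V → ℝ) (hm : ∀ x, 0 < m x) (r : V) : m r ≤ tm m := by
  unfold tm
  exact Finset.single_le_sum (f := m) (fun x _ => (hm x).le) (Finset.mem_univ r)

private theorem WinC_pow_one (c : Sym2 V → ℝ) (m : V → ℝ) (Λ : ℕ) (hN : NetOK c m Λ) (k : ℕ) :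
    (Pm c m Λ ^ k).mulVec (fun _ => (1 : ℝ)) = fun _ => 1 :=
  pow_one_vec (Pm c m Λ) (Pm_row c m Λ hN) k

private theorem WinC_ip_pow (c : Sym2 V → ℝ) (m : V → ℝ) (Λ : ℕ) (hN : NetOK c m Λ) (k : ℕ)
    (u : V → ℝ) :
    ip m (fun _ => 1) ((Pm c m Λ ^ k).mulVec u) = ip m (fun _ => 1) u := by
  rw [ip_adj m _ (pow_symm m _ (Pm_symm c m Λ hN) k), WinC_pow_one c m Λ hN]

/-- The function `K e`. -/
private noncomputable def WinC_K (c : Sym2 V → ℝ) (m : V → ℝ) (Λ : ℕ) (e : Sym2 V) : V → ℝ :=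
  (Cm c m Λ e).mulVec (fun _ => 1)

private theorem WinC_K_ip (c : Sym2 V → ℝ) (m : V → ℝ) (Λ : ℕ) (hN : NetOK c m Λ) (e : Sym2 V) :
    ip m (WinC_K c m Λ e) (WinC_K c m Λ e) ≤ tm m := by
  unfold ip tm
  apply Finset.sum_le_sum
  intro x _
  obtain ⟨h0, h1⟩ := Cm_one c m Λ hN e x
  have h2 : WinC_K c m Λ e x * WinC_K c m Λ e x ≤ 1 := by
    unfold WinC_K
    nlinarith
  have := mul_le_mul_of_nonneg_left h2 (hN.m_pos x).le
  linarith

private theorem WinC_K_sum (c : Sym2 V → ℝ) (m : V → ℝ) (Λ : ℕ) (hN : NetOK c m Λ) (e : Sym2 V) :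
    0 ≤ ∑ x, m x * WinC_K c m Λ e x ∧ ∑ x, m x * WinC_K c m Λ e x ≤ 2 * c e := by
  constructor
  · exact Finset.sum_nonneg fun x _ => mul_nonneg (hN.m_pos x).le (Cm_one c m Λ hN e x).1
  · exact Cm_mass c m Λ hN e

private theorem WinC_gen [Nonempty V] (c : Sym2 V → ℝ) (m : V → ℝ) (Λ : ℕ) (hN : NetOK c m Λ)
    (lam : ℝ) (hlam : lam ≤ Λ) (h0 : 0 ≤ lam)
    (hgap : ∀ f : V → ℝ, ∑ x, m x * f x = 0 → lam * ∑ x, m x * f x ^ 2 ≤ Dir c f)
    (f g : V → ℝ) (F G : ℝ) (hF0 : 0 ≤ ∑ x, m x * f x) (hF : ∑ x, m x * f x ≤ F)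
    (hG0 : 0 ≤ ∑ x, m x * g x) (hG : ∑ x, m x * g x ≤ G) (hf : ip m f f ≤ tm m)
    (hg : ip m g g ≤ tm m) (j : ℕ) (t : ℝ) (ht : t ≤ j) :
    ip m f ((Pm c m Λ ^ (j * Λ)).mulVec g) / tm m ≤ F * G / tm m ^ 2 + Real.exp (-lam * t) := by
  have hM : 0 < tm m := tm_pos m hN.m_pos
  have h1 := pow_mean c m Λ hN lam hlam hgap f g (j * Λ)
  have h2 := rho_pow lam Λ hN.one_le hlam h0 j
  have h3 : Real.sqrt (ip m f f) * Real.sqrt (ip m g g) ≤ tm m := by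
    calc Real.sqrt (ip m f f) * Real.sqrt (ip m g g) ≤ Real.sqrt (tm m) * Real.sqrt (tm m) :=
          mul_le_mul (Real.sqrt_le_sqrt hf) (Real.sqrt_le_sqrt hg) (Real.sqrt_nonneg _)
            (Real.sqrt_nonneg _)
      _ = tm m := Real.mul_self_sqrt hM.le
  have h4 : Real.exp (-lam * j) ≤ Real.exp (-lam * t) := by
    apply Real.exp_le_exp.mpr
    have := mul_le_mul_of_nonneg_left ht h0
    linarith
  have hΛ : (0 : ℝ) < Λ := by
    have := hN.one_le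
    exact_mod_cast this
  have h5 : (1 - lam / Λ) ^ (j * Λ) * (Real.sqrt (ip m f f) * Real.sqrt (ip m g g)) ≤
      Real.exp (-lam * t) * tm m := by
    apply mul_le_mul (h2.trans h4) h3 (mul_nonneg (Real.sqrt_nonneg _) (Real.sqrt_nonneg _))
      (Real.exp_pos _).le
  have h6 : (∑ x, m x * f x) * (∑ x, m x * g x) / tm m ≤ F * G / tm m := by
    apply div_le_div_of_nonneg_right _ hM.le
    exact mul_le_mul hF hG hG0 (hF0.trans hF)
  rw [div_le_iff₀ hM]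
  have h7 : (F * G / tm m ^ 2 + Real.exp (-lam * t)) * tm m =
      F * G / tm m + Real.exp (-lam * t) * tm m := by
    field_simp
  rw [h7]
  linarith

theorem win_start [Nonempty V] (c : Sym2 V → ℝ) (m : V → ℝ) (Λ : ℕ) (hN : NetOK c m Λ)
    (lam : ℝ) (hlam : lam ≤ Λ) (h0 : 0 ≤ lam)
    (hgap : ∀ f : V → ℝ, ∑ x, m x * f x = 0 → lam * ∑ x, m x * f x ^ 2 ≤ Dir c f)
    (s w τ : ℕ) (hw : w < s) (hτ : τ ≤ w) (r : V) (e : Sym2 V) :
    CP c m Λ (s * Λ) {X | X 0 = r ∧ X ∈ Xw Λ w e} ≤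
      2 * m r * c e / tm m ^ 2 + Real.exp (-lam * τ) := by
  have h1 := one_win c m Λ hN s w hw e (WinC_one r) (fun _ => 1)
  have h2 : CP c m Λ (s * Λ) {X | X 0 = r ∧ X ∈ Xw Λ w e} =
      CE c m Λ (s * Λ) (fun X => WinC_one r (X 0) * (if X ∈ Xw Λ w e then 1 else 0) *
        (fun _ => (1 : ℝ)) (X (s * Λ))) := by
    unfold CP
    congr 1
    funext X
    unfold WinC_one
    by_cases ha : X 0 = r <;> by_cases hb : X ∈ Xw Λ w e <;> simp [ha, hb]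
  rw [h2, h1, ← Matrix.mulVec_mulVec, WinC_pow_one c m Λ hN, ← Matrix.mulVec_mulVec]
  have h3 := WinC_gen c m Λ hN lam hlam h0 hgap (WinC_one r) (WinC_K c m Λ e) (m r) (2 * c e)
    (by rw [WinC_sum]; exact (hN.m_pos r).le) (WinC_sum m r).le (WinC_K_sum c m Λ hN e).1
    (WinC_K_sum c m Λ hN e).2 (by rw [WinC_ip]; exact WinC_m_le m hN.m_pos r)
    (WinC_K_ip c m Λ hN e) w (τ : ℝ) (by exact_mod_cast hτ)
  refine h3.trans (le_of_eq ?_)
  ring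

theorem win_end [Nonempty V] (c : Sym2 V → ℝ) (m : V → ℝ) (Λ : ℕ) (hN : NetOK c m Λ)
    (lam : ℝ) (hlam : lam ≤ Λ) (h0 : 0 ≤ lam)
    (hgap : ∀ f : V → ℝ, ∑ x, m x * f x = 0 → lam * ∑ x, m x * f x ^ 2 ≤ Dir c f)
    (s w τ : ℕ) (hτ : w + τ + 1 ≤ s) (r : V) (e : Sym2 V) :
    CP c m Λ (s * Λ) {X | X (s * Λ) = r ∧ X ∈ Xw Λ w e} ≤
      2 * m r * c e / tm m ^ 2 + Real.exp (-lam * τ) := by
  have h1 := one_win c m Λ hN s w (by omega) e (fun _ => 1) (WinC_one r)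
  have h2 : CP c m Λ (s * Λ) {X | X (s * Λ) = r ∧ X ∈ Xw Λ w e} =
      CE c m Λ (s * Λ) (fun X => (fun _ => (1 : ℝ)) (X 0) * (if X ∈ Xw Λ w e then 1 else 0) *
        WinC_one r (X (s * Λ))) := by
    unfold CP
    congr 1
    funext X
    unfold WinC_one
    by_cases ha : X (s * Λ) = r <;> by_cases hb : X ∈ Xw Λ w e <;> simp [ha, hb]
  rw [h2, h1, ← Matrix.mulVec_mulVec, ← Matrix.mulVec_mulVec, WinC_ip_pow c m Λ hN,
    ip_adj m _ (Cm_symm c m Λ hN e)]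
  have hj : τ ≤ s - 1 - w := by omega
  have h3 := WinC_gen c m Λ hN lam hlam h0 hgap (WinC_K c m Λ e) (WinC_one r) (2 * c e) (m r)
    (WinC_K_sum c m Λ hN e).1 (WinC_K_sum c m Λ hN e).2
    (by rw [WinC_sum]; exact (hN.m_pos r).le) (WinC_sum m r).le
    (WinC_K_ip c m Λ hN e) (by rw [WinC_ip]; exact WinC_m_le m hN.m_pos r) (s - 1 - w) (τ : ℝ)
    (by exact_mod_cast hj)
  refine h3.trans (le_of_eq ?_)
  ring

theorem win_pair [Nonempty V] (c : Sym2 V → ℝ) (m : V → ℝ) (Λ : ℕ) (hN : NetOK c m Λ)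
    (lam : ℝ) (hlam : lam ≤ Λ) (h0 : 0 ≤ lam)
    (hgap : ∀ f : V → ℝ, ∑ x, m x * f x = 0 → lam * ∑ x, m x * f x ^ 2 ≤ Dir c f)
    (s a b τ : ℕ) (hτ : 1 ≤ τ) (hab : a + τ ≤ b) (hb : b < s) (e e' : Sym2 V) :
    CP c m Λ (s * Λ) (Xw Λ a e ∩ Xw Λ b e') ≤
      4 * (c e * c e') / tm m ^ 2 + Real.exp (-lam * (τ - 1)) := by
  rw [two_win c m Λ hN s a b (by omega) hb e e', ← Matrix.mulVec_mulVec, WinC_pow_one c m Λ hN,
    ← Matrix.mulVec_mulVec, ← Matrix.mulVec_mulVec, ← Matrix.mulVec_mulVec,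
    WinC_ip_pow c m Λ hN, ip_adj m _ (Cm_symm c m Λ hN e)]
  have hj : τ ≤ (b - a - 1) + 1 := by omega
  have h3 := WinC_gen c m Λ hN lam hlam h0 hgap (WinC_K c m Λ e) (WinC_K c m Λ e') (2 * c e)
    (2 * c e') (WinC_K_sum c m Λ hN e).1 (WinC_K_sum c m Λ hN e).2
    (WinC_K_sum c m Λ hN e').1 (WinC_K_sum c m Λ hN e').2
    (WinC_K_ip c m Λ hN e) (WinC_K_ip c m Λ hN e') (b - a - 1) ((τ : ℝ) - 1)
    (by
      have : (τ : ℝ) ≤ ((b - a - 1 : ℕ) : ℝ) + 1 := by exact_mod_cast hj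
      linarith)
  refine h3.trans (le_of_eq ?_)
  ring

theorem win_any [Nonempty V] (c : Sym2 V → ℝ) (m : V → ℝ) (Λ : ℕ) (hN : NetOK c m Λ) (s : ℕ)
    (E₀ : Finset (Sym2 V)) :
    CP c m Λ (s * Λ) {X | ∃ w < s, ∃ e ∈ E₀, X ∈ Xw Λ w e} ≤ 2 * s * (∑ e ∈ E₀, c e) / tm m := by
  have hΛ : (0 : ℝ) < Λ := by
    have := hN.one_le
    exact_mod_cast this
  have hM : 0 < tm m := tm_pos m hN.m_pos
  have h1 := cross_exp c m Λ (s * Λ) hN E₀
  have h2 : CP c m Λ (s * Λ) {X | ∃ w < s, ∃ e ∈ E₀, X ∈ Xw Λ w e} ≤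
      CE c m Λ (s * Λ) (fun X => (((range (s * Λ)).filter fun i =>
        X i ≠ X (i + 1) ∧ s(X i, X (i + 1)) ∈ E₀).card : ℝ)) := by
    unfold CP
    apply CE_mono c m Λ (s * Λ) hN
    intro X
    by_cases h : X ∈ {X : ℕ → V | ∃ w < s, ∃ e ∈ E₀, X ∈ Xw Λ w e}
    · rw [if_pos h]
      obtain ⟨w, hw, e, he, i, hi1, hi2, hi3, hi4⟩ := h
      have hmem : i ∈ (range (s * Λ)).filter fun i =>
          X i ≠ X (i + 1) ∧ s(X i, X (i + 1)) ∈ E₀ := by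
        rw [Finset.mem_filter, Finset.mem_range]
        refine ⟨?_, hi3, ?_⟩
        · have : (w + 1) * Λ ≤ s * Λ := Nat.mul_le_mul_right Λ hw
          omega
        · rw [hi4]
          exact he
      have := Finset.card_pos.mpr ⟨i, hmem⟩
      exact_mod_cast this
    · rw [if_neg h]
      exact Nat.cast_nonneg _
  refine h2.trans (h1.trans (le_of_eq ?_))
  push_cast
  field_simp

theorem ret_prob [Nonempty V] (c : Sym2 V → ℝ) (m : V → ℝ) (Λ : ℕ) (hN : NetOK c m Λ)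
    (lam : ℝ) (hlam : lam ≤ Λ) (h0 : 0 ≤ lam)
    (hgap : ∀ f : V → ℝ, ∑ x, m x * f x = 0 → lam * ∑ x, m x * f x ^ 2 ≤ Dir c f) (s : ℕ) :
    CP c m Λ (s * Λ) {X | X 0 = X (s * Λ)} ≤
      (∑ x, m x ^ 2) / tm m ^ 2 + Real.exp (-lam * s) := by
  have hΛ : (0 : ℝ) < Λ := by
    have := hN.one_le
    exact_mod_cast this
  have hM : 0 < tm m := tm_pos m hN.m_pos
  have h1 : CP c m Λ (s * Λ) {X | X 0 = X (s * Λ)} =
      ∑ x, CE c m Λ (s * Λ) (fun X => WinC_one x (X 0) * WinC_one x (X (s * Λ))) := by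
    rw [← CE_sum]
    unfold CP
    congr 1
    funext X
    unfold WinC_one
    by_cases h : X 0 = X (s * Λ)
    · rw [if_pos (show X ∈ {X : ℕ → V | X 0 = X (s * Λ)} from h),
        Finset.sum_eq_single (X 0)]
      · rw [← h]
        simp
      · intro x _ hx
        rw [if_neg (Ne.symm hx), zero_mul]
      · intro hx
        exact absurd (Finset.mem_univ _) hx
    · rw [if_neg (show X ∉ {X : ℕ → V | X 0 = X (s * Λ)} from h)]
      symm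
      apply Finset.sum_eq_zero
      intro x _
      by_cases hx : X 0 = x
      · rw [if_neg (show X (s * Λ) ≠ x from fun h2 => h (hx.trans h2.symm)), mul_zero]
      · rw [if_neg hx, zero_mul]
  have h2 : ∀ x, CE c m Λ (s * Λ) (fun X => WinC_one x (X 0) * WinC_one x (X (s * Λ))) ≤
      m x ^ 2 / tm m ^ 2 + Real.exp (-lam * s) * (m x / tm m) := by
    intro x
    rw [no_win]
    have h3 := pow_mean c m Λ hN lam hlam hgap (WinC_one x) (WinC_one x) (s * Λ)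
    rw [WinC_sum, WinC_ip, Real.mul_self_sqrt (hN.m_pos x).le] at h3
    have h4 := rho_pow lam Λ hN.one_le hlam h0 s
    have h5 := mul_le_mul_of_nonneg_right h4 (hN.m_pos x).le
    rw [div_le_iff₀ hM]
    have h6 : (m x ^ 2 / tm m ^ 2 + Real.exp (-lam * s) * (m x / tm m)) * tm m =
        m x * m x / tm m + Real.exp (-lam * s) * m x := by
      field_simp
    rw [h6]
    linarith
  rw [h1]
  refine (Finset.sum_le_sum fun x _ => h2 x).trans (le_of_eq ?_)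
  rw [Finset.sum_add_distrib, ← Finset.sum_div, ← Finset.mul_sum, ← Finset.sum_div]
  have : ∑ x, m x = tm m := rfl
  rw [this, div_self hM.ne', mul_one]

end RST.N
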