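import Pool.Agent.Lib.MP_7946c7_pr.N.JEb
import Pool.Agent.Lib.MP_7946c7_pr.N.JEe
import Pool.Agent.Lib.MP_7946c7_pr.N.LowDet
import Pool.Agent.Lib.MP_7946c7_pr.N.WinC

/-!
# N/Low. Theorem L (lower bound)

PROOF. `exists_netOK` gives `Λ` with `lam ≤ Λ`; `k = s * Λ`, `M = tm m > 0`. `A := {T | ∀ γ ℓ, IsSAW T.Adj γ ℓ → ℓ < M}`,
`PT c A = JP (gof (piN X π k) ∈ A)` (`JP_end`). `JP_union_list` with the events
(1) `gof (piN X π k) ∈ Gᶜ`: `≤ ε₁` (`JP_end`). (2) `X 0 ∉ R`, (3) `X k ∉ R`: each `≤ ε₂` (`JP_chain`, `CE_one`).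
(4) `X 0 = X k`: `≤ ε₃ + exp (-lam s) ≤ ε₃ + exp (-lam (τ - 1))` (`ret_prob`, `h3`, `hs : τ ≤ s`).
(5) some edge of `E₀` is crossed in a window `< s`: `≤ 2 s ∑_{E₀} c / M ≤ 2 b₀` (`win_any`).
(6) `∃ p ∈ Q, p.1 = X 0 ∧ ∃ w < s, τ ≤ w ∧ X ∈ Xw Λ w p.2`: `≤ ∑_{p ∈ Q} ∑_{w < s} (2 m c / M² + exp (-lam τ)) ≤
2 b₂ + s |Q| exp (-lam (τ - 1))` (`CP_biUnion`, `win_start`). (7) same at the end (`win_end`).
(8) `∃ p ∈ P, ∃ a < s, ∃ b < s, (a + τ ≤ b ∨ b + τ ≤ a) ∧ …`: `≤ ∑_{p ∈ P} ∑_{a, b < s} (4 c c' / M² +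
exp (-lam (τ - 1))) ≤ 4 b₁ + s² |P| exp (-lam (τ - 1))` (`win_pair` for both orders).
If none holds and `Tk := gof (piN X π k) ∈ A`: `Tk` is a tree in `G`, `X 0, X k ∈ R`, `X 0 ≠ X k`. Let `γ` be its
path from `X 0` to `X k`, of length `ℓ < M` (`RST.saw_exists`). Every edge of `γ` is crossed in a window
(`path_crossed`), so no edge of `γ` is in `E₀`. `hL` gives `q, g`; `low_det` contradicts not (6), (7), (8).
The sum: `ε₁ + 2 ε₂ + ε₃ + 2 b₀ + 4 b₁ + 4 b₂ + (1 + s²|P| + 2 s |Q|) exp (-lam (τ - 1))`, and `b₁, b₂ ≥ 0`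
(`0 ≤ s² ∑ ≤ b₁ M²`).
-/

open Finset
open scoped Classical

namespace RST.N

variable {V : Type} [Fintype V]

private theorem Low_notin [Nonempty V] (c : Sym2 V → ℝ) (m : V → ℝ) (hm : ∀ x, 0 < m x) (Λ k : ℕ)
    (hN : NetOK c m Λ) (i : ℕ) (hi : i ≤ k) (R : Finset V) (ε₂ : ℝ)
    (hR : ∑ x ∈ Rᶜ, m x ≤ ε₂ * ∑ x, m x) : CP c m Λ k {X | X i ∉ R} ≤ ε₂ := by
  have hM : 0 < tm m := tm_pos m hm
  have h1 : CP c m Λ k {X | X i ∉ R} = CE c m Λ k (fun X => (fun x => if x ∉ R then (1 : ℝ) else 0) (X i)) := by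
    unfold CP
    congr 1
    funext X
    by_cases h : X i ∉ R
    · rw [if_pos (show X ∈ {X : ℕ → V | X i ∉ R} from h)]
      simp only [h, not_false_eq_true, if_true]
    · rw [if_neg (show ¬ X ∈ {X : ℕ → V | X i ∉ R} from h)]
      simp only [h, if_false]
  rw [h1, CE_one c m Λ k hN i hi (fun x => if x ∉ R then (1 : ℝ) else 0)]
  have h2 : ∑ x, m x / tm m * (if x ∉ R then (1 : ℝ) else 0) = (∑ x ∈ Rᶜ, m x) / tm m := by
    rw [Finset.sum_div, ← Finset.sum_filter_add_sum_filter_not univ (fun x => x ∉ R)]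
    have e1 : ∑ x ∈ univ.filter (fun x => x ∉ R), m x / tm m * (if x ∉ R then (1 : ℝ) else 0) =
        ∑ x ∈ Rᶜ, m x / tm m := by
      have e2 : univ.filter (fun x => x ∉ R) = Rᶜ := by
        ext x
        simp
      rw [e2]
      refine Finset.sum_congr rfl fun x hx => ?_
      rw [if_pos (Finset.mem_compl.1 hx), mul_one]
    have e3 : ∑ x ∈ univ.filter (fun x => ¬ x ∉ R), m x / tm m * (if x ∉ R then (1 : ℝ) else 0) = 0 := by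
      refine Finset.sum_eq_zero fun x hx => ?_
      rw [if_neg (Finset.mem_filter.1 hx).2, mul_zero]
    rw [e1, e3, add_zero]
  rw [h2, div_le_iff₀ hM]
  exact hR

private theorem Low_sum {α β : Type} (Q : Finset α) (F : Finset β) (n : ℝ) (hn : (F.card : ℝ) ≤ n) (f : α → ℝ)
    (hf : ∀ p ∈ Q, 0 ≤ f p) (g : α × β → ℝ) (hg : ∀ i ∈ Q ×ˢ F, g i ≤ f i.1) :
    ∑ i ∈ Q ×ˢ F, g i ≤ n * ∑ p ∈ Q, f p := by
  calc ∑ i ∈ Q ×ˢ F, g i ≤ ∑ i ∈ Q ×ˢ F, f i.1 := Finset.sum_le_sum hg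
    _ = ∑ p ∈ Q, (F.card : ℝ) * f p := by
        rw [Finset.sum_product]
        refine Finset.sum_congr rfl fun p _ => ?_
        show ∑ y ∈ F, f p = _
        rw [Finset.sum_const, nsmul_eq_mul]
    _ ≤ ∑ p ∈ Q, n * f p := Finset.sum_le_sum fun p hp => mul_le_mul_of_nonneg_right hn (hf p hp)
    _ = n * ∑ p ∈ Q, f p := by rw [Finset.mul_sum]

private theorem Low_exp (lam : ℝ) (hlam : 0 < lam) (τ w : ℕ) (h : τ ≤ w) :
    Real.exp (-lam * w) ≤ Real.exp (-lam * (τ - 1)) := by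
  apply Real.exp_le_exp.2
  have h1 : (τ : ℝ) ≤ w := by exact_mod_cast h
  nlinarith

theorem lower [Nonempty V] (c : Sym2 V → ℝ) (hc : ∀ e, 0 < c e) (m : V → ℝ) (hm : ∀ x, 0 < m x)
    (R : Finset V) (G : Set (SimpleGraph V)) (ε₁ ε₂ ε₃ b₀ b₁ b₂ lam : ℝ) (hlam : 0 < lam)
    (hG : PT c Gᶜ ≤ ε₁) (hR : ∑ x ∈ Rᶜ, m x ≤ ε₂ * ∑ x, m x)
    (hgap : ∀ f : V → ℝ, ∑ x, m x * f x = 0 → lam * ∑ x, m x * f x ^ 2 ≤ Dir c f)
    (h3 : ∑ x, m x ^ 2 ≤ ε₃ * (∑ x, m x) ^ 2) (s τ : ℕ) (hτ : 2 ≤ τ) (hs : τ ≤ s)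
    (E₀ : Finset (Sym2 V)) (hE₀ : s * ∑ e ∈ E₀, c e ≤ b₀ * ∑ x, m x)
    (P : Finset (Sym2 V × Sym2 V)) (hP : (s : ℝ) ^ 2 * ∑ p ∈ P, c p.1 * c p.2 ≤
      b₁ * (∑ x, m x) ^ 2)
    (Q : Finset (V × Sym2 V)) (hQ : s * ∑ p ∈ Q, m p.1 * c p.2 ≤ b₂ * (∑ x, m x) ^ 2) (M : ℕ)
    (hL : ∀ T ∈ G, T.IsTree → ∀ (γ : ℕ → V) (ℓ : ℕ), IsSAW T.Adj γ ℓ → ℓ < M → γ 0 ∈ R →
      γ ℓ ∈ R → γ 0 ≠ γ ℓ → (∀ i < ℓ, s(γ i, γ (i + 1)) ∉ E₀) →
      ∃ (q : ℕ) (g : ℕ → ℕ), (∀ j ≤ q, g j < ℓ) ∧ (q + 1) * τ + 2 * τ + 2 ≤ s ∧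
        (γ 0, s(γ (g 0), γ (g 0 + 1))) ∈ Q ∧ (γ ℓ, s(γ (g q), γ (g q + 1))) ∈ Q ∧
        ∀ j < q, (s(γ (g j), γ (g j + 1)), s(γ (g (j + 1)), γ (g (j + 1) + 1))) ∈ P ∨
          (s(γ (g (j + 1)), γ (g (j + 1) + 1)), s(γ (g j), γ (g j + 1))) ∈ P) :
    PT c {T | ∀ (γ : ℕ → V) (ℓ : ℕ), IsSAW T.Adj γ ℓ → ℓ < M} ≤
      ε₁ + 2 * ε₂ + ε₃ + 2 * b₀ + 8 * b₁ + 8 * b₂ +
        (1 + 2 * (s : ℝ) ^ 2 * P.card + 2 * s * Q.card) * Real.exp (-lam * (τ - 1)) := by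
  obtain ⟨Λ, hN, hlamΛ⟩ := exists_netOK c m hc hm lam
  have hΛ := hN.one_le
  have hM : 0 < tm m := tm_pos m hm
  have hM2 : 0 < tm m ^ 2 := by positivity
  have htm : ∑ x, m x = tm m := rfl
  have hb1 : 0 ≤ b₁ := by
    by_contra hneg
    have h1 : 0 ≤ (s : ℝ) ^ 2 * ∑ p ∈ P, c p.1 * c p.2 :=
      mul_nonneg (sq_nonneg _) (Finset.sum_nonneg fun p _ => mul_nonneg (hc _).le (hc _).le)
    have h4 := h1.trans hP
    rw [htm] at h4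
    nlinarith
  have hb2 : 0 ≤ b₂ := by
    by_contra hneg
    have h1 : 0 ≤ (s : ℝ) * ∑ p ∈ Q, m p.1 * c p.2 :=
      mul_nonneg (Nat.cast_nonneg _) (Finset.sum_nonneg fun p _ => mul_nonneg (hm _).le (hc _).le)
    have h4 := h1.trans hQ
    rw [htm] at h4
    nlinarith
  have hx0 : 0 ≤ Real.exp (-lam * (τ - 1)) := (Real.exp_pos _).le
  rw [← JP_end c m Λ (s * Λ) hN]
  -- the events
  have e1 : JP c m Λ (s * Λ) (fun π X => gof (piN X π (s * Λ)) ∈ Gᶜ) ≤ ε₁ := by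
    rw [JP_end c m Λ (s * Λ) hN]
    exact hG
  have e2 : JP c m Λ (s * Λ) (fun _ X => X ∈ {X : ℕ → V | X 0 ∉ R}) ≤ ε₂ := by
    rw [JP_chain c m Λ (s * Λ) hN]
    exact Low_notin c m hm Λ _ hN 0 (Nat.zero_le _) R ε₂ hR
  have e3 : JP c m Λ (s * Λ) (fun _ X => X ∈ {X : ℕ → V | X (s * Λ) ∉ R}) ≤ ε₂ := by
    rw [JP_chain c m Λ (s * Λ) hN]
    exact Low_notin c m hm Λ _ hN (s * Λ) le_rfl R ε₂ hR
  have e4 : JP c m Λ (s * Λ) (fun _ X => X ∈ {X : ℕ → V | X 0 = X (s * Λ)}) ≤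
      ε₃ + Real.exp (-lam * (τ - 1)) := by
    rw [JP_chain c m Λ (s * Λ) hN]
    refine (ret_prob c m Λ hN lam hlamΛ hlam.le hgap s).trans ?_
    apply add_le_add
    · rw [div_le_iff₀ hM2]
      exact h3
    · exact Low_exp lam hlam τ s hs
  have e5 : JP c m Λ (s * Λ) (fun _ X => X ∈ {X : ℕ → V | ∃ w < s, ∃ e ∈ E₀, X ∈ Xw Λ w e}) ≤ 2 * b₀ := by
    rw [JP_chain c m Λ (s * Λ) hN]
    refine (win_any c m Λ hN s E₀).trans ?_
    rw [div_le_iff₀ hM, mul_assoc, mul_assoc]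
    exact mul_le_mul_of_nonneg_left hE₀ zero_le_two
  have e6 : JP c m Λ (s * Λ) (fun _ X => X ∈ {X : ℕ → V | ∃ p ∈ Q, p.1 = X 0 ∧ ∃ w < s, τ ≤ w ∧
      X ∈ Xw Λ w p.2}) ≤ 2 * b₂ + s * Q.card * Real.exp (-lam * (τ - 1)) := by
    rw [JP_chain c m Λ (s * Λ) hN]
    refine (CP_biUnion c m Λ (s * Λ) hN (Q ×ˢ ((range s).filter fun w => τ ≤ w)) _
      (fun i => {X | X 0 = i.1.1 ∧ X ∈ Xw Λ i.2 i.1.2}) ?_).trans ?_
    · rintro X ⟨p, hp, hp0, w, hw, hτw, hX⟩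
      refine ⟨(p, w), ?_, hp0.symm, hX⟩
      rw [Finset.mem_product, Finset.mem_filter, Finset.mem_range]
      exact ⟨hp, hw, hτw⟩
    · refine (Low_sum Q ((range s).filter fun w => τ ≤ w) (s : ℝ) ?_
        (fun p => 2 * m p.1 * c p.2 / tm m ^ 2 + Real.exp (-lam * (τ - 1))) ?_ _ ?_).trans ?_
      · exact_mod_cast (Finset.card_filter_le _ _).trans_eq (Finset.card_range s)
      · intro p _
        have h4 := (hm p.1).le
        have h5 := (hc p.2).le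
        positivity
      · intro i hi
        rw [Finset.mem_product, Finset.mem_filter, Finset.mem_range] at hi
        refine (win_start c m Λ hN lam hlamΛ hlam.le hgap s i.2 τ hi.2.1 hi.2.2 i.1.1 i.1.2).trans ?_
        exact add_le_add le_rfl (Low_exp lam hlam τ τ le_rfl)
      · rw [Finset.sum_add_distrib, Finset.sum_const, nsmul_eq_mul, mul_add, ← Finset.sum_div, ← mul_assoc]
        apply add_le_add _ le_rfl
        have h4 : ∑ p ∈ Q, 2 * m p.1 * c p.2 = 2 * ∑ p ∈ Q, m p.1 * c p.2 := by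
          rw [Finset.mul_sum]
          exact Finset.sum_congr rfl fun p _ => by ring
        rw [h4, ← mul_div_assoc, div_le_iff₀ hM2]
        have h5 := hQ
        rw [htm] at h5
        nlinarith
  have e7 : JP c m Λ (s * Λ) (fun _ X => X ∈ {X : ℕ → V | ∃ p ∈ Q, p.1 = X (s * Λ) ∧ ∃ w < s,
      w + τ + 1 ≤ s ∧ X ∈ Xw Λ w p.2}) ≤ 2 * b₂ + s * Q.card * Real.exp (-lam * (τ - 1)) := by
    rw [JP_chain c m Λ (s * Λ) hN]
    refine (CP_biUnion c m Λ (s * Λ) hN (Q ×ˢ ((range s).filter fun w => w + τ + 1 ≤ s)) _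
      (fun i => {X | X (s * Λ) = i.1.1 ∧ X ∈ Xw Λ i.2 i.1.2}) ?_).trans ?_
    · rintro X ⟨p, hp, hp0, w, hw, hτw, hX⟩
      refine ⟨(p, w), ?_, hp0.symm, hX⟩
      rw [Finset.mem_product, Finset.mem_filter, Finset.mem_range]
      exact ⟨hp, hw, hτw⟩
    · refine (Low_sum Q ((range s).filter fun w => w + τ + 1 ≤ s) (s : ℝ) ?_
        (fun p => 2 * m p.1 * c p.2 / tm m ^ 2 + Real.exp (-lam * (τ - 1))) ?_ _ ?_).trans ?_
      · exact_mod_cast (Finset.card_filter_le _ _).trans_eq (Finset.card_range s)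
      · intro p _
        have h4 := (hm p.1).le
        have h5 := (hc p.2).le
        positivity
      · intro i hi
        rw [Finset.mem_product, Finset.mem_filter, Finset.mem_range] at hi
        refine (win_end c m Λ hN lam hlamΛ hlam.le hgap s i.2 τ hi.2.2 i.1.1 i.1.2).trans ?_
        exact add_le_add le_rfl (Low_exp lam hlam τ τ le_rfl)
      · rw [Finset.sum_add_distrib, Finset.sum_const, nsmul_eq_mul, mul_add, ← Finset.sum_div, ← mul_assoc]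
        apply add_le_add _ le_rfl
        have h4 : ∑ p ∈ Q, 2 * m p.1 * c p.2 = 2 * ∑ p ∈ Q, m p.1 * c p.2 := by
          rw [Finset.mul_sum]
          exact Finset.sum_congr rfl fun p _ => by ring
        rw [h4, ← mul_div_assoc, div_le_iff₀ hM2]
        have h5 := hQ
        rw [htm] at h5
        nlinarith
  have e8 : JP c m Λ (s * Λ) (fun _ X => X ∈ {X : ℕ → V | ∃ p ∈ P, ∃ a < s, ∃ b < s,
      (a + τ ≤ b ∨ b + τ ≤ a) ∧ X ∈ Xw Λ a p.1 ∧ X ∈ Xw Λ b p.2}) ≤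
      4 * b₁ + (s : ℝ) ^ 2 * P.card * Real.exp (-lam * (τ - 1)) := by
    rw [JP_chain c m Λ (s * Λ) hN]
    refine (CP_biUnion c m Λ (s * Λ) hN (P ×ˢ ((range s ×ˢ range s).filter fun ab =>
      ab.1 + τ ≤ ab.2 ∨ ab.2 + τ ≤ ab.1)) _
      (fun i => Xw Λ i.2.1 i.1.1 ∩ Xw Λ i.2.2 i.1.2) ?_).trans ?_
    · rintro X ⟨p, hp, a, ha, b, hb, hab, hX⟩
      refine ⟨(p, (a, b)), ?_, hX⟩
      rw [Finset.mem_product, Finset.mem_filter, Finset.mem_product, Finset.mem_range, Finset.mem_range]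
      exact ⟨hp, ⟨ha, hb⟩, hab⟩
    · refine (Low_sum P ((range s ×ˢ range s).filter fun ab => ab.1 + τ ≤ ab.2 ∨ ab.2 + τ ≤ ab.1)
        ((s : ℝ) ^ 2) ?_
        (fun p => 4 * (c p.1 * c p.2) / tm m ^ 2 + Real.exp (-lam * (τ - 1))) ?_ _ ?_).trans ?_
      · have h4 : ((range s ×ˢ range s).filter fun ab : ℕ × ℕ =>
            ab.1 + τ ≤ ab.2 ∨ ab.2 + τ ≤ ab.1).card ≤ s ^ 2 := by
          refine (Finset.card_filter_le _ _).trans_eq ?_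
          rw [Finset.card_product, Finset.card_range, sq]
        exact_mod_cast h4
      · intro p _
        have h4 := (hc p.1).le
        have h5 := (hc p.2).le
        positivity
      · intro i hi
        rw [Finset.mem_product, Finset.mem_filter, Finset.mem_product, Finset.mem_range,
          Finset.mem_range] at hi
        obtain ⟨_, ⟨ha, hb⟩, hab⟩ := hi
        rcases hab with hab | hab
        · exact win_pair c m Λ hN lam hlamΛ hlam.le hgap s i.2.1 i.2.2 τ (by omega) hab hb i.1.1 i.1.2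
        · have h4 := win_pair c m Λ hN lam hlamΛ hlam.le hgap s i.2.2 i.2.1 τ (by omega) hab ha i.1.2 i.1.1
          rw [Set.inter_comm, mul_comm (c i.1.2)] at h4
          exact h4
      · rw [Finset.sum_add_distrib, Finset.sum_const, nsmul_eq_mul, mul_add, ← Finset.sum_div, ← mul_assoc]
        apply add_le_add _ le_rfl
        rw [← Finset.mul_sum, ← mul_div_assoc, div_le_iff₀ hM2]
        have h5 := hP
        rw [htm] at h5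
        nlinarith
  -- the union bound
  have hmain := JP_union_list c m Λ (s * Λ) hN
    (fun π X => gof (piN X π (s * Λ)) ∈ {T : SimpleGraph V | ∀ (γ : ℕ → V) (ℓ : ℕ), IsSAW T.Adj γ ℓ → ℓ < M})
    [fun π X => gof (piN X π (s * Λ)) ∈ Gᶜ,
      fun _ X => X ∈ {X : ℕ → V | X 0 ∉ R},
      fun _ X => X ∈ {X : ℕ → V | X (s * Λ) ∉ R},
      fun _ X => X ∈ {X : ℕ → V | X 0 = X (s * Λ)},
      fun _ X => X ∈ {X : ℕ → V | ∃ w < s, ∃ e ∈ E₀, X ∈ Xw Λ w e},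
      fun _ X => X ∈ {X : ℕ → V | ∃ p ∈ Q, p.1 = X 0 ∧ ∃ w < s, τ ≤ w ∧ X ∈ Xw Λ w p.2},
      fun _ X => X ∈ {X : ℕ → V | ∃ p ∈ Q, p.1 = X (s * Λ) ∧ ∃ w < s,
        w + τ + 1 ≤ s ∧ X ∈ Xw Λ w p.2},
      fun _ X => X ∈ {X : ℕ → V | ∃ p ∈ P, ∃ a < s, ∃ b < s,
        (a + τ ≤ b ∨ b + τ ≤ a) ∧ X ∈ Xw Λ a p.1 ∧ X ∈ Xw Λ b p.2}] ?_
  · simp only [List.map_cons, List.map_nil, List.sum_cons, List.sum_nil] at hmain
    have h9 : 0 ≤ (s : ℝ) ^ 2 * P.card * Real.exp (-lam * (τ - 1)) := by positivity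
    nlinarith
  · intro π X hπ hA
    by_contra hcon
    simp only [List.mem_cons, List.not_mem_nil, or_false, exists_eq_or_imp, exists_eq_left, not_or] at hcon
    obtain ⟨n1, n2, n3, n4, n5, n6, n7, n8⟩ := hcon
    have hG' : gof (piN X π (s * Λ)) ∈ G := not_not.1 n1
    have hR0 : X 0 ∈ R := not_not.1 n2
    have hRk : X (s * Λ) ∈ R := not_not.1 n3
    have hT : (gof (piN X π (s * Λ))).IsTree := gof_isTree (piN_isRT X π hπ (s * Λ))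
    obtain ⟨γ, ℓ, hγ, hγ0, hγ1⟩ := saw_exists _ hT (X 0) (X (s * Λ))
    have hcr := fun i hi => path_crossed X π hπ s Λ hΛ γ ℓ hγ hγ0 hγ1 i hi
    obtain ⟨q, g, hg, hqs, hQ0, hQ1, hPP⟩ := hL _ hG' hT γ ℓ hγ (hA γ ℓ hγ) (by rw [hγ0]; exact hR0)
      (by rw [hγ1]; exact hRk) (by rw [hγ0, hγ1]; exact n4) (by
        intro i hi hE
        obtain ⟨w, hw, hX⟩ := hcr i hi
        exact n5 ⟨w, hw, _, hE, hX⟩)
    rcases low_det Λ s τ (by omega) X ℓ γ hcr P Q q g hg hqs hQ0 hQ1 hPP with h | h | h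
    · rw [hγ0] at h
      exact n6 h
    · rw [hγ1] at h
      exact n7 h
    · exact n8 h

end RST.N
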