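import Pool.Agent.Lib.MP_7946c7_pr.N.SpecA
import Pool.Agent.Lib.MP_7946c7_pr.N.Tr

/-!
# N/SpecB. Avoiding a set (N5a)

PROOF. If `V` is empty both sides: `CP = 0` (no trajectory) and `(1 - lam / Λ) ^ k ≥ 0`. Otherwise let
`1_g x = if x ∈ g then 0 else 1` and `A x y = if x ∉ g ∧ y ∉ g then P x y else 0`. For a trajectory `ω` the
indicator of `∀ i ≤ k, ext ω i ∉ g` times `tw P ω` is `1_g (ω 0) * (∏ i, A (ω i.castSucc) (ω i.succ)) *
1_g (ω last)`, so by `traj_prod` and `mp_const`
`CP = (1/tm m) * ∑ x, m x * 1_g x * (A^k 1_g) x = (1 / tm m) * ip m 1_g (A^k 1_g)`.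
`A` is `m`-symmetric, `ip f (A f) = ip (f 1_g) (P (f 1_g)) ≥ 0`. `H` = functions vanishing on `g`, invariant
under `A`. For `f ∈ H`: `ip f (A f) = ip f (P f) = ip f f - Dir c f / Λ ≤ (1 - lam / Λ) ip f f` (`ip_Pm`).
`ρ = 1 - lam / Λ ≥ 0`. `contr_pow` and `ip_cs`: `ip 1_g (A^k 1_g) ≤ ‖1_g‖ * ρ^k ‖1_g‖ ≤ ρ^k tm m`.
-/

open Finset
open scoped Classical

namespace RST.N

variable {V : Type} [Fintype V]

private noncomputable def SpecB_w (g : Set V) (x : V) : ℝ := if x ∈ g then 0 else 1

private noncomputable def SpecB_A (P : Matrix V V ℝ) (g : Set V) : Matrix V V ℝ :=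
  Matrix.of fun x y => SpecB_w g x * P x y * SpecB_w g y

omit [Fintype V] in
private theorem SpecB_ww (g : Set V) (x : V) : SpecB_w g x * SpecB_w g x = SpecB_w g x := by
  unfold SpecB_w
  split_ifs <;> simp

omit [Fintype V] in
private theorem SpecB_point (P : Matrix V V ℝ) (g : Set V) (k : ℕ) (ω : Fin (k + 1) → V)
    (S : Set (ℕ → V)) (hS : S = {X : ℕ → V | ∀ i ≤ k, X i ∉ g}) :
    tw P ω * (if ext ω ∈ S then (1 : ℝ) else 0) =
      SpecB_w g (ω 0) * (∏ i : Fin k, SpecB_A P g (ω i.castSucc) (ω i.succ)) *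
        SpecB_w g (ω (Fin.last k)) := by
  by_cases h : ext ω ∈ S
  · rw [if_pos h, mul_one]
    rw [hS] at h
    change ∀ i ≤ k, ext ω i ∉ g at h
    have h0 : ∀ j : Fin (k + 1), SpecB_w g (ω j) = 1 := by
      intro j
      have h1 := h j.val (by omega)
      have h2 : ext ω j.val = ω j := by
        unfold ext
        congr 1
        apply Fin.ext
        simp
        omega
      rw [h2] at h1
      unfold SpecB_w
      rw [if_neg h1]
    rw [h0, h0, one_mul, mul_one]
    unfold tw
    apply Finset.prod_congr rfl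
    intro i _
    unfold SpecB_A
    rw [Matrix.of_apply, h0, h0, one_mul, mul_one]
  · rw [if_neg h, mul_zero]
    rw [hS] at h
    change ¬ ∀ i ≤ k, ext ω i ∉ g at h
    push Not at h
    obtain ⟨i, hi, hig⟩ := h
    have h2 : ext ω i = ω ⟨i, by omega⟩ := by
      unfold ext
      congr 1
      apply Fin.ext
      simp
      omega
    rw [h2] at hig
    rcases Nat.eq_zero_or_pos i with h3 | h3
    · subst h3
      have : SpecB_w g (ω 0) = 0 := by
        unfold SpecB_w
        rw [if_pos]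
        exact hig
      rw [this, zero_mul, zero_mul]
    · have hj : i - 1 < k := by omega
      have : ∏ i : Fin k, SpecB_A P g (ω i.castSucc) (ω i.succ) = 0 := by
        apply Finset.prod_eq_zero (Finset.mem_univ (⟨i - 1, hj⟩ : Fin k))
        have e : (⟨i - 1, hj⟩ : Fin k).succ = ⟨i, by omega⟩ := by
          apply Fin.ext
          simp
          omega
        unfold SpecB_A
        rw [Matrix.of_apply, e]
        have : SpecB_w g (ω ⟨i, by omega⟩) = 0 := by
          unfold SpecB_w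
          rw [if_pos hig]
        rw [this, mul_zero]
      rw [this, mul_zero, zero_mul]

private theorem SpecB_ip (m : V → ℝ) (P : Matrix V V ℝ) (g : Set V) (f : V → ℝ) :
    ip m f ((SpecB_A P g).mulVec f) =
      ip m (fun x => SpecB_w g x * f x) (P.mulVec fun x => SpecB_w g x * f x) := by
  unfold ip
  apply Finset.sum_congr rfl
  intro x _
  congr 1
  change f x * (∑ y, (SpecB_w g x * P x y * SpecB_w g y) * f y) =
    SpecB_w g x * f x * ∑ y, P x y * (SpecB_w g y * f y)
  rw [Finset.mul_sum, Finset.mul_sum]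
  apply Finset.sum_congr rfl
  intro y _
  ring

theorem pow_avoid (c : Sym2 V → ℝ) (m : V → ℝ) (Λ : ℕ) (hN : NetOK c m Λ) (g : Set V)
    (lam : ℝ) (hlam : lam ≤ Λ)
    (hg : ∀ f : V → ℝ, (∀ x ∈ g, f x = 0) → lam * ∑ x, m x * f x ^ 2 ≤ Dir c f) (k : ℕ) :
    CP c m Λ k {X | ∀ i ≤ k, X i ∉ g} ≤ (1 - lam / Λ) ^ k := by
  have hΛ : (0 : ℝ) < Λ := by
    have := hN.one_le
    exact_mod_cast this
  have hρ : 0 ≤ 1 - lam / Λ := by
    have : lam / Λ ≤ 1 := by
      rw [div_le_one hΛ]
      exact hlam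
    linarith
  rcases isEmpty_or_nonempty V with hV | hV
  · unfold CP CE
    have hE : IsEmpty (Fin (k + 1) → V) := by
      constructor
      intro ω
      exact hV.false (ω 0)
    rw [Finset.univ_eq_empty, Finset.sum_empty]
    exact pow_nonneg hρ k
  set M := tm m with hM
  have hM0 : 0 < M := tm_pos m hN.m_pos
  set P := Pm c m Λ with hP
  set w := SpecB_w g with hw
  set A := SpecB_A P g with hA
  have hcp : CP c m Λ k {X | ∀ i ≤ k, X i ∉ g} = ip m w ((A ^ k).mulVec w) / M := by
    obtain ⟨S, hS⟩ : ∃ S : Set (ℕ → V), S = {X : ℕ → V | ∀ i ≤ k, X i ∉ g} := ⟨_, rfl⟩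
    rw [← hS]
    unfold CP CE
    have h1 := traj_prod (fun _ => A) (fun x => m x / M * w x) w k
    rw [mp_const (fun _ => A) A 0 k (fun _ _ _ => rfl)] at h1
    have h2 : ip m w ((A ^ k).mulVec w) / M = ∑ x, (m x / M * w x) * ((A ^ k).mulVec w) x := by
      unfold ip
      rw [Finset.sum_div]
      apply Finset.sum_congr rfl
      intro x _
      ring
    rw [h2, ← h1]
    apply Finset.sum_congr rfl
    intro ω _
    have h3 := SpecB_point P g k ω S hS
    change m (ω 0) / tm m * tw (Pm c m Λ) ω * (if ext ω ∈ S then (1 : ℝ) else 0) =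
      m (ω 0) / M * w (ω 0) * (∏ i : Fin k, A (ω i.castSucc) (ω i.succ)) * w (ω (Fin.last k))
    calc m (ω 0) / tm m * tw (Pm c m Λ) ω * (if ext ω ∈ S then (1 : ℝ) else 0) =
          m (ω 0) / M * (tw P ω * (if ext ω ∈ S then (1 : ℝ) else 0)) := by
            rw [hM, hP]
            ring
      _ = _ := by
            rw [h3]
            ring
  rw [hcp, div_le_iff₀ hM0]
  have hsymm : ∀ x y, m x * A x y = m y * A y x := by
    intro x y
    have := Pm_symm c m Λ hN x y
    change m x * (w x * P x y * w y) = m y * (w y * P y x * w x)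
    calc m x * (w x * P x y * w y) = (m x * P x y) * (w x * w y) := by ring
      _ = (m y * P y x) * (w x * w y) := by rw [this]
      _ = _ := by ring
  have hpos : ∀ f, 0 ≤ ip m f (A.mulVec f) := by
    intro f
    rw [hA, SpecB_ip]
    exact ip_Pm_nonneg c m Λ hN _
  set H : Set (V → ℝ) := {f | ∀ x ∈ g, f x = 0} with hH
  have hinv : ∀ f ∈ H, A.mulVec f ∈ H := by
    intro f _ x hx
    have : w x = 0 := by
      rw [hw]
      unfold SpecB_w
      rw [if_pos hx]
    change ∑ y, (w x * P x y * w y) * f y = 0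
    apply Finset.sum_eq_zero
    intro y _
    rw [this]
    ring
  have hle : ∀ f ∈ H, ip m f (A.mulVec f) ≤ (1 - lam / Λ) * ip m f f := by
    intro f hf
    rw [hA, SpecB_ip]
    have e0 : (fun x => SpecB_w g x * f x) = f := by
      funext x
      by_cases hx : x ∈ g
      · rw [hf x hx, mul_zero]
      · unfold SpecB_w
        rw [if_neg hx, one_mul]
    rw [e0]
    have h1 := ip_Pm c m Λ hN f
    have h2 := hg f hf
    have e : ∑ x, m x * f x ^ 2 = ip m f f := by
      unfold ip
      apply Finset.sum_congr rfl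
      intro x _
      ring
    rw [e] at h2
    have h3 : lam * ip m f f / Λ ≤ Dir c f / Λ := div_le_div_of_nonneg_right h2 hΛ.le
    have h4 : (1 - lam / Λ) * ip m f f = ip m f f - lam * ip m f f / Λ := by ring
    rw [h4]
    linarith
  have hwH : w ∈ H := by
    intro x hx
    rw [hw]
    unfold SpecB_w
    rw [if_pos hx]
  have hc := contr_pow m hN.m_pos A hsymm hpos H hinv (1 - lam / Λ) hρ hle w hwH k
  have e1 := ip_cs m hN.m_pos w ((A ^ k).mulVec w)
  have e2 : Real.sqrt (ip m ((A ^ k).mulVec w) ((A ^ k).mulVec w)) ≤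
      (1 - lam / Λ) ^ k * Real.sqrt (ip m w w) := by
    rw [← Real.sqrt_sq (pow_nonneg hρ k), ← Real.sqrt_mul (sq_nonneg _)]
    exact Real.sqrt_le_sqrt hc
  have hww0 : 0 ≤ ip m w w := ip_self_nonneg m hN.m_pos w
  have hww : ip m w w ≤ M := by
    rw [hM]
    unfold ip tm
    apply Finset.sum_le_sum
    intro x _
    have h1 : w x * w x ≤ 1 := by
      rw [hw, SpecB_ww]
      unfold SpecB_w
      split_ifs <;> norm_num
    have := mul_le_mul_of_nonneg_left h1 (hN.m_pos x).le
    linarith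
  calc ip m w ((A ^ k).mulVec w) ≤ Real.sqrt (ip m w w) *
        Real.sqrt (ip m ((A ^ k).mulVec w) ((A ^ k).mulVec w)) := e1
    _ ≤ Real.sqrt (ip m w w) * ((1 - lam / Λ) ^ k * Real.sqrt (ip m w w)) :=
        mul_le_mul_of_nonneg_left e2 (Real.sqrt_nonneg _)
    _ = (1 - lam / Λ) ^ k * (Real.sqrt (ip m w w) * Real.sqrt (ip m w w)) := by ring
    _ = (1 - lam / Λ) ^ k * ip m w w := by rw [Real.mul_self_sqrt hww0]
    _ ≤ (1 - lam / Λ) ^ k * M := mul_le_mul_of_nonneg_left hww (pow_nonneg hρ k)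

end RST.N
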