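import Pool.Agent.Lib.MP_7946c7_pr.N.SpecA

/-!
# N/SpecC. Decay of correlations (N5b)

PROOF. `V` empty: both sides `0`... (`ip = 0`, sums `0`, `0 / 0 = 0`, `sqrt 0 = 0`). Otherwise `M = tm m > 0`.
`g = ḡ + g₀`, `ḡ = (∑ m g) / M` constant, `∑ m x g₀ x = 0`. `P^k ḡ = ḡ` (`pow_one_vec`), so
`ip f (P^k g) = (∑ m f) (∑ m g) / M + ip f (P^k g₀)`. `H` = functions with `∑ m x f x = 0`, invariant under
`P` (`Pm_stat`); for `f ∈ H`: `ip f (P f) = ip f f - Dir c f / Λ ≤ (1 - lam / Λ) ip f f`; positivity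
`ip_Pm_nonneg`; `contr_pow`, `ip_cs`: `ip f (P^k g₀) ≤ ‖f‖ ρ^k ‖g₀‖ ≤ ρ^k ‖f‖ ‖g‖` because
`‖g‖² = ‖g₀‖² + ḡ² M`.
-/

open Finset
open scoped Classical

namespace RST.N

variable {V : Type} [Fintype V]

private theorem SpecC_le (c : Sym2 V → ℝ) (m : V → ℝ) (Λ : ℕ) (hN : NetOK c m Λ)
    (lam : ℝ) (hgap : ∀ f : V → ℝ, ∑ x, m x * f x = 0 → lam * ∑ x, m x * f x ^ 2 ≤ Dir c f)
    (f : V → ℝ) (hf : ∑ x, m x * f x = 0) :
    ip m f ((Pm c m Λ).mulVec f) ≤ (1 - lam / Λ) * ip m f f := by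
  have hΛ : (0 : ℝ) < Λ := by
    have := hN.one_le
    exact_mod_cast this
  have h1 := ip_Pm c m Λ hN f
  have h2 := hgap f hf
  have e : ∑ x, m x * f x ^ 2 = ip m f f := by
    unfold ip
    apply Finset.sum_congr rfl
    intro x _
    ring
  rw [e] at h2
  have h3 : lam * ip m f f / Λ ≤ Dir c f / Λ := div_le_div_of_nonneg_right h2 hΛ.le
  have h4 : (1 - lam / Λ) * ip m f f = ip m f f - lam * ip m f f / Λ := by ring
  rw [h4]
  linarith

theorem pow_mean (c : Sym2 V → ℝ) (m : V → ℝ) (Λ : ℕ) (hN : NetOK c m Λ)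
    (lam : ℝ) (hlam : lam ≤ Λ)
    (hgap : ∀ f : V → ℝ, ∑ x, m x * f x = 0 → lam * ∑ x, m x * f x ^ 2 ≤ Dir c f)
    (f g : V → ℝ) (k : ℕ) :
    ip m f ((Pm c m Λ ^ k).mulVec g) ≤ (∑ x, m x * f x) * (∑ x, m x * g x) / tm m +
      (1 - lam / Λ) ^ k * (Real.sqrt (ip m f f) * Real.sqrt (ip m g g)) := by
  have hΛ : (0 : ℝ) < Λ := by
    have := hN.one_le
    exact_mod_cast this
  have hρ : 0 ≤ 1 - lam / Λ := by
    have : lam / Λ ≤ 1 := by
      rw [div_le_one hΛ]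
      exact hlam
    linarith
  rcases isEmpty_or_nonempty V with hV | hV
  · unfold ip
    simp
  set M := tm m with hM
  have hM0 : 0 < M := tm_pos m hN.m_pos
  set gb : ℝ := (∑ x, m x * g x) / M with hgb
  set g0 : V → ℝ := fun x => g x - gb with hg0
  set H : Set (V → ℝ) := {f | ∑ x, m x * f x = 0} with hH
  have hgM : ∑ x, m x * g x = gb * M := by
    rw [hgb]
    field_simp
  have hg0H : g0 ∈ H := by
    change ∑ x, m x * (g x - gb) = 0
    simp only [mul_sub, Finset.sum_sub_distrib]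
    rw [← Finset.sum_mul, hgM, hM]
    unfold tm
    ring
  have hsplit : g = gb • (fun _ => (1 : ℝ)) + g0 := by
    funext x
    simp [hg0]
  have hinv : ∀ f ∈ H, (Pm c m Λ).mulVec f ∈ H := by
    intro f hf
    change ∑ x, m x * f x = 0 at hf
    change ∑ x, m x * ((Pm c m Λ).mulVec f) x = 0
    have : ∀ x, m x * ((Pm c m Λ).mulVec f) x = ∑ y, m x * Pm c m Λ x y * f y := by
      intro x
      unfold Matrix.mulVec dotProduct
      rw [Finset.mul_sum]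
      apply Finset.sum_congr rfl
      intro y _
      ring
    rw [Finset.sum_congr rfl (fun x _ => this x), Finset.sum_comm]
    rw [← hf]
    apply Finset.sum_congr rfl
    intro y _
    rw [← Finset.sum_mul, Pm_stat c m Λ hN y]
  have hc := contr_pow m hN.m_pos (Pm c m Λ) (Pm_symm c m Λ hN) (ip_Pm_nonneg c m Λ hN) H hinv
    (1 - lam / Λ) hρ (fun f hf => SpecC_le c m Λ hN lam hgap f hf) g0 hg0H k
  have h1 : ip m f ((Pm c m Λ ^ k).mulVec g0) ≤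
      (1 - lam / Λ) ^ k * (Real.sqrt (ip m f f) * Real.sqrt (ip m g g)) := by
    have e1 := ip_cs m hN.m_pos f ((Pm c m Λ ^ k).mulVec g0)
    have e2 : Real.sqrt (ip m ((Pm c m Λ ^ k).mulVec g0) ((Pm c m Λ ^ k).mulVec g0)) ≤
        (1 - lam / Λ) ^ k * Real.sqrt (ip m g0 g0) := by
      rw [← Real.sqrt_sq (pow_nonneg hρ k), ← Real.sqrt_mul (sq_nonneg _)]
      exact Real.sqrt_le_sqrt hc
    have e3 : ip m g0 g0 ≤ ip m g g := by
      have : ip m g g - ip m g0 g0 = gb ^ 2 * M := by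
        unfold ip
        rw [← Finset.sum_sub_distrib]
        have e4 : ∀ x, m x * (g x * g x) - m x * (g0 x * g0 x) =
            2 * gb * (m x * g x) - gb ^ 2 * m x := by
          intro x
          simp only [hg0]
          ring
        rw [Finset.sum_congr rfl (fun x _ => e4 x), Finset.sum_sub_distrib, ← Finset.mul_sum,
          ← Finset.mul_sum, hgM, hM]
        unfold tm
        ring
      have h5 : 0 ≤ gb ^ 2 * M := by positivity
      linarith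
    have e4 : Real.sqrt (ip m g0 g0) ≤ Real.sqrt (ip m g g) := Real.sqrt_le_sqrt e3
    calc ip m f ((Pm c m Λ ^ k).mulVec g0) ≤ Real.sqrt (ip m f f) *
          Real.sqrt (ip m ((Pm c m Λ ^ k).mulVec g0) ((Pm c m Λ ^ k).mulVec g0)) := e1
      _ ≤ Real.sqrt (ip m f f) * ((1 - lam / Λ) ^ k * Real.sqrt (ip m g g)) := by
          apply mul_le_mul_of_nonneg_left _ (Real.sqrt_nonneg _)
          exact e2.trans (mul_le_mul_of_nonneg_left e4 (pow_nonneg hρ k))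
      _ = _ := by ring
  have h2 : ip m f ((Pm c m Λ ^ k).mulVec g) =
      (∑ x, m x * f x) * (∑ x, m x * g x) / M + ip m f ((Pm c m Λ ^ k).mulVec g0) := by
    have e0 : (Pm c m Λ ^ k).mulVec g = gb • (fun _ => (1 : ℝ)) + (Pm c m Λ ^ k).mulVec g0 := by
      conv_lhs => rw [hsplit]
      rw [Matrix.mulVec_add, Matrix.mulVec_smul, pow_one_vec _ (Pm_row c m Λ hN) k]
    rw [e0]
    unfold ip
    have e1 : ∀ x, m x * (f x * ((gb • (fun _ => (1 : ℝ)) + (Pm c m Λ ^ k).mulVec g0 : V → ℝ) x)) =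
        (m x * f x) * gb + m x * (f x * ((Pm c m Λ ^ k).mulVec g0) x) := by
      intro x
      simp only [Pi.add_apply, Pi.smul_apply, smul_eq_mul]
      ring
    rw [Finset.sum_congr rfl (fun x _ => e1 x), Finset.sum_add_distrib, ← Finset.sum_mul]
    congr 1
    rw [hgb]
    ring
  rw [h2]
  linarith

private theorem SpecC_exp (lam : ℝ) (Λ : ℕ) (hΛ : 1 ≤ Λ) (hlam : lam ≤ Λ) (k : ℕ) :
    (1 - lam / Λ) ^ k ≤ Real.exp (-(lam / Λ * k)) := by
  have hΛ0 : (0 : ℝ) < Λ := by exact_mod_cast hΛ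
  have hρ : 0 ≤ 1 - lam / Λ := by
    have : lam / Λ ≤ 1 := by
      rw [div_le_one hΛ0]
      exact hlam
    linarith
  have h1 : 1 - lam / Λ ≤ Real.exp (-(lam / Λ)) := by
    have := Real.add_one_le_exp (-(lam / Λ))
    linarith
  calc (1 - lam / Λ) ^ k ≤ (Real.exp (-(lam / Λ))) ^ k := pow_le_pow_left₀ hρ h1 k
    _ = Real.exp (-(lam / Λ * k)) := by
        rw [← Real.exp_nat_mul]
        congr 1
        ring

/-- `(1 - lam / Λ) ^ (j * Λ) ≤ exp (-lam * j)`. -/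
theorem rho_pow (lam : ℝ) (Λ : ℕ) (hΛ : 1 ≤ Λ) (hlam : lam ≤ Λ) (h0 : 0 ≤ lam) (j : ℕ) :
    (1 - lam / Λ) ^ (j * Λ) ≤ Real.exp (-lam * j) := by
  have hΛ0 : (0 : ℝ) < Λ := by exact_mod_cast hΛ
  refine (SpecC_exp lam Λ hΛ hlam (j * Λ)).trans (le_of_eq ?_)
  congr 1
  push_cast
  field_simp

/-- With `k = ⌈t Λ⌉`. -/
theorem rho_ceil (lam t : ℝ) (Λ : ℕ) (hΛ : 1 ≤ Λ) (hlam : lam ≤ Λ) (h0 : 0 ≤ lam) (ht : 0 < t) :
    (1 - lam / Λ) ^ ⌈t * Λ⌉₊ ≤ Real.exp (-lam * t) := by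
  have hΛ0 : (0 : ℝ) < Λ := by exact_mod_cast hΛ
  refine (SpecC_exp lam Λ hΛ hlam ⌈t * Λ⌉₊).trans ?_
  apply Real.exp_le_exp.mpr
  have h1 : t * Λ ≤ (⌈t * Λ⌉₊ : ℝ) := Nat.le_ceil _
  have h2 : lam / Λ * (t * Λ) ≤ lam / Λ * (⌈t * Λ⌉₊ : ℝ) :=
    mul_le_mul_of_nonneg_left h1 (by positivity)
  have h3 : lam / Λ * (t * Λ) = lam * t := by field_simp
  linarith

end RST.N
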