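import Pool.Agent.Lib.MP_7946c7_pr.Defs

/-!
# N/Tri. Triangle inequality for paths of a tree

PROOF. Convert self-avoiding walks to Mathlib walks: `IsSAW T.Adj γ ℓ` gives a walk of length `ℓ` from
`γ 0` to `γ ℓ` which is a path; in a tree the path between two vertices is unique, and the shortest walk is a
path, so `ℓ = T.dist (γ 0) (γ ℓ)`; `T.dist` satisfies the triangle inequality (`SimpleGraph.Connected.dist_triangle`).
Alternative: by `RST.saw_unique` and `RST.rch_saw`-like concatenation: the concatenation of the path from `u` to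
`w` and of the reversed path from `v` to `w` is a walk from `u` to `v` of length `a + b`, a self-avoiding walk
from `u` to `v` extracted from it has length `≤ a + b`.
-/

open Finset
open scoped Classical

namespace RST.N

variable {V : Type} [Fintype V]

private theorem tri_walk (T : SimpleGraph V) (γ : ℕ → V) (ℓ : ℕ) (h : ∀ i < ℓ, T.Adj (γ i) (γ (i + 1))) :
    ∃ w : T.Walk (γ 0) (γ ℓ), w.length = ℓ ∧ w.support = (List.range (ℓ + 1)).map γ := by
  induction ℓ with
  | zero => exact ⟨SimpleGraph.Walk.nil, rfl, rfl⟩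
  | succ ℓ ih =>
    obtain ⟨w, h1, h2⟩ := ih fun i hi => h i (by omega)
    refine ⟨w.concat (h ℓ (by omega)), ?_, ?_⟩
    · rw [SimpleGraph.Walk.length_concat, h1]
    · rw [SimpleGraph.Walk.support_concat, h2, List.range_succ (n := ℓ + 1), List.map_append]
      rfl

theorem saw_dist (T : SimpleGraph V) (hT : T.IsTree) (γ : ℕ → V) (ℓ : ℕ) (h : IsSAW T.Adj γ ℓ) :
    T.dist (γ 0) (γ ℓ) = ℓ := by
  obtain ⟨w, h1, h2⟩ := tri_walk T γ ℓ h.1
  have hw : w.IsPath := by
    rw [SimpleGraph.Walk.isPath_def, h2]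
    refine List.Nodup.map_on ?_ (List.nodup_range)
    intro i hi j hj hij
    rw [List.mem_range] at hi hj
    exact h.2 i (by omega) j (by omega) hij
  obtain ⟨q, hq⟩ := hT.connected.exists_walk_length_eq_dist (γ 0) (γ ℓ)
  have hq' := q.isPath_of_length_eq_dist hq
  have := hT.isAcyclic.path_unique ⟨w, hw⟩ ⟨q, hq'⟩
  have h3 : w = q := congrArg Subtype.val this
  rw [← hq, ← h3, h1]

theorem saw_triangle (T : SimpleGraph V) (hT : T.IsTree) (γ γ₁ γ₂ : ℕ → V) (ℓ a b : ℕ)
    (h : IsSAW T.Adj γ ℓ) (h1 : IsSAW T.Adj γ₁ a) (h2 : IsSAW T.Adj γ₂ b) (e0 : γ₁ 0 = γ 0)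
    (e1 : γ₂ 0 = γ ℓ) (e2 : γ₁ a = γ₂ b) : ℓ ≤ a + b := by
  have d := saw_dist T hT γ ℓ h
  have d1 := saw_dist T hT γ₁ a h1
  have d2 := saw_dist T hT γ₂ b h2
  rw [← d, ← d1, ← d2, e0, e1, e2, SimpleGraph.dist_comm (u := γ ℓ)]
  exact hT.connected.dist_triangle

/-- Tails of self-avoiding walks. -/
theorem saw_tail (T : SimpleGraph V) (γ : ℕ → V) (ℓ j : ℕ) (hj : j ≤ ℓ) (h : IsSAW T.Adj γ ℓ) :
    IsSAW T.Adj (fun i => γ (j + i)) (ℓ - j) := by
  refine ⟨fun i hi => h.1 (j + i) (by omega), fun i hi k hk hik => ?_⟩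
  have := h.2 (j + i) (by omega) (j + k) (by omega) hik
  omega

end RST.N
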