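import Pool.Agent.Lib.MP_7946c7_pr.N.Str
import Pool.Agent.Lib.MP_7946c7_pr.N.Tri

/-!
# N/UppDet. Deterministic part of the upper bound

Write `T₀ = gof π`, `Tk = gof (piN X π k)` (both trees: `gof_isTree`, `piN_isRT`).
PROOFS. `depth_le`: let `γ` be the path of `Tk` from `u` to `X k`, of length `ℓ` (exists by
`RST.saw_exists`). `struct` gives `j`. `γ` from `j` on is a path ending at `X k` (`saw_tail`), its length
`ℓ - j` is at most `a₁ + a₂ * #{i < ℓ - j : edge ∈ E}` by `h2`, and these edges are distinct and crossed, so the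
number is `≤ N` (map each such `i` to the edge; the edges `s(X t, X (t+1))`, `t` in the filter, form a set of
at most `N` edges; edges of a path are distinct). `j ≤ M₁`: the `π`-orbit of `u` is a path of `T₀` from `u` to
`X 0` of length `ℓ₀` (`orbit_saw`). If `M₁ ≤ ℓ₀`, `h1` gives `i ≤ M₁`, `t ≤ k` with `X t = π^[i] u`; if `i < j`
then `γ i = π^[i] u` is not visited, contradiction; so `j ≤ i ≤ M₁`. If `ℓ₀ < M₁`: `π^[ℓ₀] u = X 0` is visited,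
so `j ≤ ℓ₀ < M₁`. 
`upper_det`: `saw_triangle` with the paths from `γ 0` and from `γ ℓ` to `X k`.
-/

open Finset
open scoped Classical

namespace RST.N

variable {V : Type} [Fintype V]

theorem UppDet_card (X : ℕ → V) (k : ℕ) (E : Finset (Sym2 V)) (G : SimpleGraph V) (γ : ℕ → V) (ℓ : ℕ)
    (hγ : IsSAW G.Adj γ ℓ)
    (h : ∀ i < ℓ, ∃ t < k, X t ≠ X (t + 1) ∧ s(X t, X (t + 1)) = s(γ i, γ (i + 1))) :
    ((range ℓ).filter fun i => s(γ i, γ (i + 1)) ∈ E).card ≤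
      ((range k).filter fun t => X t ≠ X (t + 1) ∧ s(X t, X (t + 1)) ∈ E).card := by
  choose! t ht1 ht2 ht3 using h
  apply Finset.card_le_card_of_injOn t
  · intro i hi
    obtain ⟨hi1, hi2⟩ := Finset.mem_filter.1 (Finset.mem_coe.1 hi)
    rw [Finset.mem_range] at hi1
    rw [Finset.mem_coe, Finset.mem_filter, Finset.mem_range]
    refine ⟨ht1 i hi1, ht2 i hi1, ?_⟩
    rw [ht3 i hi1]
    exact hi2
  · intro i hi i' hi' he
    have hi1 := Finset.mem_range.1 (Finset.mem_filter.1 (Finset.mem_coe.1 hi)).1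
    have hi1' := Finset.mem_range.1 (Finset.mem_filter.1 (Finset.mem_coe.1 hi')).1
    have e1 := ht3 i hi1
    have e2 := ht3 i' hi1'
    rw [he, e2] at e1
    rw [Sym2.eq_iff] at e1
    rcases e1 with ⟨e3, -⟩ | ⟨e3, e4⟩
    · exact (hγ.2 i' hi1'.le i hi1.le e3).symm
    · have e5 := hγ.2 i' hi1'.le (i + 1) hi1 e3
      have e6 := hγ.2 (i' + 1) hi1' i hi1.le e4
      omega

theorem depth_le (X : ℕ → V) (π : V → V) (h : IsRT (X 0) π) (k M₁ : ℕ) (a₁ a₂ : ℝ)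
    (ha₂ : 0 ≤ a₂) (E : Finset (Sym2 V))
    (h1 : ∀ (γ : ℕ → V) (ℓ : ℕ), IsSAW (gof π).Adj γ ℓ → γ ℓ = X 0 → M₁ ≤ ℓ →
      ∃ t ≤ k, ∃ i ≤ M₁, X t = γ i)
    (h2 : ∀ (γ : ℕ → V) (ℓ : ℕ), IsSAW (gof (piN X π k)).Adj γ ℓ → γ ℓ = X k →
      (ℓ : ℝ) ≤ a₁ + a₂ * ((range ℓ).filter fun i => s(γ i, γ (i + 1)) ∈ E).card) (u : V) :
    ∃ (γ : ℕ → V) (ℓ : ℕ), IsSAW (gof (piN X π k)).Adj γ ℓ ∧ γ 0 = u ∧ γ ℓ = X k ∧
      (ℓ : ℝ) ≤ M₁ + (a₁ + a₂ * ((range k).filter fun t =>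
        X t ≠ X (t + 1) ∧ s(X t, X (t + 1)) ∈ E).card) := by
  have hT := gof_isTree (piN_isRT X π h k)
  obtain ⟨γ, ℓ, hγ, h0, he⟩ := RST.saw_exists (gof (piN X π k)) hT u (X k)
  refine ⟨γ, ℓ, hγ, h0, he, ?_⟩
  obtain ⟨j, hj, hs1, -, hs3, hs4⟩ := struct X π h k γ ℓ hγ he
  have htail := saw_tail (gof (piN X π k)) γ ℓ j hj hγ
  have hend : γ (j + (ℓ - j)) = X k := by
    rw [Nat.add_sub_cancel' hj, he]
  have hb := h2 (fun i => γ (j + i)) (ℓ - j) htail hend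
  have hc : ((range (ℓ - j)).filter fun i => s(γ (j + i), γ (j + (i + 1))) ∈ E).card ≤
      ((range k).filter fun t => X t ≠ X (t + 1) ∧ s(X t, X (t + 1)) ∈ E).card := by
    apply UppDet_card X k E (gof (piN X π k)) (fun i => γ (j + i)) (ℓ - j) htail
    intro i hi
    exact hs4 (j + i) (Nat.le_add_right _ _) (by omega)
  have hc' : (((range (ℓ - j)).filter fun i => s(γ (j + i), γ (j + (i + 1))) ∈ E).card : ℝ) ≤
      (((range k).filter fun t => X t ≠ X (t + 1) ∧ s(X t, X (t + 1)) ∈ E).card : ℝ) := by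
    exact_mod_cast hc
  have hjM : j ≤ M₁ := by
    obtain ⟨ℓ₀, hsaw, hx⟩ := h.orbit_saw u
    by_cases hM : M₁ ≤ ℓ₀
    · obtain ⟨t, ht, i, hi, hti⟩ := h1 _ ℓ₀ hsaw hx hM
      by_contra hcon
      have hij : i < j := by omega
      apply hs1 i hij t ht
      rw [hs3 i hij.le, h0]
      exact hti
    · by_contra hcon
      have hij : ℓ₀ < j := by omega
      apply hs1 ℓ₀ hij 0 (Nat.zero_le _)
      rw [hs3 ℓ₀ hij.le, h0]
      exact hx.symm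
  have e1 : (ℓ : ℝ) = (j : ℝ) + ((ℓ - j : ℕ) : ℝ) := by
    rw [Nat.cast_sub hj]
    ring
  have e2 : (j : ℝ) ≤ M₁ := by exact_mod_cast hjM
  have e3 := mul_le_mul_of_nonneg_left hc' ha₂
  rw [e1]
  linarith

theorem upper_det (X : ℕ → V) (π : V → V) (h : IsRT (X 0) π) (k M₁ : ℕ) (a₁ a₂ : ℝ)
    (ha₂ : 0 ≤ a₂) (E : Finset (Sym2 V))
    (h1 : ∀ (γ : ℕ → V) (ℓ : ℕ), IsSAW (gof π).Adj γ ℓ → γ ℓ = X 0 → M₁ ≤ ℓ →
      ∃ t ≤ k, ∃ i ≤ M₁, X t = γ i)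
    (h2 : ∀ (γ : ℕ → V) (ℓ : ℕ), IsSAW (gof (piN X π k)).Adj γ ℓ → γ ℓ = X k →
      (ℓ : ℝ) ≤ a₁ + a₂ * ((range ℓ).filter fun i => s(γ i, γ (i + 1)) ∈ E).card)
    (γ : ℕ → V) (ℓ : ℕ) (hγ : IsSAW (gof (piN X π k)).Adj γ ℓ) :
    (ℓ : ℝ) ≤ 2 * M₁ + 2 * (a₁ + a₂ * ((range k).filter fun t =>
        X t ≠ X (t + 1) ∧ s(X t, X (t + 1)) ∈ E).card) := by
  have hT := gof_isTree (piN_isRT X π h k)
  obtain ⟨γ₁, a, hg1, h01, hk1, hl1⟩ := depth_le X π h k M₁ a₁ a₂ ha₂ E h1 h2 (γ 0)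
  obtain ⟨γ₂, b, hg2, h02, hk2, hl2⟩ := depth_le X π h k M₁ a₁ a₂ ha₂ E h1 h2 (γ ℓ)
  have ht := saw_triangle (gof (piN X π k)) hT γ γ₁ γ₂ ℓ a b hγ hg1 hg2 h01 h02 (hk1.trans hk2.symm)
  have ht' : (ℓ : ℝ) ≤ a + b := by exact_mod_cast ht
  linarith

end RST.N
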