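import Pool.Agent.Lib.MP_7946c7_pr.N.JEb
import Pool.Agent.Lib.MP_7946c7_pr.N.JEe
import Pool.Agent.Lib.MP_7946c7_pr.N.SpecB
import Pool.Agent.Lib.MP_7946c7_pr.N.SpecC
import Pool.Agent.Lib.MP_7946c7_pr.N.UppDet

/-!
# N/Upp. Theorem U (upper bound)

PROOF. `exists_netOK` gives `Λ` with `lam ≤ Λ`. `k := ⌈t * Λ⌉₊`, `M := tm m > 0`. Let `A` be the event of the
statement; `PT c A = JP (gof (piN X π k) ∈ A)` (`JP_end`). `JP_union_list` with the six events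
(1) `gof π ∈ Gᶜ`: `≤ ε₁` (`JP_start`). (2) `gof (piN X π k) ∈ Gᶜ`: `≤ ε₁` (`JP_end`).
(3) `X 0 ∉ R`, (4) `X k ∉ R`: each `≤ ∑_{x ∉ R} m x / M ≤ ε₂` (`JP_chain`, `CE_one`).
(5) `gof π ∈ G ∧ X ∈ S (gof π)` where `S T = {X | ∃ γ ℓ, IsSAW T.Adj γ ℓ ∧ γ ℓ ∈ R ∧ M₁ ≤ ℓ ∧
∀ t ≤ k, ∀ i ≤ M₁, X t ≠ γ i}`: for a tree `T ∈ G`, `CP (S T) ≤ ∑_{(u, v)} CP {X | ∀ t ≤ k, X t ∉ g u v}` where
`g u v` is the set of the first `M₁ + 1` vertices of the path of `T` from `u` to `v` (if this path has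
length `≥ M₁` and `v ∈ R`; otherwise drop the pair; paths are unique, `RST.saw_unique`, `RST.saw_exists`),
each term `≤ (1 - lam/Λ)^k ≤ exp (-lam t)` by `pow_avoid` (hypothesis `hU3`) and `rho_ceil`; so
`≤ n² exp (-lam t)` (`JP_cond`). 
(6) `L * (2 (t+1) Bs) < N(X)`, `N(X)` = number of crossings of `E`: `E N ≤ 2 k ∑_E c / (Λ M) ≤ 2 (k / Λ) Bs ≤
2 (t + 1) Bs` (`cross_exp`, `k ≤ t Λ + 1`, `Λ ≥ 1`, `Bs ≥ 0` because `0 ≤ ∑_E c ≤ Bs M`), so `≤ 1 / L`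
(`CP_markov`, `JP_chain`).
If none of the six holds then `upper_det` applies: `h1` from not (5) with `γ ℓ = X 0 ∈ R`, `T₀ ∈ G`; `h2` from
`hU4` for `Tk ∈ G`, `X k ∈ R`; every path of `Tk` has length `≤ 2 M₁ + 2 (a₁ + a₂ N) ≤
2 M₁ + 2 (a₁ + 2 a₂ (t+1) Bs L)`, so `Tk ∉ A`.
-/

open Finset
open scoped Classical

namespace RST.N

variable {V : Type} [Fintype V]

private theorem Upp_CP_empty (c : Sym2 V → ℝ) (m : V → ℝ) (Λ k : ℕ) :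
    CP c m Λ k (∅ : Set (ℕ → V)) = 0 := by
  unfold CP CE
  simp

/-- the chain at one time is distributed as `m / M` -/
private theorem Upp_one [Nonempty V] (c : Sym2 V → ℝ) (m : V → ℝ) (Λ k : ℕ) (hN : NetOK c m Λ)
    (R : Finset V) (ε₂ : ℝ) (hR : ∑ x ∈ Rᶜ, m x ≤ ε₂ * ∑ x, m x) (i : ℕ) (hi : i ≤ k) :
    CP c m Λ k {X | X i ∈ Rᶜ} ≤ ε₂ := by
  have hM : 0 < tm m := tm_pos m hN.m_pos
  have h1 := CE_one c m Λ k hN i hi (fun x => if x ∈ Rᶜ then (1 : ℝ) else 0)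
  have h2 : CP c m Λ k {X | X i ∈ Rᶜ} = ∑ x, m x / tm m * (if x ∈ Rᶜ then (1 : ℝ) else 0) := by
    rw [← h1]
    unfold CP
    congr 1
    funext X
    by_cases h : X i ∈ Rᶜ
    · rw [if_pos h, if_pos (show X ∈ {X : ℕ → V | X i ∈ Rᶜ} from h)]
    · rw [if_neg h, if_neg (show X ∉ {X : ℕ → V | X i ∈ Rᶜ} from h)]
  rw [h2]
  have h3 : ∑ x, m x / tm m * (if x ∈ Rᶜ then (1 : ℝ) else 0) = (∑ x ∈ Rᶜ, m x) / tm m := by
    rw [Finset.sum_div, ← Finset.sum_filter_add_sum_filter_not univ (fun x => x ∈ Rᶜ)]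
    have h4 : ∑ x ∈ univ.filter (fun x => ¬ x ∈ Rᶜ),
        m x / tm m * (if x ∈ Rᶜ then (1 : ℝ) else 0) = 0 := by
      apply Finset.sum_eq_zero
      intro x hx
      rw [Finset.mem_filter] at hx
      rw [if_neg hx.2, mul_zero]
    rw [h4, add_zero]
    have h5 : univ.filter (fun x => x ∈ Rᶜ) = Rᶜ := by
      ext x
      simp
    rw [h5]
    apply Finset.sum_congr rfl
    intro x hx
    rw [if_pos hx, mul_one]
  rw [h3, div_le_iff₀ hM]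
  exact hR

/-- the chain avoids the first vertices of a long path with small probability -/
private theorem Upp_avoid (c : Sym2 V → ℝ) (m : V → ℝ) (Λ : ℕ) (hN : NetOK c m Λ) (R : Finset V)
    (lam t : ℝ) (hlam : 0 < lam) (hlamΛ : lam ≤ Λ) (ht : 0 < t) (M₁ : ℕ)
    (T : SimpleGraph V) (hT : T.IsTree)
    (hU : ∀ (γ : ℕ → V) (ℓ : ℕ), M₁ ≤ ℓ → IsSAW T.Adj γ ℓ → γ ℓ ∈ R →
      ∀ f : V → ℝ, (∀ i ≤ M₁, f (γ i) = 0) → lam * ∑ x, m x * f x ^ 2 ≤ Dir c f) :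
    CP c m Λ ⌈t * Λ⌉₊ {X | ∃ (γ : ℕ → V) (ℓ : ℕ), IsSAW T.Adj γ ℓ ∧ γ ℓ ∈ R ∧ M₁ ≤ ℓ ∧
      ∀ τ ≤ ⌈t * Λ⌉₊, ∀ i ≤ M₁, X τ ≠ γ i} ≤
      (Fintype.card V : ℝ) ^ 2 * Real.exp (-lam * t) := by
  set k : ℕ := ⌈t * Λ⌉₊ with hk
  set S : V × V → Set (ℕ → V) := fun p => {X | ∃ (γ : ℕ → V) (ℓ : ℕ), IsSAW T.Adj γ ℓ ∧
    γ 0 = p.1 ∧ γ ℓ = p.2 ∧ p.2 ∈ R ∧ M₁ ≤ ℓ ∧ ∀ τ ≤ k, ∀ i ≤ M₁, X τ ≠ γ i} with hS
  have hone : ∀ p : V × V, CP c m Λ k (S p) ≤ Real.exp (-lam * t) := by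
    intro p
    by_cases hex : ∃ (γ : ℕ → V) (ℓ : ℕ), IsSAW T.Adj γ ℓ ∧ γ 0 = p.1 ∧ γ ℓ = p.2 ∧ p.2 ∈ R ∧
        M₁ ≤ ℓ
    · obtain ⟨γ₀, ℓ₀, h1, h2, h3, h4, h5⟩ := hex
      have hsub : S p ⊆ {X | ∀ i ≤ k, X i ∉ {x : V | ∃ i ≤ M₁, x = γ₀ i}} := by
        rintro X ⟨γ, ℓ, g1, g2, g3, g4, g5, g6⟩ τ hτ ⟨i, hi, hx⟩
        have huq := saw_unique T hT γ γ₀ ℓ ℓ₀ g1 h1 (by rw [g2, h2]) (by rw [g3, h3])
        apply g6 τ hτ i hi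
        rw [hx]
        exact (huq.2 i (le_trans hi g5)).symm
      refine le_trans (CP_mono c m Λ k hN hsub) ?_
      refine le_trans (pow_avoid c m Λ hN {x : V | ∃ i ≤ M₁, x = γ₀ i} lam hlamΛ ?_ k) ?_
      · intro f hf
        apply hU γ₀ ℓ₀ h5 h1 (by rw [h3]; exact h4)
        intro i hi
        exact hf _ ⟨i, hi, rfl⟩
      · exact rho_ceil lam t Λ hN.one_le hlamΛ hlam.le ht
    · have hsub : S p ⊆ ∅ := by
        rintro X ⟨γ, ℓ, g1, g2, g3, g4, g5, -⟩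
        exact absurd ⟨γ, ℓ, g1, g2, g3, g4, g5⟩ hex
      refine le_trans (CP_mono c m Λ k hN hsub) ?_
      rw [Upp_CP_empty]
      exact (Real.exp_pos _).le
  refine le_trans (CP_biUnion c m Λ k hN (univ : Finset (V × V)) _ S ?_) ?_
  · rintro X ⟨γ, ℓ, h1, h2, h3, h4⟩
    exact ⟨(γ 0, γ ℓ), Finset.mem_univ _, γ, ℓ, h1, rfl, rfl, h2, h3, h4⟩
  · calc ∑ p : V × V, CP c m Λ k (S p) ≤ ∑ _p : V × V, Real.exp (-lam * t) :=
        Finset.sum_le_sum fun p _ => hone p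
      _ = (Fintype.card V : ℝ) ^ 2 * Real.exp (-lam * t) := by
        rw [Finset.sum_const, Finset.card_univ, Fintype.card_prod, nsmul_eq_mul]
        push_cast
        ring

theorem upper [Nonempty V] (c : Sym2 V → ℝ) (hc : ∀ e, 0 < c e) (m : V → ℝ) (hm : ∀ x, 0 < m x)
    (R : Finset V) (G : Set (SimpleGraph V)) (ε₁ ε₂ lam a₁ a₂ Bs t L : ℝ)
    (hG : PT c Gᶜ ≤ ε₁) (hR : ∑ x ∈ Rᶜ, m x ≤ ε₂ * ∑ x, m x) (hlam : 0 < lam) (M₁ : ℕ)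
    (hU3 : ∀ T ∈ G, T.IsTree → ∀ (γ : ℕ → V) (ℓ : ℕ), M₁ ≤ ℓ → IsSAW T.Adj γ ℓ → γ ℓ ∈ R →
      ∀ f : V → ℝ, (∀ i ≤ M₁, f (γ i) = 0) → lam * ∑ x, m x * f x ^ 2 ≤ Dir c f)
    (E : Finset (Sym2 V)) (ha₁ : 0 ≤ a₁) (ha₂ : 0 ≤ a₂)
    (hU4 : ∀ T ∈ G, T.IsTree → ∀ (γ : ℕ → V) (ℓ : ℕ), IsSAW T.Adj γ ℓ → γ ℓ ∈ R →
      (ℓ : ℝ) ≤ a₁ + a₂ * ((range ℓ).filter fun i => s(γ i, γ (i + 1)) ∈ E).card)
    (hU5 : ∑ e ∈ E, c e ≤ Bs * ∑ x, m x) (ht : 0 < t) (hL : 1 ≤ L) :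
    PT c {T | ∃ (γ : ℕ → V) (ℓ : ℕ), IsSAW T.Adj γ ℓ ∧
      2 * (M₁ : ℝ) + 2 * (a₁ + 2 * a₂ * (t + 1) * Bs * L) < ℓ} ≤
      2 * ε₁ + 2 * ε₂ + (Fintype.card V : ℝ) ^ 2 * Real.exp (-lam * t) + 1 / L := by
  obtain ⟨Λ, hN, hlamΛ⟩ := exists_netOK c m hc hm lam
  have hM : 0 < tm m := tm_pos m hm
  have hΛ1 : (1 : ℝ) ≤ Λ := by exact_mod_cast hN.one_le
  have hΛ0 : (0 : ℝ) < Λ := by linarith
  set k : ℕ := ⌈t * Λ⌉₊ with hk
  have htΛ : 0 < t * Λ := by positivity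
  have hkle : (k : ℝ) ≤ (t + 1) * Λ := by
    have := Nat.ceil_lt_add_one htΛ.le
    rw [← hk] at this
    nlinarith
  set A : Set (SimpleGraph V) := {T | ∃ (γ : ℕ → V) (ℓ : ℕ), IsSAW T.Adj γ ℓ ∧
      2 * (M₁ : ℝ) + 2 * (a₁ + 2 * a₂ * (t + 1) * Bs * L) < ℓ} with hA
  set N : (ℕ → V) → ℕ := fun X => ((range k).filter fun i =>
      X i ≠ X (i + 1) ∧ s(X i, X (i + 1)) ∈ E).card with hNd
  set S : SimpleGraph V → Set (ℕ → V) := fun T => {X | ∃ (γ : ℕ → V) (ℓ : ℕ),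
    IsSAW T.Adj γ ℓ ∧ γ ℓ ∈ R ∧ M₁ ≤ ℓ ∧ ∀ τ ≤ k, ∀ i ≤ M₁, X τ ≠ γ i} with hS
  have hb0 : 0 ≤ (Fintype.card V : ℝ) ^ 2 * Real.exp (-lam * t) := by positivity
  have b1 : JP c m Λ k (fun π _ => gof π ∈ Gᶜ) ≤ ε₁ := by
    rw [JP_start c m Λ k hN]
    exact hG
  have b2 : JP c m Λ k (fun π X => gof (piN X π k) ∈ Gᶜ) ≤ ε₁ := by
    rw [JP_end c m Λ k hN]
    exact hG
  have b3 : JP c m Λ k (fun _ X => X ∈ {X : ℕ → V | X 0 ∈ Rᶜ}) ≤ ε₂ := by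
    rw [JP_chain c m Λ k hN]
    exact Upp_one c m Λ k hN R ε₂ hR 0 (Nat.zero_le _)
  have b4 : JP c m Λ k (fun _ X => X ∈ {X : ℕ → V | X k ∈ Rᶜ}) ≤ ε₂ := by
    rw [JP_chain c m Λ k hN]
    exact Upp_one c m Λ k hN R ε₂ hR k le_rfl
  have b5 : JP c m Λ k (fun π X => gof π ∈ G ∧ X ∈ S (gof π)) ≤
      (Fintype.card V : ℝ) ^ 2 * Real.exp (-lam * t) := by
    apply JP_cond c m Λ k hN G S _ hb0
    intro T hTG hT
    exact Upp_avoid c m Λ hN R lam t hlam hlamΛ ht M₁ T hT (hU3 T hTG hT)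
  have b6 : JP c m Λ k (fun _ X => X ∈ {X : ℕ → V | L * (2 * (t + 1) * Bs) < (N X : ℝ)}) ≤
      1 / L := by
    rw [JP_chain c m Λ k hN]
    apply CP_markov c m Λ k hN (fun X => (N X : ℝ)) (fun X => Nat.cast_nonneg _)
      (2 * (t + 1) * Bs) L _ hL
    refine le_trans (cross_exp c m Λ k hN E) ?_
    rw [div_le_iff₀ (by positivity)]
    have hsum0 : 0 ≤ ∑ e ∈ E, c e := Finset.sum_nonneg fun e _ => (hc e).le
    have hU5' : ∑ e ∈ E, c e ≤ Bs * tm m := hU5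
    calc 2 * (k : ℝ) * ∑ e ∈ E, c e ≤ 2 * ((t + 1) * Λ) * ∑ e ∈ E, c e := by
          apply mul_le_mul_of_nonneg_right _ hsum0
          linarith
      _ ≤ 2 * ((t + 1) * Λ) * (Bs * tm m) := by
          apply mul_le_mul_of_nonneg_left hU5'
          positivity
      _ = 2 * (t + 1) * Bs * (Λ * tm m) := by ring
  have hun := JP_union_list c m Λ k hN (fun π X => gof (piN X π k) ∈ A)
    [fun π _ => gof π ∈ Gᶜ, fun π X => gof (piN X π k) ∈ Gᶜ,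
      fun _ X => X ∈ {X : ℕ → V | X 0 ∈ Rᶜ}, fun _ X => X ∈ {X : ℕ → V | X k ∈ Rᶜ},
      fun π X => gof π ∈ G ∧ X ∈ S (gof π),
      fun _ X => X ∈ {X : ℕ → V | L * (2 * (t + 1) * Bs) < (N X : ℝ)}]
    (by
      intro π X hrt hAX
      by_contra hno
      have n1 : gof π ∈ G := by
        by_contra h
        exact hno ⟨_, List.mem_cons_self, h⟩
      have n2 : gof (piN X π k) ∈ G := by
        by_contra h
        exact hno ⟨_, List.mem_cons_of_mem _ List.mem_cons_self, h⟩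
      have n3 : X 0 ∈ R := by
        by_contra h
        exact hno ⟨_, List.mem_cons_of_mem _ (List.mem_cons_of_mem _ List.mem_cons_self),
          Finset.mem_compl.mpr h⟩
      have n4 : X k ∈ R := by
        by_contra h
        exact hno ⟨_, List.mem_cons_of_mem _ (List.mem_cons_of_mem _ (List.mem_cons_of_mem _
          List.mem_cons_self)), Finset.mem_compl.mpr h⟩
      have n5 : X ∉ S (gof π) := by
        intro h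
        exact hno ⟨_, List.mem_cons_of_mem _ (List.mem_cons_of_mem _ (List.mem_cons_of_mem _
          (List.mem_cons_of_mem _ List.mem_cons_self))), n1, h⟩
      have n6 : (N X : ℝ) ≤ L * (2 * (t + 1) * Bs) := by
        by_contra h
        push Not at h
        exact hno ⟨_, List.mem_cons_of_mem _ (List.mem_cons_of_mem _ (List.mem_cons_of_mem _
          (List.mem_cons_of_mem _ (List.mem_cons_of_mem _ List.mem_cons_self)))), h⟩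
      obtain ⟨γ, ℓ, hγ, hℓ⟩ := hAX
      have htk : (gof (piN X π k)).IsTree := gof_isTree (piN_isRT X π hrt k)
      have hdet := upper_det X π hrt k M₁ a₁ a₂ ha₂ E
        (by
          intro γ' ℓ' g1 g2 g3
          by_contra hcon
          push Not at hcon
          exact n5 ⟨γ', ℓ', g1, by rw [g2]; exact n3, g3, hcon⟩)
        (by
          intro γ' ℓ' g1 g2
          exact hU4 _ n2 htk γ' ℓ' g1 (by rw [g2]; exact n4)) γ ℓ hγ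
      have hdet' : (ℓ : ℝ) ≤ 2 * M₁ + 2 * (a₁ + a₂ * (N X : ℝ)) := hdet
      have h7 : a₂ * (N X : ℝ) ≤ a₂ * (L * (2 * (t + 1) * Bs)) :=
        mul_le_mul_of_nonneg_left n6 ha₂
      have h8 : a₂ * (L * (2 * (t + 1) * Bs)) = 2 * a₂ * (t + 1) * Bs * L := by ring
      linarith)
  rw [JP_end c m Λ k hN] at hun
  simp only [List.map_cons, List.map_nil, List.sum_cons, List.sum_nil] at hun
  linarith

end RST.N
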