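import Pool.Agent.Lib.MP_7946c7_pr.N.Cost
import Pool.Agent.Lib.MP_7946c7_pr.N.Lab
import Pool.Agent.Lib.MP_7946c7_pr.N.Low
import Pool.Agent.Lib.MP_7946c7_pr.N.Upp

/-!
# Stream N: the interface theorems
-/

open Finset

namespace RST

variable {V : Type} [Fintype V] [DecidableEq V]

/-- N1. Swap inequality for paths. -/
theorem swap_path (c : Sym2 V → ℝ) (hc : ∀ e, 0 < c e) (ρ : ℕ → V) (k : ℕ)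
    (_hρ : ∀ i < k, ρ i ≠ ρ (i + 1)) (e : Sym2 V) :
    PT c {T | ∃ γ ℓ, IsSAW T.Adj γ ℓ ∧ γ 0 = ρ 0 ∧ γ ℓ = ρ k ∧ ∃ i < ℓ, s(γ i, γ (i + 1)) = e} ≤
      ∑ i ∈ range k, c e / c s(ρ i, ρ (i + 1)) :=
  N.swap_path c hc ρ k e

/-- N3. Cost product. -/
theorem cost_product (c : Sym2 V → ℝ) (hc : ∀ e, 0 < c e) (γ : ℕ → V) (ℓ : ℕ)
    (hγ : ∀ i ≤ ℓ, ∀ j ≤ ℓ, γ i = γ j → i = j) (ord : ℕ → ℕ) (hord : Set.InjOn ord (Set.Iio ℓ))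
    (K : Finset ℕ) (a b : ℕ → ℕ) (R : ℕ → ℝ)
    (hK : ∀ k ∈ K, a k ≤ k ∧ k < b k ∧ b k ≤ ℓ ∧
      (∀ j, a k ≤ j → j < b k → j ≠ k → ord j < ord k) ∧
      ∃ (ρ : ℕ → V) (len : ℕ), ρ 0 = γ (a k) ∧ ρ len = γ (b k) ∧ (∀ i < len, ρ i ≠ ρ (i + 1)) ∧
        ∑ i ∈ range len, 1 / c s(ρ i, ρ (i + 1)) ≤ R k) :
    PT c {T | ∀ i < ℓ, T.Adj (γ i) (γ (i + 1))} ≤
      ∏ k ∈ K, min 1 (c s(γ k, γ (k + 1)) * R k) :=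
  N.cost_product c hc γ ℓ hγ ord hord K a b R hK

/-- H3 (T1). With conductances `exp (-κ * lab e)`: whp a path of the tree between two vertices
joined by a walk with labels at most `x` has labels at most `x + 6 log n / κ`. -/
theorem tree_labels (lab : Sym2 V → ℝ) (κ : ℝ) (hκ : 0 < κ) (hn : 2 ≤ Fintype.card V) :
    PT (fun e => Real.exp (-κ * lab e)) {T | ¬ ∀ (x : ℝ) (γ : ℕ → V) (ℓ : ℕ), IsSAW T.Adj γ ℓ →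
      Rch (gr lab x) univ (γ 0) (γ ℓ) →
      ∀ i < ℓ, lab s(γ i, γ (i + 1)) ≤ x + 6 * Real.log (Fintype.card V) / κ} ≤
      1 / (Fintype.card V : ℝ) :=
  N.tree_labels lab κ hκ hn

/-- N6. Theorem U (upper bound). -/
theorem upper_abstract [Nonempty V] (c : Sym2 V → ℝ) (hc : ∀ e, 0 < c e) (m : V → ℝ) (hm : ∀ x, 0 < m x)
    (R : Finset V) (G : Set (SimpleGraph V)) (ε₁ ε₂ lam a₁ a₂ Bs t L : ℝ)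
    (hG : PT c Gᶜ ≤ ε₁) (hR : ∑ x ∈ Rᶜ, m x ≤ ε₂ * ∑ x, m x) (hlam : 0 < lam) (M₁ : ℕ)
    (hU3 : ∀ T ∈ G, T.IsTree → ∀ (γ : ℕ → V) (ℓ : ℕ), M₁ ≤ ℓ → IsSAW T.Adj γ ℓ → γ ℓ ∈ R →
      ∀ f : V → ℝ, (∀ i ≤ M₁, f (γ i) = 0) → lam * ∑ x, m x * f x ^ 2 ≤ Dir c f)
    (E : Finset (Sym2 V)) (ha₁ : 0 ≤ a₁) (ha₂ : 0 ≤ a₂)
    (hU4 : ∀ T ∈ G, T.IsTree → ∀ (γ : ℕ → V) (ℓ : ℕ), IsSAW T.Adj γ ℓ → γ ℓ ∈ R →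
      (ℓ : ℝ) ≤ a₁ + a₂ * ((range ℓ).filter fun i => s(γ i, γ (i + 1)) ∈ E).card)
    (hU5 : ∑ e ∈ E, c e ≤ Bs * ∑ x, m x) (ht : 0 < t) (hL : 1 ≤ L) :
    PT c {T | ∃ (γ : ℕ → V) (ℓ : ℕ), IsSAW T.Adj γ ℓ ∧
      2 * (M₁ : ℝ) + 2 * (a₁ + 2 * a₂ * (t + 1) * Bs * L) < ℓ} ≤
      2 * ε₁ + 2 * ε₂ + (Fintype.card V : ℝ) ^ 2 * Real.exp (-lam * t) + 1 / L := by
  obtain rfl : ‹DecidableEq V› = fun a b => Classical.propDecidable (a = b) := Subsingleton.elim _ _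
  refine N.upper c hc m hm R G ε₁ ε₂ lam a₁ a₂ Bs t L hG ?_ hlam M₁ hU3 E ha₁ ha₂ ?_ hU5 ht hL
  · exact hR
  · intro T hT hTt γ ℓ h1 h2
    exact hU4 T hT hTt γ ℓ h1 h2

/-- N7. Theorem L (lower bound). -/
theorem lower_abstract [Nonempty V] (c : Sym2 V → ℝ) (hc : ∀ e, 0 < c e) (m : V → ℝ) (hm : ∀ x, 0 < m x)
    (R : Finset V) (G : Set (SimpleGraph V)) (ε₁ ε₂ ε₃ b₀ b₁ b₂ lam : ℝ) (hlam : 0 < lam)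
    (hG : PT c Gᶜ ≤ ε₁) (hR : ∑ x ∈ Rᶜ, m x ≤ ε₂ * ∑ x, m x)
    (hgap : ∀ f : V → ℝ, ∑ x, m x * f x = 0 → lam * ∑ x, m x * f x ^ 2 ≤ Dir c f)
    (h3 : ∑ x, m x ^ 2 ≤ ε₃ * (∑ x, m x) ^ 2) (s τ : ℕ) (hτ : 2 ≤ τ)
    (hs : τ ≤ s)
    (E₀ : Finset (Sym2 V)) (hE₀ : s * ∑ e ∈ E₀, c e ≤ b₀ * ∑ x, m x)
    (P : Finset (Sym2 V × Sym2 V)) (hP : (s : ℝ) ^ 2 * ∑ p ∈ P, c p.1 * c p.2 ≤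
      b₁ * (∑ x, m x) ^ 2)
    (Q : Finset (V × Sym2 V)) (hQ : s * ∑ p ∈ Q, m p.1 * c p.2 ≤ b₂ * (∑ x, m x) ^ 2) (M : ℕ)
    (hL : ∀ T ∈ G, T.IsTree → ∀ (γ : ℕ → V) (ℓ : ℕ), IsSAW T.Adj γ ℓ → ℓ < M → γ 0 ∈ R →
      γ ℓ ∈ R → γ 0 ≠ γ ℓ → (∀ i < ℓ, s(γ i, γ (i + 1)) ∉ E₀) →
      ∃ (q : ℕ) (g : ℕ → ℕ), (∀ j ≤ q, g j < ℓ) ∧ (q + 1) * τ + 2 * τ + 2 ≤ s ∧
        (γ 0, s(γ (g 0), γ (g 0 + 1))) ∈ Q ∧ (γ ℓ, s(γ (g q), γ (g q + 1))) ∈ Q ∧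
        ∀ j < q, (s(γ (g j), γ (g j + 1)), s(γ (g (j + 1)), γ (g (j + 1) + 1))) ∈ P ∨
          (s(γ (g (j + 1)), γ (g (j + 1) + 1)), s(γ (g j), γ (g j + 1))) ∈ P) :
    PT c {T | ∀ (γ : ℕ → V) (ℓ : ℕ), IsSAW T.Adj γ ℓ → ℓ < M} ≤
      ε₁ + 2 * ε₂ + ε₃ + 2 * b₀ + 8 * b₁ + 8 * b₂ +
        (1 + 2 * (s : ℝ) ^ 2 * P.card + 2 * s * Q.card) * Real.exp (-lam * (τ - 1)) := by
  obtain rfl : ‹DecidableEq V› = fun a b => Classical.propDecidable (a = b) := Subsingleton.elim _ _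
  exact N.lower c hc m hm R G ε₁ ε₂ ε₃ b₀ b₁ b₂ lam hlam hG hR hgap h3 s τ hτ hs E₀ hE₀ P hP Q hQ M hL

end RST
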