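import Pool.Agent.Lib.MP_7946c7_pr.N.Pb
import Pool.Agent.Lib.MP_7946c7_pr.N.Tr

/-!
# N/CEb. Expectations for the chain

PROOFS. All weights `m (ω 0) / tm m * tw P ω` are nonnegative (`tm m > 0` as soon as a trajectory exists);
their sum is `1`: `traj_prod` with `M i = P`, `u = m / tm`, `v = 1`, `mp_const`, `pow_one_vec`.
`CE_one`: `F X = φ (X i)`: `traj_prod` does not see the middle; argue by `k = i + (k - i)`: take
`M j = P` for `j ≠ i` … simplest: use `traj_prod` with `M j x y = P x y * (if j = i then φ x else 1)` for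
`i < k` and `v = φ` for `i = k`; the product of the matrices is `P^i * (diagonal φ * P) * P^(k-i-1)`
(`mp_add`, `mp_const`), and `∑_x m x (P^i g) x = ∑_x m x g x` (`Pm_stat`, induction), `P^j 1 = 1`.
`CE_pair`: same with `M j x y = P x y * (if j = i then φ x y else 1)`.
`cross_exp`: the cardinality is `∑_{i<k} (if X i ≠ X (i+1) ∧ s(X i, X (i+1)) ∈ E then 1 else 0)`, by `CE_pair`
each term has expectation `∑_{x ≠ y, s(x,y) ∈ E} c s(x,y) / (Λ tm)`, and `dir_sum` bounds it by
`2 ∑_{e ∈ E} c e / (Λ tm)`.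
-/

open Finset
open scoped Classical

namespace RST.N

variable {V : Type} [Fintype V]

theorem CE_add (c : Sym2 V → ℝ) (m : V → ℝ) (Λ k : ℕ) (F G : (ℕ → V) → ℝ) :
    CE c m Λ k (fun X => F X + G X) = CE c m Λ k F + CE c m Λ k G := by
  unfold CE
  rw [← Finset.sum_add_distrib]
  apply Finset.sum_congr rfl
  intro ω _
  ring

theorem CE_smul (c : Sym2 V → ℝ) (m : V → ℝ) (Λ k : ℕ) (a : ℝ) (F : (ℕ → V) → ℝ) :
    CE c m Λ k (fun X => a * F X) = a * CE c m Λ k F := by
  unfold CE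
  rw [Finset.mul_sum]
  apply Finset.sum_congr rfl
  intro ω _
  ring

theorem CE_sum (c : Sym2 V → ℝ) (m : V → ℝ) (Λ k : ℕ) {ι : Type} (s : Finset ι)
    (F : ι → (ℕ → V) → ℝ) :
    CE c m Λ k (fun X => ∑ i ∈ s, F i X) = ∑ i ∈ s, CE c m Λ k (F i) := by
  unfold CE
  rw [Finset.sum_comm]
  apply Finset.sum_congr rfl
  intro ω _
  rw [Finset.mul_sum]

private theorem CEb_w (c : Sym2 V → ℝ) (m : V → ℝ) (Λ k : ℕ) (hN : NetOK c m Λ)
    (ω : Fin (k + 1) → V) : 0 ≤ m (ω 0) / tm m * tw (Pm c m Λ) ω := by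
  apply mul_nonneg
  · exact div_nonneg (hN.m_pos _).le (Finset.sum_nonneg fun x _ => (hN.m_pos x).le)
  · exact Finset.prod_nonneg fun i _ => Pm_nonneg c m Λ hN _ _

theorem CE_mono (c : Sym2 V → ℝ) (m : V → ℝ) (Λ k : ℕ) (hN : NetOK c m Λ)
    {F G : (ℕ → V) → ℝ} (h : ∀ X, F X ≤ G X) : CE c m Λ k F ≤ CE c m Λ k G := by
  unfold CE
  apply Finset.sum_le_sum
  intro ω _
  exact mul_le_mul_of_nonneg_left (h _) (CEb_w c m Λ k hN ω)

/-- The weights of the trajectories as a product of matrices, with test functions at every step. -/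
private theorem CEb_prod (c : Sym2 V → ℝ) (m : V → ℝ) (Λ k : ℕ) (φ : ℕ → V → V → ℝ)
    (v : V → ℝ) :
    ∑ ω : Fin (k + 1) → V, m (ω 0) / tm m * tw (Pm c m Λ) ω *
        ((∏ i : Fin k, φ i (ω i.castSucc) (ω i.succ)) * v (ω (Fin.last k))) =
      ∑ x, m x / tm m *
        ((mp (fun j => Matrix.of fun x y => Pm c m Λ x y * φ j x y) 0 k).mulVec v) x := by
  rw [← traj_prod (fun j => Matrix.of fun x y => Pm c m Λ x y * φ j x y) (fun x => m x / tm m) v k]
  apply Finset.sum_congr rfl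
  intro ω _
  unfold tw
  simp only [Matrix.of_apply]
  rw [Finset.prod_mul_distrib]
  ring

private theorem CEb_inv (c : Sym2 V → ℝ) (m : V → ℝ) (Λ : ℕ) (hN : NetOK c m Λ) (j : ℕ)
    (g : V → ℝ) : ∑ x, m x / tm m * ((Pm c m Λ ^ j).mulVec g) x = ∑ x, m x / tm m * g x := by
  induction j generalizing g with
  | zero => rw [pow_zero, Matrix.one_mulVec]
  | succ j ih =>
    rw [pow_succ, ← Matrix.mulVec_mulVec, ih]
    calc ∑ x, m x / tm m * ((Pm c m Λ).mulVec g) x
        = ∑ x, ∑ y, m x * Pm c m Λ x y * (g y / tm m) := by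
          apply Finset.sum_congr rfl
          intro x _
          rw [Matrix.mulVec, dotProduct, Finset.mul_sum]
          apply Finset.sum_congr rfl
          intro y _
          ring
      _ = ∑ y, ∑ x, m x * Pm c m Λ x y * (g y / tm m) := Finset.sum_comm
      _ = ∑ x, m x / tm m * g x := by
          apply Finset.sum_congr rfl
          intro y _
          rw [← Finset.sum_mul, Pm_stat c m Λ hN y]
          ring

private theorem CEb_last (c : Sym2 V → ℝ) (m : V → ℝ) (Λ k : ℕ) (hN : NetOK c m Λ)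
    (φ : V → ℝ) : CE c m Λ k (fun X => φ (X k)) = ∑ x, m x / tm m * φ x := by
  have h1 := CEb_prod c m Λ k (fun _ _ _ => 1) φ
  have h2 : mp (fun _ => Matrix.of fun x y => Pm c m Λ x y * 1) 0 k = Pm c m Λ ^ k := by
    apply mp_const
    intro i _ _
    ext x y
    rw [Matrix.of_apply, mul_one]
  rw [h2, CEb_inv c m Λ hN] at h1
  rw [← h1]
  unfold CE
  apply Finset.sum_congr rfl
  intro ω _
  show m (ω 0) / tm m * tw (Pm c m Λ) ω * φ (ext ω k) = _
  rw [ext_last, Finset.prod_const_one, one_mul]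

theorem CE_const [Nonempty V] (c : Sym2 V → ℝ) (m : V → ℝ) (Λ k : ℕ) (hN : NetOK c m Λ) (a : ℝ) :
    CE c m Λ k (fun _ => a) = a := by
  have h := CEb_last c m Λ k hN (fun _ => a)
  rw [← Finset.sum_mul, ← Finset.sum_div] at h
  have h2 : (∑ x, m x) / tm m = 1 := div_self (tm_pos m hN.m_pos).ne'
  rw [h2, one_mul] at h
  exact h

theorem CP_nonneg (c : Sym2 V → ℝ) (m : V → ℝ) (Λ k : ℕ) (hN : NetOK c m Λ)
    (S : Set (ℕ → V)) : 0 ≤ CP c m Λ k S := by
  unfold CP CE
  apply Finset.sum_nonneg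
  intro ω _
  apply mul_nonneg (CEb_w c m Λ k hN ω)
  show (0 : ℝ) ≤ if ext ω ∈ S then 1 else 0
  split_ifs
  · exact zero_le_one
  · exact le_rfl

theorem CP_mono (c : Sym2 V → ℝ) (m : V → ℝ) (Λ k : ℕ) (hN : NetOK c m Λ)
    {S S' : Set (ℕ → V)} (h : S ⊆ S') : CP c m Λ k S ≤ CP c m Λ k S' := by
  apply CE_mono c m Λ k hN
  intro X
  by_cases h1 : X ∈ S
  · rw [if_pos h1, if_pos (h h1)]
  · rw [if_neg h1]
    split_ifs
    · exact zero_le_one
    · exact le_rfl

theorem CP_biUnion (c : Sym2 V → ℝ) (m : V → ℝ) (Λ k : ℕ) (hN : NetOK c m Λ) {ι : Type}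
    (s : Finset ι) (A : Set (ℕ → V)) (S : ι → Set (ℕ → V)) (h : ∀ X ∈ A, ∃ i ∈ s, X ∈ S i) :
    CP c m Λ k A ≤ ∑ i ∈ s, CP c m Λ k (S i) := by
  unfold CP
  rw [← CE_sum]
  apply CE_mono c m Λ k hN
  intro X
  have h0 : ∀ i ∈ s, (0 : ℝ) ≤ (if X ∈ S i then 1 else 0) := by
    intro i _
    split_ifs
    · exact zero_le_one
    · exact le_rfl
  by_cases h1 : X ∈ A
  · obtain ⟨i, hi, h2⟩ := h X h1
    rw [if_pos h1]
    calc (1 : ℝ) = (if X ∈ S i then 1 else 0) := by rw [if_pos h2]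
      _ ≤ ∑ i ∈ s, (if X ∈ S i then 1 else 0) :=
        Finset.single_le_sum (f := fun i => (if X ∈ S i then (1 : ℝ) else 0)) h0 hi
  · rw [if_neg h1]
    exact Finset.sum_nonneg h0

/-- Markov's inequality. -/
theorem CP_markov (c : Sym2 V → ℝ) (m : V → ℝ) (Λ k : ℕ) (hN : NetOK c m Λ)
    (F : (ℕ → V) → ℝ) (hF : ∀ X, 0 ≤ F X) (a b : ℝ) (ha : CE c m Λ k F ≤ a) (hb : 1 ≤ b) :
    CP c m Λ k {X | b * a < F X} ≤ 1 / b := by
  have hb0 : 0 < b := by linarith
  have hCE : 0 ≤ CE c m Λ k F := by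
    unfold CE
    exact Finset.sum_nonneg fun ω _ => mul_nonneg (CEb_w c m Λ k hN ω) (hF _)
  have ha0 : 0 ≤ a := le_trans hCE ha
  rcases ha0.lt_or_eq with h | h
  · have hab : 0 < b * a := mul_pos hb0 h
    have h1 : CP c m Λ k {X | b * a < F X} ≤ CE c m Λ k (fun X => (1 / (b * a)) * F X) := by
      apply CE_mono c m Λ k hN
      intro X
      by_cases h2 : X ∈ {X | b * a < F X}
      · rw [if_pos h2]
        have h3 : b * a < F X := h2
        rw [one_div, inv_mul_eq_div, one_le_div hab]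
        exact h3.le
      · rw [if_neg h2]
        exact mul_nonneg (by positivity) (hF X)
    rw [CE_smul] at h1
    refine le_trans h1 ?_
    calc (1 / (b * a)) * CE c m Λ k F ≤ (1 / (b * a)) * a :=
          mul_le_mul_of_nonneg_left ha (by positivity)
      _ = 1 / b := by
          field_simp
  · -- `a = 0`
    have h1 : CE c m Λ k F = 0 := le_antisymm (by rw [h]; exact ha) hCE
    have h2 : CP c m Λ k {X | b * a < F X} = 0 := by
      unfold CE at h1
      rw [Finset.sum_eq_zero_iff_of_nonneg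
        (fun ω _ => mul_nonneg (CEb_w c m Λ k hN ω) (hF _))] at h1
      unfold CP CE
      apply Finset.sum_eq_zero
      intro ω hω
      rcases mul_eq_zero.1 (h1 ω hω) with h3 | h3
      · rw [h3, zero_mul]
      · show m (ω 0) / tm m * tw (Pm c m Λ) ω *
          (if ext ω ∈ {X : ℕ → V | b * a < F X} then (1 : ℝ) else 0) = 0
        rw [if_neg, mul_zero]
        intro h4
        have h5 : b * a < F (ext ω) := h4
        rw [h3, ← h, mul_zero] at h5
        exact lt_irrefl _ h5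
    rw [h2]
    positivity

theorem CE_pair (c : Sym2 V → ℝ) (m : V → ℝ) (Λ k : ℕ) (hN : NetOK c m Λ) (i : ℕ) (hi : i < k)
    (φ : V → V → ℝ) :
    CE c m Λ k (fun X => φ (X i) (X (i + 1))) =
      ∑ x, ∑ y, m x / tm m * Pm c m Λ x y * φ x y := by
  obtain ⟨r, rfl⟩ : ∃ r, k = i + (r + 1) := ⟨k - i - 1, by omega⟩
  have h1 := CEb_prod c m Λ (i + (r + 1)) (fun j x y => if j = i then φ x y else 1) (fun _ => 1)
  set M : ℕ → Matrix V V ℝ := fun j => Matrix.of fun x y =>
    Pm c m Λ x y * (if j = i then φ x y else 1) with hM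
  have h2 : mp M 0 (i + (r + 1)) = Pm c m Λ ^ i * (M i * Pm c m Λ ^ r) := by
    rw [mp_add, zero_add]
    have h3 : mp M 0 i = Pm c m Λ ^ i := by
      apply mp_const
      intro j _ hj
      rw [hM]
      ext x y
      show Pm c m Λ x y * (if j = i then φ x y else 1) = Pm c m Λ x y
      rw [if_neg (by omega), mul_one]
    have h4 : mp M (i + 1) r = Pm c m Λ ^ r := by
      apply mp_const
      intro j hj _
      rw [hM]
      ext x y
      show Pm c m Λ x y * (if j = i then φ x y else 1) = Pm c m Λ x y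
      rw [if_neg (by omega), mul_one]
    rw [h3]
    show Pm c m Λ ^ i * (M i * mp M (i + 1) r) = _
    rw [h4]
  rw [h2, ← Matrix.mulVec_mulVec, CEb_inv c m Λ hN, ← Matrix.mulVec_mulVec,
    pow_one_vec _ (Pm_row c m Λ hN)] at h1
  have h5 : CE c m Λ (i + (r + 1)) (fun X => φ (X i) (X (i + 1))) =
      ∑ ω : Fin (i + (r + 1) + 1) → V, m (ω 0) / tm m * tw (Pm c m Λ) ω *
        ((∏ j : Fin (i + (r + 1)), (fun j x y => if j = i then φ x y else 1) (j : ℕ)
          (ω j.castSucc) (ω j.succ)) * (fun _ => 1) (ω (Fin.last (i + (r + 1))))) := by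
    unfold CE
    apply Finset.sum_congr rfl
    intro ω _
    congr 1
    show _ = (∏ j : Fin (i + (r + 1)), (if (j : ℕ) = i then φ (ω j.castSucc) (ω j.succ) else 1)) * 1
    rw [mul_one]
    have hi' : i < i + (r + 1) := by omega
    rw [Finset.prod_eq_single (⟨i, hi'⟩ : Fin (i + (r + 1)))]
    · rw [if_pos rfl, (ext_castSucc ω ⟨i, hi'⟩).1, (ext_castSucc ω ⟨i, hi'⟩).2]
    · intro j _ hj
      rw [if_neg]
      intro h6
      exact hj (Fin.ext h6)
    · intro h6
      exact absurd (Finset.mem_univ _) h6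
  rw [h5, h1]
  apply Finset.sum_congr rfl
  intro x _
  rw [Matrix.mulVec, dotProduct, Finset.mul_sum]
  apply Finset.sum_congr rfl
  intro y _
  rw [hM]
  simp only [Matrix.of_apply, if_true]
  ring

theorem CE_one (c : Sym2 V → ℝ) (m : V → ℝ) (Λ k : ℕ) (hN : NetOK c m Λ) (i : ℕ) (hi : i ≤ k)
    (φ : V → ℝ) : CE c m Λ k (fun X => φ (X i)) = ∑ x, m x / tm m * φ x := by
  rcases hi.lt_or_eq with h | h
  · rw [CE_pair c m Λ k hN i h (fun x _ => φ x)]
    apply Finset.sum_congr rfl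
    intro x _
    calc ∑ y, m x / tm m * Pm c m Λ x y * φ x = (m x / tm m * φ x) * ∑ y, Pm c m Λ x y := by
          rw [Finset.mul_sum]
          apply Finset.sum_congr rfl
          intro y _
          ring
      _ = m x / tm m * φ x := by rw [Pm_row c m Λ hN, mul_one]
  · rw [h]
    exact CEb_last c m Λ k hN φ

theorem cross_exp (c : Sym2 V → ℝ) (m : V → ℝ) (Λ k : ℕ) (hN : NetOK c m Λ)
    (E : Finset (Sym2 V)) :
    CE c m Λ k (fun X => (((range k).filter fun i =>
      X i ≠ X (i + 1) ∧ s(X i, X (i + 1)) ∈ E).card : ℝ)) ≤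
      2 * k * (∑ e ∈ E, c e) / (Λ * tm m) := by
  have hL : (0 : ℝ) < Λ := by
    have h := hN.one_le
    exact_mod_cast (by omega : 0 < Λ)
  have htm : 0 ≤ tm m := Finset.sum_nonneg fun x _ => (hN.m_pos x).le
  have h1 : (fun X : ℕ → V => (((range k).filter fun i =>
      X i ≠ X (i + 1) ∧ s(X i, X (i + 1)) ∈ E).card : ℝ)) =
      fun X => ∑ i ∈ range k, (fun x y : V => if x ≠ y ∧ s(x, y) ∈ E then (1 : ℝ) else 0)
        (X i) (X (i + 1)) := by
    funext X
    rw [Finset.card_filter]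
    push_cast
    rfl
  rw [h1, CE_sum]
  have h2 : ∀ i ∈ range k, CE c m Λ k (fun X =>
      (fun x y : V => if x ≠ y ∧ s(x, y) ∈ E then (1 : ℝ) else 0) (X i) (X (i + 1))) ≤
      2 * (∑ e ∈ E, c e) / (Λ * tm m) := by
    intro i hi
    rw [CE_pair c m Λ k hN i (Finset.mem_range.1 hi)
      (fun x y : V => if x ≠ y ∧ s(x, y) ∈ E then (1 : ℝ) else 0)]
    have h3 : ∑ x, ∑ y, m x / tm m * Pm c m Λ x y * (if x ≠ y ∧ s(x, y) ∈ E then (1 : ℝ) else 0) =
        ∑ x, ∑ y ∈ univ.erase x,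
          (fun e => (if e ∈ E then c e else 0) / (Λ * tm m)) s(x, y) := by
      apply Finset.sum_congr rfl
      intro x _
      rw [← Finset.add_sum_erase univ _ (Finset.mem_univ x), if_neg (fun h => h.1 rfl), mul_zero,
        zero_add]
      apply Finset.sum_congr rfl
      intro y hy
      rw [Finset.mem_erase] at hy
      have hxy : x ≠ y := Ne.symm hy.1
      have hx := hN.m_pos x
      have hP : Pm c m Λ x y = c s(x, y) / (Λ * m x) := by
        unfold Pm
        rw [Matrix.of_apply, if_neg hxy]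
      rw [hP]
      show _ = (if s(x, y) ∈ E then c s(x, y) else 0) / (Λ * tm m)
      by_cases he : s(x, y) ∈ E
      · rw [if_pos ⟨hxy, he⟩, if_pos he, mul_one]
        have h4 : m x / tm m * (c s(x, y) / (Λ * m x)) = (m x / m x) * (c s(x, y) / (Λ * tm m)) := by
          rw [div_mul_div_comm, div_mul_div_comm]
          congr 1
          ring
        rw [h4, div_self hx.ne', one_mul]
      · rw [if_neg (fun h => he h.2), if_neg he, mul_zero, zero_div]
    rw [h3, dir_sum (fun e => (if e ∈ E then c e else 0) / (Λ * tm m))]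
    have h5 : ∑ e ∈ univ.filter (fun e : Sym2 V => ¬ e.IsDiag),
        (fun e => (if e ∈ E then c e else 0) / (Λ * tm m)) e ≤ (∑ e ∈ E, c e) / (Λ * tm m) := by
      have h6 : (∑ e ∈ E, c e) / (Λ * tm m) =
          ∑ e : Sym2 V, (if e ∈ E then c e else 0) / (Λ * tm m) := by
        rw [← Finset.sum_div, Finset.sum_ite_mem, Finset.univ_inter]
      rw [h6]
      apply Finset.sum_le_sum_of_subset_of_nonneg (Finset.filter_subset _ _)
      intro e _ _
      apply div_nonneg _ (mul_nonneg hL.le htm)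
      split_ifs
      · exact (hN.c_pos e).le
      · exact le_rfl
    calc 2 * ∑ e ∈ univ.filter (fun e : Sym2 V => ¬ e.IsDiag),
          (fun e => (if e ∈ E then c e else 0) / (Λ * tm m)) e
        ≤ 2 * ((∑ e ∈ E, c e) / (Λ * tm m)) := by linarith
      _ = 2 * (∑ e ∈ E, c e) / (Λ * tm m) := by ring
  refine le_trans (Finset.sum_le_sum h2) ?_
  rw [Finset.sum_const, Finset.card_range, nsmul_eq_mul]
  apply le_of_eq
  ring

end RST.N
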