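import Pool.Agent.Lib.MP_7946c7_pr.N.SwapC

/-!
# N/Cost. The cost product (N3)

PROOF. For `t : ℕ` let `S t := {e | ∃ i < ℓ, ord i < t ∧ e = s(γ i, γ (i+1))}`. Claim, by induction
on `t`: `PT c {T | S t ⊆ T.edgeSet} ≤ ∏ k ∈ K.filter (fun k => ord k < t), min 1 (c s(γ k, γ (k+1)) * R k)`
(all `k ∈ K` are `< ℓ`). `t = 0`: `PT_le_one`. Step: if no `i < ℓ` has `ord i = t`, then `S (t+1) = S t`
and the products agree. Otherwise `i` is unique (`hord`), `S (t+1) = insert s(γ i, γ (i+1)) (S t)`,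
`{S (t+1) ⊆ T} = {S t ⊆ T ∧ e_i ∈ T}` and the left side is at most `PT {S t ⊆ T}` (`PT_mono`); this is
enough if `i ∉ K`. If `i ∈ K`, also `≤ (c e_i * R i) * PT {S t ⊆ T}` by `swap_contain` with `x = γ i`,
`y = γ (i+1)`, `ρ`, `len` from `hK i`: `e_i ∉ S t` (`s(γ i, γ (i+1)) = s(γ j, γ (j+1))`, `i, j < ℓ`,
forces `i = j` by `hγ`); `γ (a i), …, γ i` are joined by edges of `S t`, so are `γ (i+1), …, γ (b i)`,
and `ρ` joins `γ (a i)` to `γ (b i)` (each step `ρ j ≠ ρ (j+1)` is an edge of the graph). The factor: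
`∑ c e_i / c f_j = c e_i * ∑ 1 / c f_j ≤ c e_i * R i`. So the factor is `min 1 (c e_i * R i)`
(it is `≥ 0` in any case because `R i ≥ 0`). Finally take `t` larger than all `ord i`, `i < ℓ`:
`{T | ∀ i < ℓ, T.Adj (γ i) (γ (i+1))} = {T | S t ⊆ T.edgeSet}`.
-/

open Finset
open scoped Classical

namespace RST.N

variable {V : Type} [Fintype V]

omit [Fintype V] in
private theorem cost_reach (G : SimpleGraph V) (f : ℕ → V) (a b : ℕ) (hab : a ≤ b)
    (h : ∀ j, a ≤ j → j < b → G.Adj (f j) (f (j + 1))) : G.Reachable (f a) (f b) := by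
  induction b, hab using Nat.le_induction with
  | base => exact SimpleGraph.Reachable.refl _
  | succ b hb ih =>
    exact (ih fun j h1 h2 => h j h1 (Nat.lt_succ_of_lt h2)).trans (h b hb (Nat.lt_succ_self b)).reachable

omit [Fintype V] in
private theorem cost_inj (γ : ℕ → V) (ℓ : ℕ) (hγ : ∀ i ≤ ℓ, ∀ j ≤ ℓ, γ i = γ j → i = j) (i j : ℕ)
    (hi : i < ℓ) (hj : j < ℓ) (h : s(γ i, γ (i + 1)) = s(γ j, γ (j + 1))) : i = j := by
  rcases Sym2.eq_iff.1 h with ⟨h1, _⟩ | ⟨h1, h2⟩
  · exact hγ i hi.le j hj.le h1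
  · have h3 := hγ i hi.le (j + 1) hj h1
    have h4 := hγ (i + 1) hi j hj.le h2
    omega

/-- the edges revealed before time `t` -/
private def cost_S (γ : ℕ → V) (ℓ : ℕ) (ord : ℕ → ℕ) (t : ℕ) : Set (Sym2 V) :=
  {e | ∃ i < ℓ, ord i < t ∧ e = s(γ i, γ (i + 1))}

private theorem cost_aux (c : Sym2 V → ℝ) (hc : ∀ e, 0 < c e) (γ : ℕ → V) (ℓ : ℕ)
    (hγ : ∀ i ≤ ℓ, ∀ j ≤ ℓ, γ i = γ j → i = j) (ord : ℕ → ℕ) (hord : Set.InjOn ord (Set.Iio ℓ))
    (K : Finset ℕ) (a b : ℕ → ℕ) (R : ℕ → ℝ)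
    (hK : ∀ k ∈ K, a k ≤ k ∧ k < b k ∧ b k ≤ ℓ ∧
      (∀ j, a k ≤ j → j < b k → j ≠ k → ord j < ord k) ∧
      ∃ (ρ : ℕ → V) (len : ℕ), ρ 0 = γ (a k) ∧ ρ len = γ (b k) ∧ (∀ i < len, ρ i ≠ ρ (i + 1)) ∧
        ∑ i ∈ range len, 1 / c s(ρ i, ρ (i + 1)) ≤ R k) (t : ℕ) :
    PT c {T | cost_S γ ℓ ord t ⊆ T.edgeSet} ≤
      ∏ k ∈ K.filter (fun k => ord k < t), min 1 (c s(γ k, γ (k + 1)) * R k) := by
  have hR : ∀ k ∈ K, 0 ≤ R k := by
    intro k hk
    obtain ⟨_, _, _, _, ρ, len, _, _, _, h⟩ := hK k hk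
    exact (Finset.sum_nonneg fun i _ => (one_div_pos.2 (hc _)).le).trans h
  have hm : ∀ k ∈ K, 0 ≤ min 1 (c s(γ k, γ (k + 1)) * R k) := fun k hk =>
    le_min zero_le_one (mul_nonneg (hc _).le (hR k hk))
  induction t with
  | zero =>
    rw [Finset.filter_false_of_mem (fun k _ => Nat.not_lt_zero _), Finset.prod_empty]
    exact PT_le_one c hc _
  | succ t ih =>
    by_cases hex : ∃ i < ℓ, ord i = t
    · obtain ⟨i, hi, hit⟩ := hex
      have hSsucc : cost_S γ ℓ ord (t + 1) = insert s(γ i, γ (i + 1)) (cost_S γ ℓ ord t) := by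
        ext e
        simp only [cost_S, Set.mem_ofPred_eq, Set.mem_insert_iff]
        constructor
        · rintro ⟨j, hj, hjt, rfl⟩
          rcases Nat.lt_succ_iff_lt_or_eq.1 hjt with h | h
          · exact Or.inr ⟨j, hj, h, rfl⟩
          · left
            rw [hord (Set.mem_Iio.2 hj) (Set.mem_Iio.2 hi) (h.trans hit.symm)]
        · rintro (rfl | ⟨j, hj, hjt, rfl⟩)
          · exact ⟨i, hi, by omega, rfl⟩
          · exact ⟨j, hj, by omega, rfl⟩
      have hle : PT c {T | cost_S γ ℓ ord (t + 1) ⊆ T.edgeSet} ≤ PT c {T | cost_S γ ℓ ord t ⊆ T.edgeSet} := by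
        apply PT_mono c hc
        intro T hT _
        rw [Set.mem_ofPred_eq, hSsucc] at hT
        exact (Set.subset_insert _ _).trans hT
      by_cases hiK : i ∈ K
      · have hfil : K.filter (fun k => ord k < t + 1) = insert i (K.filter (fun k => ord k < t)) := by
          ext k
          simp only [Finset.mem_filter, Finset.mem_insert]
          constructor
          · rintro ⟨hk, hkt⟩
            rcases Nat.lt_succ_iff_lt_or_eq.1 hkt with h | h
            · exact Or.inr ⟨hk, h⟩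
            · left
              obtain ⟨_, h1, h2, _⟩ := hK k hk
              exact hord (Set.mem_Iio.2 (h1.trans_le h2)) (Set.mem_Iio.2 hi) (h.trans hit.symm)
          · rintro (rfl | ⟨hk, hkt⟩)
            · exact ⟨hiK, by omega⟩
            · exact ⟨hk, by omega⟩
        have hnot : i ∉ K.filter (fun k => ord k < t) := by
          rw [Finset.mem_filter]
          rintro ⟨_, h⟩
          omega
        rw [hfil, Finset.prod_insert hnot]
        have hP0 : 0 ≤ PT c {T | cost_S γ ℓ ord t ⊆ T.edgeSet} := PT_nonneg c hc _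
        have hstep : PT c {T | cost_S γ ℓ ord (t + 1) ⊆ T.edgeSet} ≤
            min 1 (c s(γ i, γ (i + 1)) * R i) * PT c {T | cost_S γ ℓ ord t ⊆ T.edgeSet} := by
          rw [min_mul_of_nonneg _ _ hP0, one_mul]
          refine le_min hle ?_
          obtain ⟨h1, h2, h3, h4, ρ, len, h5, h6, h7, h8⟩ := hK i hiK
          have hnS : s(γ i, γ (i + 1)) ∉ cost_S γ ℓ ord t := by
            rintro ⟨j, hj, hjt, he⟩
            have := cost_inj γ ℓ hγ i j hi hj he
            subst this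
            omega
          have hadj : ∀ j, a i ≤ j → j < b i → j ≠ i →
              (SimpleGraph.fromEdgeSet (cost_S γ ℓ ord t ∪ {f | ∃ i < len, f = s(ρ i, ρ (i + 1))})).Adj
                (γ j) (γ (j + 1)) := by
            intro j hj1 hj2 hj3
            rw [SimpleGraph.fromEdgeSet_adj]
            have hjℓ : j < ℓ := hj2.trans_le h3
            refine ⟨Or.inl ⟨j, hjℓ, ?_, rfl⟩, ?_⟩
            · have := h4 j hj1 hj2 hj3
              omega
            · intro he
              have := hγ j hjℓ.le (j + 1) hjℓ he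
              omega
          have hconn : (SimpleGraph.fromEdgeSet (cost_S γ ℓ ord t ∪
              {f | ∃ i < len, f = s(ρ i, ρ (i + 1))})).Reachable (γ i) (γ (i + 1)) := by
            have r1 := cost_reach _ γ (a i) i h1 fun j hj1 hj2 => hadj j hj1 (by omega) (by omega)
            have r2 := cost_reach _ γ (i + 1) (b i) h2 fun j hj1 hj2 => hadj j (by omega) hj2 (by omega)
            have r3 := cost_reach (SimpleGraph.fromEdgeSet (cost_S γ ℓ ord t ∪
              {f | ∃ i < len, f = s(ρ i, ρ (i + 1))})) ρ 0 len (Nat.zero_le _) fun j _ hj => by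
                rw [SimpleGraph.fromEdgeSet_adj]
                exact ⟨Or.inr ⟨j, hj, rfl⟩, h7 j hj⟩
            rw [h5, h6] at r3
            exact r1.symm.trans (r3.trans r2.symm)
          have hsw := swap_contain c hc (cost_S γ ℓ ord t) (γ i) (γ (i + 1)) hnS ρ len hconn
          have hset : PT c {T | cost_S γ ℓ ord (t + 1) ⊆ T.edgeSet} ≤
              PT c {T | cost_S γ ℓ ord t ⊆ T.edgeSet ∧ s(γ i, γ (i + 1)) ∈ T.edgeSet} := by
            apply PT_mono c hc
            intro T hT _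
            rw [Set.mem_ofPred_eq, hSsucc, Set.insert_subset_iff] at hT
            exact ⟨hT.2, hT.1⟩
          refine hset.trans (hsw.trans (mul_le_mul_of_nonneg_right ?_ hP0))
          calc ∑ j ∈ range len, c s(γ i, γ (i + 1)) / c s(ρ j, ρ (j + 1))
              = c s(γ i, γ (i + 1)) * ∑ j ∈ range len, 1 / c s(ρ j, ρ (j + 1)) := by
                rw [Finset.mul_sum]
                exact Finset.sum_congr rfl fun j _ => by rw [mul_one_div]
            _ ≤ c s(γ i, γ (i + 1)) * R i := mul_le_mul_of_nonneg_left h8 (hc _).le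
        exact hstep.trans (mul_le_mul_of_nonneg_left ih (hm i hiK))
      · have hfil : K.filter (fun k => ord k < t + 1) = K.filter (fun k => ord k < t) := by
          apply Finset.filter_congr
          intro k hk
          constructor
          · intro hkt
            rcases Nat.lt_succ_iff_lt_or_eq.1 hkt with h | h
            · exact h
            · exfalso
              obtain ⟨_, h1, h2, _⟩ := hK k hk
              apply hiK
              rw [← hord (Set.mem_Iio.2 (h1.trans_le h2)) (Set.mem_Iio.2 hi) (h.trans hit.symm)]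
              exact hk
          · intro hkt
            omega
        rw [hfil]
        exact hle.trans ih
    · have hfil : K.filter (fun k => ord k < t + 1) = K.filter (fun k => ord k < t) := by
        apply Finset.filter_congr
        intro k hk
        constructor
        · intro hkt
          rcases Nat.lt_succ_iff_lt_or_eq.1 hkt with h | h
          · exact h
          · exfalso
            obtain ⟨_, h1, h2, _⟩ := hK k hk
            exact hex ⟨k, h1.trans_le h2, h⟩
        · intro hkt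
          omega
      rw [hfil]
      refine le_trans (PT_mono c hc ?_) ih
      intro T hT _
      refine Set.Subset.trans ?_ hT
      rintro e ⟨j, hj, hjt, rfl⟩
      exact ⟨j, hj, by omega, rfl⟩

theorem cost_product (c : Sym2 V → ℝ) (hc : ∀ e, 0 < c e) (γ : ℕ → V) (ℓ : ℕ)
    (hγ : ∀ i ≤ ℓ, ∀ j ≤ ℓ, γ i = γ j → i = j) (ord : ℕ → ℕ) (hord : Set.InjOn ord (Set.Iio ℓ))
    (K : Finset ℕ) (a b : ℕ → ℕ) (R : ℕ → ℝ)
    (hK : ∀ k ∈ K, a k ≤ k ∧ k < b k ∧ b k ≤ ℓ ∧
      (∀ j, a k ≤ j → j < b k → j ≠ k → ord j < ord k) ∧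
      ∃ (ρ : ℕ → V) (len : ℕ), ρ 0 = γ (a k) ∧ ρ len = γ (b k) ∧ (∀ i < len, ρ i ≠ ρ (i + 1)) ∧
        ∑ i ∈ range len, 1 / c s(ρ i, ρ (i + 1)) ≤ R k) :
    PT c {T | ∀ i < ℓ, T.Adj (γ i) (γ (i + 1))} ≤
      ∏ k ∈ K, min 1 (c s(γ k, γ (k + 1)) * R k) := by
  have hK' := hK
  obtain ⟨t, ht⟩ : ∃ t, ∀ i < ℓ, ord i < t := by
    refine ⟨(Finset.range ℓ).sup ord + 1, fun i hi => ?_⟩
    exact Nat.lt_succ_of_le (Finset.le_sup (f := ord) (Finset.mem_range.2 hi))
  have h1 := cost_aux c hc γ ℓ hγ ord hord K a b R hK t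
  have h2 : K.filter (fun k => ord k < t) = K := by
    apply Finset.filter_true_of_mem
    intro k hk
    obtain ⟨_, h1, h2, _⟩ := hK k hk
    exact ht k (h1.trans_le h2)
  rw [h2] at h1
  refine le_trans (PT_mono c hc ?_) h1
  intro T hT _
  rintro e ⟨j, hj, _, rfl⟩
  exact hT j hj

end RST.N
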