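import Pool.Agent.Lib.MP_7946c7_pr.Defs

/-!
# Stream N: definitions

Every file of this stream uses `open scoped Classical` and no `[DecidableEq V]`.
-/

open Finset
open scoped Classical

namespace RST.N

variable {V : Type} [Fintype V]

/-- Remove `e`, add `f`. -/
noncomputable def swp (T : SimpleGraph V) (e f : Sym2 V) : SimpleGraph V :=
  T.deleteEdges {e} ⊔ SimpleGraph.fromEdgeSet {f}

/-- Weighted sum over the spanning trees. -/
noncomputable def ET (c : Sym2 V → ℝ) (F : SimpleGraph V → ℝ) : ℝ :=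
  ∑ T : SimpleGraph V, if T.IsTree then wtT c T * F T else 0

/-- `π` is a tree with all edges directed to the root `r`. -/
def IsRT (r : V) (π : V → V) : Prop := π r = r ∧ ∀ x, ∃ k, π^[k] x = r

/-- The graph of a map. -/
def gof (π : V → V) : SimpleGraph V := SimpleGraph.fromRel fun x y => π x = y

/-- Weight of a rooted tree. -/
noncomputable def wR (c : Sym2 V → ℝ) (r : V) (π : V → V) : ℝ := ∏ x ∈ univ.erase r, c s(x, π x)

/-- The root moves from `r` to `y`. -/
noncomputable def mv (r : V) (π : V → V) (y : V) : V → V :=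
  if y = r then π else Function.update (Function.update π r y) y y

/-- The tree after `k` moves. -/
noncomputable def piN (X : ℕ → V) (π : V → V) : ℕ → V → V
  | 0 => π
  | k + 1 => mv (X k) (piN X π k) (X (k + 1))

/-- Total conductance at `x`. -/
noncomputable def cv (c : Sym2 V → ℝ) (x : V) : ℝ := ∑ y ∈ univ.erase x, c s(x, y)

/-- The hypotheses on conductances, masses and the integer `Λ`. -/
structure NetOK (c : Sym2 V → ℝ) (m : V → ℝ) (Λ : ℕ) : Prop where
  c_pos : ∀ e, 0 < c e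
  m_pos : ∀ x, 0 < m x
  one_le : 1 ≤ Λ
  two_cv : ∀ x, 2 * cv c x ≤ Λ * m x

/-- The total mass. -/
noncomputable def tm (m : V → ℝ) : ℝ := ∑ x, m x

/-- Transition matrix. -/
noncomputable def Pm (c : Sym2 V → ℝ) (m : V → ℝ) (Λ : ℕ) : Matrix V V ℝ :=
  Matrix.of fun x y => if x = y then 1 - cv c x / (Λ * m x) else c s(x, y) / (Λ * m x)

/-- The part of the transition matrix crossing `e`. -/
noncomputable def Pe (c : Sym2 V → ℝ) (m : V → ℝ) (Λ : ℕ) (e : Sym2 V) : Matrix V V ℝ :=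
  Matrix.of fun x y => if x ≠ y ∧ s(x, y) = e then c s(x, y) / (Λ * m x) else 0

/-- `P ^ Λ - (P - P_e) ^ Λ`: crossing `e` within `Λ` steps. -/
noncomputable def Cm (c : Sym2 V → ℝ) (m : V → ℝ) (Λ : ℕ) (e : Sym2 V) : Matrix V V ℝ :=
  Pm c m Λ ^ Λ - (Pm c m Λ - Pe c m Λ e) ^ Λ

/-- Product `M a * M (a+1) * ... * M (a+n-1)`. -/
noncomputable def mp (M : ℕ → Matrix V V ℝ) : ℕ → ℕ → Matrix V V ℝ
  | _, 0 => 1
  | a, n + 1 => M a * mp M (a + 1) n

/-- Extension of a finite trajectory. -/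
def ext {k : ℕ} (ω : Fin (k + 1) → V) (i : ℕ) : V :=
  ω ⟨min i k, Nat.lt_succ_of_le (Nat.min_le_right i k)⟩

/-- Weight of a trajectory. -/
noncomputable def tw (P : Matrix V V ℝ) {k : ℕ} (ω : Fin (k + 1) → V) : ℝ :=
  ∏ i : Fin k, P (ω i.castSucc) (ω i.succ)

/-- Expectation for the stationary chain `X 0, …, X k`. -/
noncomputable def CE (c : Sym2 V → ℝ) (m : V → ℝ) (Λ k : ℕ) (F : (ℕ → V) → ℝ) : ℝ :=
  ∑ ω : Fin (k + 1) → V, m (ω 0) / tm m * tw (Pm c m Λ) ω * F (ext ω)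

/-- Probability for the stationary chain. -/
noncomputable def CP (c : Sym2 V → ℝ) (m : V → ℝ) (Λ k : ℕ) (S : Set (ℕ → V)) : ℝ :=
  CE c m Λ k fun X => if X ∈ S then 1 else 0

/-- Joint expectation of the rooted tree (rooted at `X 0`) and of the chain. -/
noncomputable def JE (c : Sym2 V → ℝ) (m : V → ℝ) (Λ k : ℕ) (F : (V → V) → (ℕ → V) → ℝ) : ℝ :=
  ∑ ω : Fin (k + 1) → V, ∑ π : V → V, if IsRT (ω 0) π then
    m (ω 0) / tm m * tw (Pm c m Λ) ω * (wR c (ω 0) π / sumT c Set.univ) * F π (ext ω) else 0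

/-- Joint probability. -/
noncomputable def JP (c : Sym2 V → ℝ) (m : V → ℝ) (Λ k : ℕ) (S : (V → V) → (ℕ → V) → Prop) : ℝ :=
  JE c m Λ k fun π X => if S π X then 1 else 0

/-- Inner product. -/
noncomputable def ip (m f g : V → ℝ) : ℝ := ∑ x, m x * (f x * g x)

/-- The edge `e` is crossed in the window `w` (steps `w Λ, …, (w + 1) Λ - 1`). -/
def Xw (Λ w : ℕ) (e : Sym2 V) : Set (ℕ → V) :=
  {X | ∃ i, w * Λ ≤ i ∧ i < (w + 1) * Λ ∧ X i ≠ X (i + 1) ∧ s(X i, X (i + 1)) = e}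

end RST.N
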