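import Pool.Agent.Lib.MP_7946c7_pr.N.Defs

/-!
# N/PTb. Basic facts on the law of the random spanning tree

PROOFS. Everything is finite sums of nonnegative terms. `sumT_univ_pos`: the complete graph has a
spanning tree (`SimpleGraph.Connected.exists_isTree_le` for `⊤`, connected as `V` is nonempty).
If `V` is empty no graph is a tree, all sums are `0` and `PT = 0 / 0 = 0`.
-/

open Finset
open scoped Classical

namespace RST.N

variable {V : Type} [Fintype V]

theorem wtT_pos (c : Sym2 V → ℝ) (hc : ∀ e, 0 < c e) (T : SimpleGraph V) : 0 < wtT c T := by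
  unfold wtT
  refine prod_pos fun e _ => ?_
  split_ifs
  · exact hc e
  · exact one_pos

private theorem PTb_term (c : Sym2 V → ℝ) (hc : ∀ e, 0 < c e) (S : Set (SimpleGraph V))
    (T : SimpleGraph V) : 0 ≤ if T.IsTree ∧ T ∈ S then wtT c T else 0 := by
  split_ifs
  · exact (wtT_pos c hc T).le
  · exact le_rfl

theorem sumT_nonneg (c : Sym2 V → ℝ) (hc : ∀ e, 0 < c e) (S : Set (SimpleGraph V)) :
    0 ≤ sumT c S := by
  unfold sumT
  exact sum_nonneg fun T _ => PTb_term c hc S T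

theorem sumT_mono (c : Sym2 V → ℝ) (hc : ∀ e, 0 < c e) {S S' : Set (SimpleGraph V)}
    (h : ∀ T ∈ S, T.IsTree → T ∈ S') : sumT c S ≤ sumT c S' := by
  unfold sumT
  refine sum_le_sum fun T _ => ?_
  by_cases h1 : T.IsTree ∧ T ∈ S
  · rw [if_pos h1, if_pos ⟨h1.1, h T h1.2 h1.1⟩]
  · rw [if_neg h1]
    exact PTb_term c hc S' T

theorem sumT_univ_pos [Nonempty V] (c : Sym2 V → ℝ) (hc : ∀ e, 0 < c e) :
    0 < sumT c Set.univ := by
  obtain ⟨T, -, hT⟩ := (SimpleGraph.connected_top (V := V)).exists_isTree_le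
  unfold sumT
  refine sum_pos' (fun T _ => PTb_term c hc Set.univ T) ⟨T, mem_univ _, ?_⟩
  rw [if_pos ⟨hT, Set.mem_univ _⟩]
  exact wtT_pos c hc T

theorem sumT_biUnion (c : Sym2 V → ℝ) (hc : ∀ e, 0 < c e) {ι : Type} (s : Finset ι)
    (A : Set (SimpleGraph V)) (S : ι → Set (SimpleGraph V))
    (h : ∀ T ∈ A, T.IsTree → ∃ i ∈ s, T ∈ S i) : sumT c A ≤ ∑ i ∈ s, sumT c (S i) := by
  unfold sumT
  rw [sum_comm]
  refine sum_le_sum fun T _ => ?_
  by_cases h1 : T.IsTree ∧ T ∈ A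
  · obtain ⟨i, hi, hT⟩ := h T h1.2 h1.1
    rw [if_pos h1]
    refine le_trans ?_ (single_le_sum (f := fun i => if T.IsTree ∧ T ∈ S i then wtT c T else 0)
      (fun i _ => PTb_term c hc (S i) T) hi)
    simp only [if_pos (And.intro h1.1 hT)]
    exact le_rfl
  · rw [if_neg h1]
    exact sum_nonneg fun i _ => PTb_term c hc (S i) T

theorem PT_nonneg (c : Sym2 V → ℝ) (hc : ∀ e, 0 < c e) (S : Set (SimpleGraph V)) :
    0 ≤ PT c S := by
  unfold PT
  exact div_nonneg (sumT_nonneg c hc S) (sumT_nonneg c hc Set.univ)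

theorem PT_mono (c : Sym2 V → ℝ) (hc : ∀ e, 0 < c e) {S S' : Set (SimpleGraph V)}
    (h : ∀ T ∈ S, T.IsTree → T ∈ S') : PT c S ≤ PT c S' := by
  unfold PT
  exact div_le_div_of_nonneg_right (sumT_mono c hc h) (sumT_nonneg c hc Set.univ)

theorem PT_le_one (c : Sym2 V → ℝ) (hc : ∀ e, 0 < c e) (S : Set (SimpleGraph V)) :
    PT c S ≤ 1 := by
  unfold PT
  exact div_le_one_of_le₀ (sumT_mono c hc fun T _ _ => Set.mem_univ T)
    (sumT_nonneg c hc Set.univ)

theorem PT_biUnion (c : Sym2 V → ℝ) (hc : ∀ e, 0 < c e) {ι : Type} (s : Finset ι)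
    (A : Set (SimpleGraph V)) (S : ι → Set (SimpleGraph V))
    (h : ∀ T ∈ A, T.IsTree → ∃ i ∈ s, T ∈ S i) : PT c A ≤ ∑ i ∈ s, PT c (S i) := by
  unfold PT
  rw [← sum_div]
  exact div_le_div_of_nonneg_right (sumT_biUnion c hc s A S h) (sumT_nonneg c hc Set.univ)

theorem PT_of_isEmpty [IsEmpty V] (c : Sym2 V → ℝ) (S : Set (SimpleGraph V)) : PT c S = 0 := by
  have h : sumT c (Set.univ : Set (SimpleGraph V)) = 0 := by
    unfold sumT
    refine sum_eq_zero fun T _ => if_neg ?_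
    rintro ⟨h1, -⟩
    obtain ⟨v⟩ := h1.1.nonempty
    exact isEmptyElim v
  unfold PT
  rw [h, div_zero]

theorem ET_indicator (c : Sym2 V → ℝ) (S : Set (SimpleGraph V)) :
    ET c (fun T => if T ∈ S then 1 else 0) = sumT c S := by
  unfold ET sumT
  refine sum_congr rfl fun T _ => ?_
  by_cases h1 : T.IsTree <;> by_cases h2 : T ∈ S <;> simp [h1, h2]

end RST.N
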