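import Pool.Agent.Lib.MP_7946c7_pr.N.CEb
import Pool.Agent.Lib.MP_7946c7_pr.N.PTb
import Pool.Agent.Lib.MP_7946c7_pr.N.RTb

/-!
# N/JEb. Joint law of the starting tree and of the chain

PROOFS. `JE_fac`: for fixed `ω`, `∑_π` is `(1/sumT univ) * ET c (fun T => F T (ext ω))` by `sum_rt`; exchange
`∑ ω` and the sum over `T`. `JE_mono`: all the weights are nonnegative (`wR > 0` as a product of positive
numbers, `Pm_nonneg`, `sumT_nonneg`). `JP_union`: `JE_mono` and linearity. `JP_chain`: `JE_fac` with `F` not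
depending on `T`, `ET c 1 = sumT univ > 0`. `JP_start`: `JE_fac`, `CE_const`, `ET_indicator`.
`JP_cond`: `JE_fac` with `F T X = 1` if `T ∈ G ∧ X ∈ S T`; `CE (F T) ≤ b` for every tree `T` (it is `0` if
`T ∉ G`, and `b ≥ 0`), so the value is `≤ b * sumT univ / sumT univ`.
-/

open Finset
open scoped Classical

namespace RST.N

variable {V : Type} [Fintype V]

theorem JE_fac (c : Sym2 V → ℝ) (m : V → ℝ) (Λ k : ℕ) (F : SimpleGraph V → (ℕ → V) → ℝ) :
    JE c m Λ k (fun π X => F (gof π) X) =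
      ET c (fun T => CE c m Λ k (F T)) / sumT c Set.univ := by
  have h1 : ∀ ω : Fin (k + 1) → V, (∑ π : V → V, if IsRT (ω 0) π then
      m (ω 0) / tm m * tw (Pm c m Λ) ω * (wR c (ω 0) π / sumT c Set.univ) * F (gof π) (ext ω)
        else 0) = (m (ω 0) / tm m * tw (Pm c m Λ) ω / sumT c Set.univ) *
          ET c (fun T => F T (ext ω)) := by
    intro ω
    rw [← sum_rt c (ω 0) (fun T => F T (ext ω)), Finset.mul_sum]
    refine Finset.sum_congr rfl fun π _ => ?_
    split_ifs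
    · ring
    · ring
  unfold JE
  rw [Finset.sum_congr rfl fun ω _ => h1 ω]
  unfold ET CE
  have h2 : ∀ T : SimpleGraph V, (if T.IsTree then wtT c T * ∑ ω : Fin (k + 1) → V,
      m (ω 0) / tm m * tw (Pm c m Λ) ω * F T (ext ω) else 0) =
      ∑ ω : Fin (k + 1) → V, m (ω 0) / tm m * tw (Pm c m Λ) ω *
        (if T.IsTree then wtT c T * F T (ext ω) else 0) := by
    intro T
    split_ifs
    · rw [Finset.mul_sum]
      refine Finset.sum_congr rfl fun ω _ => ?_
      ring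
    · simp
  rw [Finset.sum_congr rfl fun T _ => h2 T, Finset.sum_comm, Finset.sum_div]
  refine Finset.sum_congr rfl fun ω _ => ?_
  rw [← Finset.mul_sum]
  ring

theorem JEb_tw_nonneg (c : Sym2 V → ℝ) (m : V → ℝ) (Λ k : ℕ) (hN : NetOK c m Λ)
    (ω : Fin (k + 1) → V) : 0 ≤ m (ω 0) / tm m * tw (Pm c m Λ) ω :=
  mul_nonneg (div_nonneg (hN.m_pos _).le (Finset.sum_nonneg fun x _ => (hN.m_pos x).le))
    (Finset.prod_nonneg fun _ _ => Pm_nonneg c m Λ hN _ _)

theorem JE_mono (c : Sym2 V → ℝ) (m : V → ℝ) (Λ k : ℕ) (hN : NetOK c m Λ)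
    {F G : (V → V) → (ℕ → V) → ℝ} (h : ∀ π X, IsRT (X 0) π → F π X ≤ G π X) :
    JE c m Λ k F ≤ JE c m Λ k G := by
  unfold JE
  refine Finset.sum_le_sum fun ω _ => Finset.sum_le_sum fun π _ => ?_
  split_ifs with hr
  · refine mul_le_mul_of_nonneg_left (h π (ext ω) (by rw [ext_zero]; exact hr))
      (mul_nonneg (JEb_tw_nonneg c m Λ k hN ω) (div_nonneg ?_ (sumT_nonneg c hN.c_pos _)))
    exact Finset.prod_nonneg fun x _ => (hN.c_pos _).le
  · exact le_rfl

theorem JEb_add (c : Sym2 V → ℝ) (m : V → ℝ) (Λ k : ℕ) (F G : (V → V) → (ℕ → V) → ℝ) :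
    JE c m Λ k (fun π X => F π X + G π X) = JE c m Λ k F + JE c m Λ k G := by
  unfold JE
  rw [← Finset.sum_add_distrib]
  refine Finset.sum_congr rfl fun ω _ => ?_
  rw [← Finset.sum_add_distrib]
  refine Finset.sum_congr rfl fun π _ => ?_
  split_ifs
  · ring
  · ring

theorem JEb_zero (c : Sym2 V → ℝ) (m : V → ℝ) (Λ k : ℕ) :
    JE c m Λ k (fun _ _ => 0) = 0 := by
  unfold JE
  refine Finset.sum_eq_zero fun ω _ => Finset.sum_eq_zero fun π _ => ?_
  split_ifs
  · ring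
  · rfl

theorem JEb_sum (c : Sym2 V → ℝ) (m : V → ℝ) (Λ k : ℕ) {ι : Type}
    (s : Finset ι) (F : ι → (V → V) → (ℕ → V) → ℝ) :
    JE c m Λ k (fun π X => ∑ i ∈ s, F i π X) = ∑ i ∈ s, JE c m Λ k (F i) := by
  induction s using Finset.induction_on with
  | empty =>
    simp only [Finset.sum_empty]
    exact JEb_zero c m Λ k
  | insert a s ha ih =>
    simp only [Finset.sum_insert ha]
    rw [JEb_add, ih]

theorem JP_union (c : Sym2 V → ℝ) (m : V → ℝ) (Λ k : ℕ) (hN : NetOK c m Λ) {ι : Type}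
    (s : Finset ι) (A : (V → V) → (ℕ → V) → Prop) (S : ι → (V → V) → (ℕ → V) → Prop)
    (h : ∀ π X, IsRT (X 0) π → A π X → ∃ i ∈ s, S i π X) :
    JP c m Λ k A ≤ ∑ i ∈ s, JP c m Λ k (S i) := by
  unfold JP
  rw [← JEb_sum]
  refine JE_mono c m Λ k hN fun π X hr => ?_
  have hn : ∀ i ∈ s, (0 : ℝ) ≤ if S i π X then 1 else 0 := fun i _ => by split_ifs <;> norm_num
  split_ifs with hA
  · obtain ⟨i, hi, hS⟩ := h π X hr hA
    have h1 := Finset.single_le_sum hn hi
    rw [if_pos hS] at h1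
    exact h1
  · exact Finset.sum_nonneg hn

theorem JEb_list (c : Sym2 V → ℝ) (m : V → ℝ) (Λ k : ℕ)
    (L : List ((V → V) → (ℕ → V) → Prop)) :
    JE c m Λ k (fun π X => (L.map fun S => if S π X then (1 : ℝ) else 0).sum) =
      (L.map fun S => JP c m Λ k S).sum := by
  induction L with
  | nil =>
    simp only [List.map_nil, List.sum_nil]
    exact JEb_zero c m Λ k
  | cons S L ih =>
    simp only [List.map_cons, List.sum_cons]
    rw [JEb_add, ih]
    rfl

/-- Union bound with a list of events. -/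
theorem JP_union_list (c : Sym2 V → ℝ) (m : V → ℝ) (Λ k : ℕ) (hN : NetOK c m Λ)
    (A : (V → V) → (ℕ → V) → Prop) (L : List ((V → V) → (ℕ → V) → Prop))
    (h : ∀ π X, IsRT (X 0) π → A π X → ∃ S ∈ L, S π X) :
    JP c m Λ k A ≤ (L.map fun S => JP c m Λ k S).sum := by
  rw [← JEb_list]
  unfold JP
  refine JE_mono c m Λ k hN fun π X hr => ?_
  have hn : ∀ a ∈ (L.map fun S => if S π X then (1 : ℝ) else 0), (0 : ℝ) ≤ a := by
    intro a ha
    obtain ⟨S, _, rfl⟩ := List.mem_map.1 ha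
    split_ifs <;> norm_num
  split_ifs with hA
  · obtain ⟨S, hS, hS'⟩ := h π X hr hA
    refine List.single_le_sum hn 1 (List.mem_map.2 ⟨S, hS, if_pos hS'⟩)
  · exact List.sum_nonneg hn

theorem JEb_ET_const (c : Sym2 V → ℝ) (a : ℝ) :
    ET c (fun _ => a) = a * sumT c Set.univ := by
  unfold ET sumT
  rw [Finset.mul_sum]
  refine Finset.sum_congr rfl fun T _ => ?_
  by_cases hT : T.IsTree
  · rw [if_pos hT, if_pos ⟨hT, Set.mem_univ _⟩]; ring
  · rw [if_neg hT, if_neg fun h => hT h.1]; ring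

theorem JP_chain [Nonempty V] (c : Sym2 V → ℝ) (m : V → ℝ) (Λ k : ℕ) (hN : NetOK c m Λ)
    (S : Set (ℕ → V)) : JP c m Λ k (fun _ X => X ∈ S) = CP c m Λ k S := by
  have h1 := JE_fac c m Λ k (fun _ X => if X ∈ S then 1 else 0)
  have h2 : JP c m Λ k (fun _ X => X ∈ S) =
      JE c m Λ k (fun _ X => if X ∈ S then 1 else 0) := rfl
  rw [h2, h1, JEb_ET_const, mul_div_assoc, div_self (sumT_univ_pos c hN.c_pos).ne', mul_one]
  rfl

theorem JP_start [Nonempty V] (c : Sym2 V → ℝ) (m : V → ℝ) (Λ k : ℕ) (hN : NetOK c m Λ)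
    (A : Set (SimpleGraph V)) : JP c m Λ k (fun π _ => gof π ∈ A) = PT c A := by
  have h1 := JE_fac c m Λ k (fun T _ => if T ∈ A then 1 else 0)
  have h2 : JP c m Λ k (fun π _ => gof π ∈ A) =
      JE c m Λ k (fun π _ => if gof π ∈ A then 1 else 0) := rfl
  rw [h2, h1]
  simp only [CE_const c m Λ k hN]
  rw [ET_indicator]
  rfl

theorem JP_cond [Nonempty V] (c : Sym2 V → ℝ) (m : V → ℝ) (Λ k : ℕ) (hN : NetOK c m Λ)
    (G : Set (SimpleGraph V)) (S : SimpleGraph V → Set (ℕ → V)) (b : ℝ) (hb : 0 ≤ b)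
    (h : ∀ T ∈ G, T.IsTree → CP c m Λ k (S T) ≤ b) :
    JP c m Λ k (fun π X => gof π ∈ G ∧ X ∈ S (gof π)) ≤ b := by
  have h1 := JE_fac c m Λ k (fun T X => if T ∈ G ∧ X ∈ S T then 1 else 0)
  have h2 : JP c m Λ k (fun π X => gof π ∈ G ∧ X ∈ S (gof π)) =
      JE c m Λ k (fun π X => if gof π ∈ G ∧ X ∈ S (gof π) then 1 else 0) := by
    unfold JP
    congr 1
    funext π X
    by_cases hX : gof π ∈ G ∧ X ∈ S (gof π)
    · rw [if_pos hX, if_pos hX]
    · rw [if_neg hX, if_neg hX]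
  have hpos := sumT_univ_pos c hN.c_pos
  rw [h2, h1, div_le_iff₀ hpos, ← JEb_ET_const]
  unfold ET
  refine Finset.sum_le_sum fun T _ => ?_
  split_ifs with hT
  · refine mul_le_mul_of_nonneg_left ?_ (wtT_pos c hN.c_pos T).le
    by_cases hG : T ∈ G
    · refine le_trans (le_of_eq ?_) (h T hG hT)
      unfold CP
      beta_reduce
      congr 1
      funext X
      by_cases hX : X ∈ S T
      · rw [if_pos ⟨hG, hX⟩, if_pos hX]
      · rw [if_neg fun h => hX h.2, if_neg hX]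
    · have h3 : (fun X : ℕ → V => if T ∈ G ∧ X ∈ S T then (1 : ℝ) else 0) = fun _ => 0 := by
        funext X
        rw [if_neg fun h => hG h.1]
      beta_reduce
      rw [h3, CE_const c m Λ k hN]
      exact hb
  · exact le_rfl

end RST.N
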