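import Pool.Agent.Lib.MP_7946c7_pr.N.Pb

/-!
# N/SpecA. Symmetric positive matrices: contraction

Write `‖f‖² = ip m f f`, `B f g = ip m f (A g)`.
PROOFS. `ip_cs`: Cauchy-Schwarz for the weights `m` (`Finset.sum_mul_sq_le_sq_mul_sq` applied to
`sqrt (m x) f x`, or the discriminant). `B_cs`: `B` is symmetric (`ip_adj`), bilinear and
`B h h ≥ 0`, so for all real `t`, `0 ≤ B (f + t g) (f + t g) = B f f + 2 t B f g + t² B g g`
(`discrim_le_zero` or choose `t`). `contr`: `‖A f‖² = ip (A f) (A f) = B (A f) f`; by `B_cs` and the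
hypothesis for `f` and `A f` (both in `H`): `‖A f‖⁴ ≤ B f f * B (A f) (A f) ≤ ρ ‖f‖² * ρ ‖A f‖²`; divide by
`‖A f‖²` (if it is `0`, trivial). `contr_pow`: induction (`A ^ (k+1)` applied to `f` is
`A (A^k f)`, `A^k f ∈ H`).
-/

open Finset
open scoped Classical

namespace RST.N

variable {V : Type} [Fintype V]

theorem ip_self_nonneg (m : V → ℝ) (hm : ∀ x, 0 < m x) (f : V → ℝ) : 0 ≤ ip m f f := by
  unfold ip
  exact Finset.sum_nonneg fun x _ => mul_nonneg (hm x).le (mul_self_nonneg _)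

theorem ip_cs (m : V → ℝ) (hm : ∀ x, 0 < m x) (f g : V → ℝ) :
    ip m f g ≤ Real.sqrt (ip m f f) * Real.sqrt (ip m g g) := by
  have h := Real.sum_mul_le_sqrt_mul_sqrt (univ : Finset V) (fun x => Real.sqrt (m x) * f x)
    (fun x => Real.sqrt (m x) * g x)
  have e1 : ∀ f g : V → ℝ, ∑ x, Real.sqrt (m x) * f x * (Real.sqrt (m x) * g x) = ip m f g := by
    intro f g
    unfold ip
    apply Finset.sum_congr rfl
    intro x _
    have := Real.mul_self_sqrt (hm x).le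
    calc Real.sqrt (m x) * f x * (Real.sqrt (m x) * g x) =
          (Real.sqrt (m x) * Real.sqrt (m x)) * (f x * g x) := by ring
      _ = m x * (f x * g x) := by rw [this]
  have e2 : ∀ f : V → ℝ, ∑ x, (Real.sqrt (m x) * f x) ^ 2 = ip m f f := by
    intro f
    rw [← e1 f f]
    apply Finset.sum_congr rfl
    intro x _
    ring
  rw [e1, e2, e2] at h
  exact h

private theorem SpecA_comm (m f g : V → ℝ) : ip m f g = ip m g f := by
  unfold ip
  apply Finset.sum_congr rfl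
  intro x _
  ring

private theorem SpecA_expand (m f g u v : V → ℝ) (t : ℝ) :
    ip m (f + t • g) (u + t • v) = ip m g v * (t * t) + (ip m f v + ip m g u) * t + ip m f u := by
  unfold ip
  rw [← Finset.sum_add_distrib, Finset.sum_mul, Finset.sum_mul, ← Finset.sum_add_distrib,
    ← Finset.sum_add_distrib]
  apply Finset.sum_congr rfl
  intro x _
  simp only [Pi.add_apply, Pi.smul_apply, smul_eq_mul]
  ring

theorem B_cs (m : V → ℝ) (A : Matrix V V ℝ) (hA : ∀ x y, m x * A x y = m y * A y x)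
    (hpos : ∀ f, 0 ≤ ip m f (A.mulVec f)) (f g : V → ℝ) :
    ip m f (A.mulVec g) ^ 2 ≤ ip m f (A.mulVec f) * ip m g (A.mulVec g) := by
  have hsymm : ip m g (A.mulVec f) = ip m f (A.mulVec g) := by
    rw [ip_adj m A hA f g, SpecA_comm]
  have h : ∀ t : ℝ, 0 ≤ ip m g (A.mulVec g) * (t * t) + (2 * ip m f (A.mulVec g)) * t +
      ip m f (A.mulVec f) := by
    intro t
    have h1 := hpos (f + t • g)
    rw [Matrix.mulVec_add, Matrix.mulVec_smul, SpecA_expand, hsymm] at h1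
    linarith
  have h2 := discrim_le_zero h
  unfold discrim at h2
  nlinarith

theorem contr (m : V → ℝ) (hm : ∀ x, 0 < m x) (A : Matrix V V ℝ)
    (hA : ∀ x y, m x * A x y = m y * A y x) (hpos : ∀ f, 0 ≤ ip m f (A.mulVec f))
    (H : Set (V → ℝ)) (hH : ∀ f ∈ H, A.mulVec f ∈ H) (ρ : ℝ) (hρ : 0 ≤ ρ)
    (hle : ∀ f ∈ H, ip m f (A.mulVec f) ≤ ρ * ip m f f) (f : V → ℝ) (hf : f ∈ H) :
    ip m (A.mulVec f) (A.mulVec f) ≤ ρ ^ 2 * ip m f f := by
  have hN0 := ip_self_nonneg m hm (A.mulVec f)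
  have hf0 := ip_self_nonneg m hm f
  have h1 := B_cs m A hA hpos f (A.mulVec f)
  rw [ip_adj m A hA f (A.mulVec f)] at h1
  have h2 := hle f hf
  have h3 := hle (A.mulVec f) (hH f hf)
  have h4 : ip m (A.mulVec f) (A.mulVec f) ^ 2 ≤
      (ρ * ip m f f) * (ρ * ip m (A.mulVec f) (A.mulVec f)) :=
    h1.trans (mul_le_mul h2 h3 (hpos _) (mul_nonneg hρ hf0))
  rcases hN0.eq_or_lt with h5 | h5
  · rw [← h5]
    positivity
  · have h6 : ip m (A.mulVec f) (A.mulVec f) * ip m (A.mulVec f) (A.mulVec f) ≤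
        (ρ ^ 2 * ip m f f) * ip m (A.mulVec f) (A.mulVec f) := by
      calc ip m (A.mulVec f) (A.mulVec f) * ip m (A.mulVec f) (A.mulVec f) =
            ip m (A.mulVec f) (A.mulVec f) ^ 2 := by ring
        _ ≤ _ := h4
        _ = _ := by ring
    exact le_of_mul_le_mul_right h6 h5

theorem contr_pow (m : V → ℝ) (hm : ∀ x, 0 < m x) (A : Matrix V V ℝ)
    (hA : ∀ x y, m x * A x y = m y * A y x) (hpos : ∀ f, 0 ≤ ip m f (A.mulVec f))
    (H : Set (V → ℝ)) (hH : ∀ f ∈ H, A.mulVec f ∈ H) (ρ : ℝ) (hρ : 0 ≤ ρ)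
    (hle : ∀ f ∈ H, ip m f (A.mulVec f) ≤ ρ * ip m f f) (f : V → ℝ) (hf : f ∈ H) (k : ℕ) :
    ip m ((A ^ k).mulVec f) ((A ^ k).mulVec f) ≤ (ρ ^ k) ^ 2 * ip m f f := by
  induction k generalizing f with
  | zero =>
    rw [pow_zero, Matrix.one_mulVec, pow_zero]
    linarith
  | succ k ih =>
    rw [pow_succ, ← Matrix.mulVec_mulVec]
    have h1 := ih (A.mulVec f) (hH f hf)
    have h2 := contr m hm A hA hpos H hH ρ hρ hle f hf
    calc ip m ((A ^ k).mulVec (A.mulVec f)) ((A ^ k).mulVec (A.mulVec f)) ≤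
          (ρ ^ k) ^ 2 * ip m (A.mulVec f) (A.mulVec f) := h1
      _ ≤ (ρ ^ k) ^ 2 * (ρ ^ 2 * ip m f f) := mul_le_mul_of_nonneg_left h2 (by positivity)
      _ = (ρ ^ (k + 1)) ^ 2 * ip m f f := by ring

end RST.N
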