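import Pool.Agent.Lib.MP_7946c7_pr.N.Defs

/-!
# N/SwapA. The swap map on spanning trees

PROOFS. `swp_isTree`. Use `SimpleGraph.isTree_iff_connected_and_card` (connected and
`Nat.card edgeSet + 1 = Nat.card V`; check the exact name). Write `e = s(x, y)`, `T₀ = T.deleteEdges {e}`.
The edge `s(a, b)` is not in `T₀` (else `a` reaches `b`), `a ≠ b`, so the edge set of `swp T e s(a,b)`
is `(T.edgeSet \ {e}) ∪ {s(a,b)}`, of the same cardinality as `T.edgeSet`. Connected: in `T₀` every
vertex is reachable from `x` or from `y` (take the walk of `T` to `x`; if it uses `e`, cut at its first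
use of `e`; or: `T` connected and induction on the walk); `a` and `b` are not in the same class, so one
is reachable from `x` and the other from `y`, and `s(a,b)` joins the two classes.
`swp_wt`. `wtT` is the product over `e : Sym2 V` of `c e` or `1`; the two products differ in the factors
at `e` and at `s(a,b)` only (they agree if `s(a,b) = e`): `Finset.prod` over `univ.erase ...`, or write
both weights as products over the finite edge sets. 
`swp_inj`. `T₁.edgeSet \ {e} = (swp ..).edgeSet \ {f}` (as `f` is not in `T₁.edgeSet \ {e}`), same for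
`T₂`; then add `e`.
-/

open Finset
open scoped Classical

namespace RST.N

variable {V : Type} [Fintype V]

omit [Fintype V] in
private theorem SwapA_reach (T : SimpleGraph V) {x y v : V} (w : T.Walk v x) :
    (T.deleteEdges {s(x, y)}).Reachable v x ∨ (T.deleteEdges {s(x, y)}).Reachable v y := by
  induction w with
  | nil => exact Or.inl (SimpleGraph.Reachable.refl _)
  | @cons u v' z hadj p ih =>
    by_cases he : s(u, v') = s(z, y)
    · rcases Sym2.eq_iff.1 he with ⟨h1, _⟩ | ⟨h1, _⟩
      · exact Or.inl (h1 ▸ SimpleGraph.Reachable.refl _)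
      · exact Or.inr (h1 ▸ SimpleGraph.Reachable.refl _)
    · have h1 : (T.deleteEdges {s(z, y)}).Adj u v' := by
        rw [SimpleGraph.deleteEdges_adj]
        exact ⟨hadj, he⟩
      rcases ih with h2 | h2
      · exact Or.inl (h1.reachable.trans h2)
      · exact Or.inr (h1.reachable.trans h2)

omit [Fintype V] in
private theorem SwapA_mem (T : SimpleGraph V) (e f z : Sym2 V) :
    z ∈ (swp T e f).edgeSet ↔ (z ∈ T.edgeSet ∧ z ≠ e) ∨ (z = f ∧ ¬ z.IsDiag) := by
  unfold swp
  rw [SimpleGraph.edgeSet_sup, Set.mem_union, SimpleGraph.edgeSet_deleteEdges,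
    SimpleGraph.edgeSet_fromEdgeSet, Set.mem_sdiff, Set.mem_sdiff, Set.mem_singleton_iff,
    Set.mem_singleton_iff]
  rfl

theorem swp_isTree (T : SimpleGraph V) (hT : T.IsTree) (e : Sym2 V) (he : e ∈ T.edgeSet) (a b : V)
    (h : ¬ (T.deleteEdges {e}).Reachable a b) : (swp T e s(a, b)).IsTree := by
  have hac : (swp T e s(a, b)).IsAcyclic :=
    (hT.isAcyclic.anti (SimpleGraph.deleteEdges_le _)).sup_edge_of_not_reachable h
  have hle : T.deleteEdges {e} ≤ swp T e s(a, b) := le_sup_left
  have hab : a ≠ b := by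
    rintro rfl
    exact h (SimpleGraph.Reachable.refl _)
  have hadj : (swp T e s(a, b)).Adj a b := by
    rw [← SimpleGraph.mem_edgeSet, SwapA_mem]
    refine Or.inr ⟨rfl, ?_⟩
    rw [Sym2.mk_isDiag_iff]
    exact hab
  induction e using Sym2.ind with
  | _ x y =>
    have hcl : ∀ v, (T.deleteEdges {s(x, y)}).Reachable v x ∨
        (T.deleteEdges {s(x, y)}).Reachable v y := by
      intro v
      obtain ⟨w⟩ := hT.connected.preconnected v x
      exact SwapA_reach T w
    have hxy : (swp T s(x, y) s(a, b)).Reachable x y := by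
      rcases hcl a with h1 | h1 <;> rcases hcl b with h2 | h2
      · exact absurd (h1.trans h2.symm) h
      · exact ((h1.mono hle).symm.trans hadj.reachable).trans (h2.mono hle)
      · exact ((h2.mono hle).symm.trans hadj.reachable.symm).trans (h1.mono hle)
      · exact absurd (h1.trans h2.symm) h
    have hall : ∀ v, (swp T s(x, y) s(a, b)).Reachable v x := by
      intro v
      rcases hcl v with h1 | h1
      · exact h1.mono hle
      · exact (h1.mono hle).trans hxy.symm
    haveI : Nonempty V := ⟨a⟩
    exact { connected := ⟨fun u v => (hall u).trans (hall v).symm⟩, isAcyclic := hac }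

private theorem SwapA_wt (c : Sym2 V → ℝ) (G G' : SimpleGraph V) (f : Sym2 V)
    (hf : f ∉ G.edgeSet) (h : ∀ z, z ∈ G'.edgeSet ↔ z = f ∨ z ∈ G.edgeSet) :
    wtT c G' = c f * wtT c G := by
  unfold wtT
  rw [← Finset.mul_prod_erase univ _ (mem_univ f),
    ← Finset.mul_prod_erase univ (fun z => if z ∈ G.edgeSet then c z else 1) (mem_univ f),
    if_pos ((h f).2 (Or.inl rfl)), if_neg hf, one_mul]
  congr 1
  apply Finset.prod_congr rfl
  intro z hz
  have hz' : z ≠ f := (Finset.mem_erase.1 hz).1
  have h1 : (z ∈ G'.edgeSet) = (z ∈ G.edgeSet) := by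
    apply propext
    rw [h z]
    constructor
    · rintro (h2 | h2)
      · exact absurd h2 hz'
      · exact h2
    · exact Or.inr
  simp only [h1]

theorem swp_wt (c : Sym2 V → ℝ) (hc : ∀ e, 0 < c e) (T : SimpleGraph V) (e : Sym2 V)
    (he : e ∈ T.edgeSet) (a b : V) (h : ¬ (T.deleteEdges {e}).Reachable a b) :
    wtT c T = c e / c s(a, b) * wtT c (swp T e s(a, b)) := by
  have hab : a ≠ b := by
    rintro rfl
    exact h (SimpleGraph.Reachable.refl _)
  have hd : ¬ (s(a, b)).IsDiag := by
    rw [Sym2.mk_isDiag_iff]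
    exact hab
  have hnab : s(a, b) ∉ (T.deleteEdges {e}).edgeSet := by
    intro h1
    exact h ((SimpleGraph.mem_edgeSet _).1 h1).reachable
  have h1 : wtT c T = c e * wtT c (T.deleteEdges {e}) := by
    apply SwapA_wt
    · rw [SimpleGraph.edgeSet_deleteEdges]
      intro h2
      exact h2.2 rfl
    · intro z
      rw [SimpleGraph.edgeSet_deleteEdges, Set.mem_sdiff, Set.mem_singleton_iff]
      constructor
      · intro h2
        by_cases h3 : z = e
        · exact Or.inl h3
        · exact Or.inr ⟨h2, h3⟩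
      · rintro (h2 | h2)
        · rw [h2]; exact he
        · exact h2.1
  have h2 : wtT c (swp T e s(a, b)) = c s(a, b) * wtT c (T.deleteEdges {e}) := by
    apply SwapA_wt _ _ _ _ hnab
    intro z
    rw [SwapA_mem, SimpleGraph.edgeSet_deleteEdges, Set.mem_sdiff, Set.mem_singleton_iff]
    constructor
    · rintro (h2 | h2)
      · exact Or.inr h2
      · exact Or.inl h2.1
    · rintro (h2 | h2)
      · exact Or.inr ⟨h2, by rw [h2]; exact hd⟩
      · exact Or.inl h2
  rw [h1, h2]
  have h3 := (hc s(a, b)).ne'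
  field_simp

theorem swp_inj (T₁ T₂ : SimpleGraph V) (e f : Sym2 V) (h₁ : e ∈ T₁.edgeSet) (h₂ : e ∈ T₂.edgeSet)
    (hf₁ : f ∉ (T₁.deleteEdges {e}).edgeSet) (hf₂ : f ∉ (T₂.deleteEdges {e}).edgeSet)
    (h : swp T₁ e f = swp T₂ e f) : T₁ = T₂ := by
  rw [← SimpleGraph.edgeSet_inj]
  ext z
  rw [SimpleGraph.edgeSet_deleteEdges, Set.mem_sdiff, Set.mem_singleton_iff] at hf₁ hf₂
  by_cases hz : z = e
  · rw [hz]
    exact ⟨fun _ => h₂, fun _ => h₁⟩
  · by_cases hzf : z = f
    · rw [hzf] at hz ⊢
      constructor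
      · intro h3
        exact absurd ⟨h3, hz⟩ hf₁
      · intro h3
        exact absurd ⟨h3, hz⟩ hf₂
    · have h3 := SwapA_mem T₁ e f z
      have h4 := SwapA_mem T₂ e f z
      rw [h] at h3
      rw [h3] at h4
      constructor
      · intro h5
        rcases h4.1 (Or.inl ⟨h5, hz⟩) with h6 | h6
        · exact h6.1
        · exact absurd h6.1 hzf
      · intro h5
        rcases h4.2 (Or.inl ⟨h5, hz⟩) with h6 | h6
        · exact h6.1
        · exact absurd h6.1 hzf

end RST.N
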