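import Pool.Agent.Lib.MP_7946c7_pr.N.PTb
import Pool.Agent.Lib.MP_7946c7_pr.N.SwapA

/-!
# N/SwapB. The general swap inequality

PROOF. For `i < k` let `A i` be the set of the `T ∈ A` such that `e ∈ T.edgeSet`,
`¬ (T.deleteEdges {e}).Reachable (ρ i) (ρ (i+1))` and `swp T e s(ρ i, ρ (i+1)) ∈ B`. By `sumT_biUnion`
`sumT c A ≤ ∑ i, sumT c (A i)`. For fixed `i`, `f = s(ρ i, ρ (i+1))`: `swp_wt` gives
`sumT c (A i) = c e / c f * ∑_{T ∈ A i tree} wtT c (swp T e f) ≤ c e / c f * sumT c B`, because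
`T ↦ swp T e f` is injective on the trees of `A i` (`swp_inj`; `f ∉ (T.deleteEdges {e}).edgeSet` since
otherwise `ρ i` reaches `ρ (i+1)`), maps them to trees (`swp_isTree`) in `B`, and all terms are `≥ 0`
(`Finset.sum_image`, `Finset.sum_le_sum_of_subset_of_nonneg`). Then divide by `sumT c univ`.
-/

open Finset
open scoped Classical

namespace RST.N

variable {V : Type} [Fintype V]

private theorem swapB_filter (c : Sym2 V → ℝ) (S : Set (SimpleGraph V)) :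
    sumT c S = ∑ T ∈ univ.filter (fun T : SimpleGraph V => T.IsTree ∧ T ∈ S), wtT c T := by
  unfold sumT
  rw [Finset.sum_filter]

private theorem swapB_single (c : Sym2 V → ℝ) (hc : ∀ e, 0 < c e) (S B : Set (SimpleGraph V))
    (e : Sym2 V) (a b : V) (hS : ∀ T ∈ S, e ∈ T.edgeSet ∧ ¬ (T.deleteEdges {e}).Reachable a b ∧
      swp T e s(a, b) ∈ B) : sumT c S ≤ c e / c s(a, b) * sumT c B := by
  rw [swapB_filter, swapB_filter]
  set F : Finset (SimpleGraph V) := univ.filter (fun T : SimpleGraph V => T.IsTree ∧ T ∈ S) with hF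
  have hmem : ∀ T ∈ F, T.IsTree ∧ e ∈ T.edgeSet ∧ ¬ (T.deleteEdges {e}).Reachable a b ∧
      swp T e s(a, b) ∈ B := by
    intro T hT
    have h1 := (Finset.mem_filter.1 hT).2
    exact ⟨h1.1, hS T h1.2⟩
  have hnot : ∀ T ∈ F, s(a, b) ∉ (T.deleteEdges {e}).edgeSet := by
    intro T hT hmm
    exact (hmem T hT).2.2.1 (SimpleGraph.Adj.reachable ((SimpleGraph.mem_edgeSet _).1 hmm))
  have h1 : ∑ T ∈ F, wtT c T = c e / c s(a, b) * ∑ T ∈ F, wtT c (swp T e s(a, b)) := by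
    rw [Finset.mul_sum]
    refine Finset.sum_congr rfl fun T hT => ?_
    exact swp_wt c hc T e (hmem T hT).2.1 a b (hmem T hT).2.2.1
  rw [h1]
  refine mul_le_mul_of_nonneg_left ?_ (div_nonneg (hc _).le (hc _).le)
  have hinj : Set.InjOn (fun T : SimpleGraph V => swp T e s(a, b)) (F : Set (SimpleGraph V)) := by
    intro T₁ h₁ T₂ h₂ heq
    exact swp_inj T₁ T₂ e s(a, b) (hmem T₁ h₁).2.1 (hmem T₂ h₂).2.1 (hnot T₁ h₁) (hnot T₂ h₂) heq
  have h2 : ∑ T ∈ F.image (fun T : SimpleGraph V => swp T e s(a, b)), wtT c T =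
      ∑ T ∈ F, wtT c (swp T e s(a, b)) := Finset.sum_image hinj
  rw [← h2]
  refine Finset.sum_le_sum_of_subset_of_nonneg ?_ (fun T _ _ => (wtT_pos c hc T).le)
  intro T hT
  obtain ⟨T', hT', rfl⟩ := Finset.mem_image.1 hT
  refine Finset.mem_filter.2 ⟨Finset.mem_univ _, ?_, ?_⟩
  · exact swp_isTree T' (hmem T' hT').1 e (hmem T' hT').2.1 a b (hmem T' hT').2.2.1
  · exact (hmem T' hT').2.2.2

theorem swap_gen (c : Sym2 V → ℝ) (hc : ∀ e, 0 < c e) (A B : Set (SimpleGraph V)) (e : Sym2 V)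
    (ρ : ℕ → V) (k : ℕ)
    (h : ∀ T ∈ A, T.IsTree → e ∈ T.edgeSet ∧ ∃ i < k,
      ¬ (T.deleteEdges {e}).Reachable (ρ i) (ρ (i + 1)) ∧ swp T e s(ρ i, ρ (i + 1)) ∈ B) :
    PT c A ≤ (∑ i ∈ range k, c e / c s(ρ i, ρ (i + 1))) * PT c B := by
  have h1 : sumT c A ≤ ∑ i ∈ range k, sumT c {T : SimpleGraph V | e ∈ T.edgeSet ∧
      ¬ (T.deleteEdges {e}).Reachable (ρ i) (ρ (i + 1)) ∧ swp T e s(ρ i, ρ (i + 1)) ∈ B} := by
    refine sumT_biUnion c hc (range k) A _ ?_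
    intro T hT htree
    obtain ⟨he, i, hi, hr, hB⟩ := h T hT htree
    exact ⟨i, Finset.mem_range.2 hi, he, hr, hB⟩
  have h2 : sumT c A ≤ (∑ i ∈ range k, c e / c s(ρ i, ρ (i + 1))) * sumT c B := by
    rw [Finset.sum_mul]
    exact h1.trans (Finset.sum_le_sum fun i _ => swapB_single c hc _ B e (ρ i) (ρ (i + 1))
      (fun T hT => hT))
  unfold PT
  rw [← mul_div_assoc]
  exact div_le_div_of_nonneg_right h2 (sumT_nonneg c hc _)

end RST.N
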